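import Mathlib

set_option autoImplicit false

/-!
Ax's lemma: an element of the algebraic closure of `ℚ_[p]` that is almost fixed by the
Galois group over an intermediate field `F` is close to an element of `F`, with a constant
independent of its degree.
-/

namespace Pool.Agent.H356R3.FM

open Polynomial

variable {p : ℕ} [hp : Fact p.Prime]

/-- Coefficient bound for a product of linear factors. -/
theorem coeff_prod_bound (s : Multiset (PadicAlgCl p)) (D : ℝ) (hD : 0 ≤ D) :
    (∀ a ∈ s, ‖a‖ ≤ D) →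
    ∀ k : ℕ, ‖((s.map fun a => (X + C a : (PadicAlgCl p)[X])).prod).coeff k‖ * D ^ k
      ≤ D ^ (Multiset.card s) := by
  induction s using Multiset.induction_on with
  | empty =>
    intro _ k
    simp only [Multiset.map_zero, Multiset.prod_zero, Multiset.card_zero, pow_zero]
    rw [coeff_one]
    split_ifs with h
    · subst h; simp
    · simp
  | cons a s ih =>
    intro h k
    have h1 : ‖a‖ ≤ D := h a (Multiset.mem_cons_self a s)
    have h2 := ih (fun b hb => h b (Multiset.mem_cons_of_mem hb))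
    rw [Multiset.map_cons, Multiset.prod_cons, Multiset.card_cons, add_mul]
    set P := ((s.map fun a => (X + C a : (PadicAlgCl p)[X])).prod) with hP
    cases k with
    | zero =>
      have e : (X * P + C a * P).coeff 0 = a * P.coeff 0 := by simp
      rw [e, norm_mul, pow_zero, mul_one]
      have h3 := h2 0
      rw [pow_zero, mul_one] at h3
      calc ‖a‖ * ‖P.coeff 0‖ ≤ D * D ^ (Multiset.card s) :=
            mul_le_mul h1 h3 (norm_nonneg _) hD
        _ = D ^ (Multiset.card s + 1) := by ring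
    | succ k =>
      have e : (X * P + C a * P).coeff (k + 1) = P.coeff k + a * P.coeff (k + 1) := by
        rw [coeff_add, coeff_X_mul, coeff_C_mul]
      rw [e]
      have hna := IsUltrametricDist.norm_add_le_max (P.coeff k) (a * P.coeff (k + 1))
      have hk0 : 0 ≤ D ^ (k + 1) := pow_nonneg hD _
      calc ‖P.coeff k + a * P.coeff (k + 1)‖ * D ^ (k + 1)
          ≤ max ‖P.coeff k‖ ‖a * P.coeff (k + 1)‖ * D ^ (k + 1) :=
            mul_le_mul_of_nonneg_right hna hk0
        _ = max (‖P.coeff k‖ * D ^ (k + 1)) (‖a * P.coeff (k + 1)‖ * D ^ (k + 1)) :=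
            max_mul_of_nonneg _ _ hk0
        _ ≤ D ^ (Multiset.card s + 1) := by
            apply max_le
            · calc ‖P.coeff k‖ * D ^ (k + 1) = (‖P.coeff k‖ * D ^ k) * D := by ring
                _ ≤ D ^ (Multiset.card s) * D := mul_le_mul_of_nonneg_right (h2 k) hD
                _ = D ^ (Multiset.card s + 1) := by ring
            · rw [norm_mul]
              calc ‖a‖ * ‖P.coeff (k + 1)‖ * D ^ (k + 1)
                  = ‖a‖ * (‖P.coeff (k + 1)‖ * D ^ (k + 1)) := by ring
                _ ≤ D * D ^ (Multiset.card s) :=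
                    mul_le_mul h1 (h2 (k + 1)) (by positivity) hD
                _ = D ^ (Multiset.card s + 1) := by ring

/-- Evaluation bound for Hasse derivatives at a point close to all the roots. -/
theorem eval_hasse_bound (P : (PadicAlgCl p)[X]) (hP : P.Monic) (a : PadicAlgCl p) (D : ℝ)
    (hD : 0 ≤ D) (h : ∀ r ∈ P.roots, ‖a - r‖ ≤ D) (q : ℕ) :
    ‖(hasseDeriv q P).eval a‖ * D ^ q ≤ D ^ P.natDegree := by
  have hs : P.Splits := IsAlgClosed.splits P
  have hcard : Multiset.card P.roots = P.natDegree := by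
    exact (splits_iff_card_roots.mp hs)
  have hprod : P = (P.roots.map fun r => (X - C r)).prod := by
    have := hs.eq_prod_roots
    rw [hP.leadingCoeff, C_1, one_mul] at this
    exact this
  have ht : taylor a P = ((P.roots.map fun r => a - r).map fun b => (X + C b)).prod := by
    rw [Multiset.map_map]
    conv_lhs => rw [hprod]
    have e1 : ∀ f : (PadicAlgCl p)[X], taylor a f = taylorAlgHom a f := fun f => rfl
    rw [e1, map_multiset_prod, Multiset.map_map]
    congr 1
    apply Multiset.map_congr rfl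
    intro r _
    simp only [Function.comp_apply, ← e1, map_sub, taylor_X, taylor_C]
    ring
  rw [← taylor_coeff, ht]
  have := coeff_prod_bound (p := p) (P.roots.map fun r => a - r) D hD (by
    intro b hb
    rw [Multiset.mem_map] at hb
    obtain ⟨r, hr, rfl⟩ := hb
    exact h r hr) q
  rw [Multiset.card_map, hcard] at this
  exact this

theorem pow_card_le_prod_real (s : Multiset ℝ) (c : ℝ) (hc : 0 ≤ c) :
    (∀ x ∈ s, c ≤ x) → c ^ (Multiset.card s) ≤ s.prod := by
  induction s using Multiset.induction_on with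
  | empty => intro _; simp
  | cons a s ih =>
    intro h
    rw [Multiset.card_cons, Multiset.prod_cons, pow_succ']
    exact mul_le_mul (h a (Multiset.mem_cons_self a s))
      (ih (fun x hx => h x (Multiset.mem_cons_of_mem hx))) (pow_nonneg hc _)
      (le_trans hc (h a (Multiset.mem_cons_self a s)))

/-- A root of the Hasse derivative close to `a`. -/
theorem exists_root_hasse (P : (PadicAlgCl p)[X]) (hP : P.Monic) (a : PadicAlgCl p) (D : ℝ)
    (hD : 0 < D) (h : ∀ r ∈ P.roots, ‖a - r‖ ≤ D) (q : ℕ) (hq : q < P.natDegree) :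
    ∃ b : PadicAlgCl p, (hasseDeriv q P).IsRoot b ∧
      ‖a - b‖ ^ (P.natDegree - q) * ‖((P.natDegree.choose q : ℕ) : PadicAlgCl p)‖
        ≤ D ^ (P.natDegree - q) := by
  set Q := hasseDeriv q P with hQ
  have hcoef : Q.coeff (P.natDegree - q) = ((P.natDegree.choose q : ℕ) : PadicAlgCl p) := by
    rw [hQ, hasseDeriv_coeff, Nat.sub_add_cancel hq.le, coeff_natDegree, hP.leadingCoeff, mul_one]
  have hch : ((P.natDegree.choose q : ℕ) : PadicAlgCl p) ≠ 0 := by
    rw [Nat.cast_ne_zero]
    exact (Nat.choose_pos hq.le).ne'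
  have hnd : Q.natDegree = P.natDegree - q := by
    apply le_antisymm (natDegree_hasseDeriv_le P q)
    apply le_natDegree_of_ne_zero
    rw [hcoef]
    exact hch
  have hlead : Q.leadingCoeff = ((P.natDegree.choose q : ℕ) : PadicAlgCl p) := by
    rw [leadingCoeff, hnd, hcoef]
  have hQ0 : Q ≠ 0 := by
    intro h0
    rw [h0, leadingCoeff_zero] at hlead
    exact hch hlead.symm
  have hs : Q.Splits := IsAlgClosed.splits Q
  have hcard : Multiset.card Q.roots = P.natDegree - q := by
    rw [splits_iff_card_roots.mp hs, hnd]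
  have hprod := hs.eq_prod_roots
  have heval : ‖Q.eval a‖ = ‖((P.natDegree.choose q : ℕ) : PadicAlgCl p)‖ *
      (Q.roots.map fun r => ‖a - r‖).prod := by
    conv_lhs => rw [hprod]
    rw [eval_mul, eval_C, norm_mul, hlead]
    congr 1
    rw [eval_multiset_prod, Multiset.map_map]
    have hn : ∀ s : Multiset (PadicAlgCl p), ‖s.prod‖ = (s.map fun x => ‖x‖).prod := fun s =>
      map_multiset_prod (normHom : PadicAlgCl p →*₀ ℝ) s
    rw [hn, Multiset.map_map]
    congr 1
    apply Multiset.map_congr rfl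
    intro r _
    simp
  have hne : Q.roots ≠ 0 := by
    intro h0
    rw [h0, Multiset.card_zero] at hcard
    omega
  -- the closest root
  obtain ⟨b, hb, hmin⟩ : ∃ b ∈ Q.roots, ∀ r ∈ Q.roots, ‖a - b‖ ≤ ‖a - r‖ := by
    classical
    have hfin : (Q.roots.toFinset).Nonempty := by
      rw [Multiset.toFinset_nonempty]
      exact hne
    obtain ⟨b, hb, hm⟩ := Finset.exists_min_image Q.roots.toFinset (fun r => ‖a - r‖) hfin
    refine ⟨b, Multiset.mem_toFinset.mp hb, ?_⟩
    intro r hr
    exact hm r (Multiset.mem_toFinset.mpr hr)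
  refine ⟨b, (mem_roots hQ0).mp hb, ?_⟩
  have h1 : ‖a - b‖ ^ (P.natDegree - q) ≤ (Q.roots.map fun r => ‖a - r‖).prod := by
    have := pow_card_le_prod_real (Q.roots.map fun r => ‖a - r‖) ‖a - b‖ (norm_nonneg _) (by
      intro x hx
      rw [Multiset.mem_map] at hx
      obtain ⟨r, hr, rfl⟩ := hx
      exact hmin r hr)
    rw [Multiset.card_map, hcard] at this
    exact this
  have h2 := eval_hasse_bound P hP a D hD.le h q
  have h3 : ‖Q.eval a‖ ≤ D ^ (P.natDegree - q) := by
    have hpos : 0 < D ^ q := pow_pos hD q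
    have h4 : D ^ P.natDegree = D ^ (P.natDegree - q) * D ^ q := by
      rw [← pow_add, Nat.sub_add_cancel hq.le]
    rw [h4] at h2
    exact le_of_mul_le_mul_right h2 hpos
  calc ‖a - b‖ ^ (P.natDegree - q) * ‖((P.natDegree.choose q : ℕ) : PadicAlgCl p)‖
      ≤ (Q.roots.map fun r => ‖a - r‖).prod *
          ‖((P.natDegree.choose q : ℕ) : PadicAlgCl p)‖ :=
        mul_le_mul_of_nonneg_right h1 (norm_nonneg _)
    _ = ‖Q.eval a‖ := by rw [heval, mul_comm]
    _ ≤ _ := h3

/-- automorphisms are isometries -/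
theorem norm_gal (σ : PadicAlgCl p ≃ₐ[ℚ_[p]] PadicAlgCl p) (x : PadicAlgCl p) : ‖σ x‖ = ‖x‖ := by
  rw [← PadicAlgCl.spectralNorm_eq, ← PadicAlgCl.spectralNorm_eq]
  exact (spectralNorm_eq_of_equiv σ x).symm

/-- norm of natural numbers -/
theorem norm_nat (n : ℕ) : ‖(n : PadicAlgCl p)‖ = ‖(n : ℚ_[p])‖ := by
  rw [← PadicAlgCl.norm_extends p (n : ℚ_[p])]
  congr 1

theorem choose_unit (m : ℕ) (k : ℕ) :
    (p ^ k * m).choose (p ^ k) ≡ m [MOD p] := by
  induction k with
  | zero => simp [Nat.ModEq]
  | succ k ih =>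
    have h := Choose.choose_modEq_choose_mod_mul_choose_div_nat (p := p) (n := p ^ (k + 1) * m)
      (k := p ^ (k + 1))
    have hp0 : 0 < p := hp.out.pos
    have e1 : p ^ (k + 1) * m % p = 0 := by
      rw [pow_succ', mul_assoc]
      exact Nat.mul_mod_right p _
    have e2 : p ^ (k + 1) % p = 0 := by
      rw [pow_succ']
      exact Nat.mul_mod_right p _
    have e3 : p ^ (k + 1) * m / p = p ^ k * m := by
      rw [pow_succ', mul_assoc]
      exact Nat.mul_div_cancel_left _ hp0
    have e4 : p ^ (k + 1) / p = p ^ k := by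
      rw [pow_succ']
      exact Nat.mul_div_cancel_left _ hp0
    rw [e1, e2, e3, e4] at h
    simp only [Nat.choose_self, one_mul] at h
    exact h.trans ih

theorem norm_choose_unit (m k : ℕ) (hm : ¬ p ∣ m) :
    ‖(((p ^ k * m).choose (p ^ k) : ℕ) : PadicAlgCl p)‖ = 1 := by
  rw [norm_nat, Padic.norm_natCast_eq_one_iff]
  rw [Nat.Prime.coprime_iff_not_dvd hp.out]
  intro h
  apply hm
  have := choose_unit (p := p) m k
  exact (Nat.modEq_zero_iff_dvd.mp (this.symm.trans (Nat.modEq_zero_iff_dvd.mpr h)))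

theorem norm_choose_pow (k : ℕ) :
    ‖(((p ^ (k + 1)).choose (p ^ k) : ℕ) : PadicAlgCl p)‖ = (p : ℝ)⁻¹ := by
  have hf := Nat.factorization_choose_prime_pow (p := p) (n := k + 1) (k := p ^ k) hp.out
    (Nat.pow_le_pow_right hp.out.pos (Nat.le_succ k)) (pow_ne_zero _ hp.out.ne_zero)
  rw [Nat.Prime.factorization_pow hp.out, Finsupp.single_eq_same, Nat.add_sub_cancel_left] at hf
  set c := (p ^ (k + 1)).choose (p ^ k) with hc
  have hc0 : c ≠ 0 := (Nat.choose_pos (Nat.pow_le_pow_right hp.out.pos (Nat.le_succ k))).ne'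
  have h1 := Nat.ordProj_mul_ordCompl_eq_self c p
  have h2 := Nat.not_dvd_ordCompl hp.out hc0
  rw [hf] at h1 h2
  rw [norm_nat, ← h1, Nat.cast_mul, norm_mul, pow_one, Padic.norm_p]
  rw [pow_one] at h2
  have h3 : ‖((c / p : ℕ) : ℚ_[p])‖ = 1 := by
    rw [Padic.norm_natCast_eq_one_iff, Nat.Prime.coprime_iff_not_dvd hp.out]
    exact h2
  rw [h3, mul_one]

end Pool.Agent.H356R3.FM
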