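import Pool.Agent.H356R3.FM.Ax

set_option autoImplicit false

/-!
Ax's lemma: induction on the degree.
-/

namespace Pool.Agent.H356R3.FM

open Polynomial

variable {p : ℕ} [hp : Fact p.Prime]

theorem map_hasse {R S : Type} [CommRing R] [CommRing S] (f : R →+* S) (P : R[X]) (q : ℕ) :
    (hasseDeriv q P).map f = hasseDeriv q (P.map f) := by
  ext n
  rw [coeff_map, hasseDeriv_coeff, hasseDeriv_coeff, coeff_map, map_mul, map_natCast]

/-- One step of the descent. -/
theorem ax_step (F : IntermediateField ℚ_[p] (PadicAlgCl p)) (a : PadicAlgCl p) (D : ℝ)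
    (hD : 0 < D) (h : ∀ σ : PadicAlgCl p ≃ₐ[F] PadicAlgCl p, ‖σ a - a‖ ≤ D)
    (q : ℕ) (hq0 : 0 < q) (hq : q < (minpoly F a).natDegree) :
    ∃ b : PadicAlgCl p, (minpoly F b).natDegree ≤ (minpoly F a).natDegree - q ∧
      ‖a - b‖ ^ ((minpoly F a).natDegree - q) *
        ‖(((minpoly F a).natDegree.choose q : ℕ) : PadicAlgCl p)‖
          ≤ D ^ ((minpoly F a).natDegree - q) := by
  have halgQ : Algebra.IsAlgebraic ℚ_[p] (PadicAlgCl p) := inferInstance
  have halg : Algebra.IsAlgebraic F (PadicAlgCl p) := Algebra.IsAlgebraic.tower_top (K := ℚ_[p]) F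
  have hia : IsIntegral F a := (Algebra.IsAlgebraic.isAlgebraic a).isIntegral
  set P := (minpoly F a).map (algebraMap F (PadicAlgCl p)) with hP
  have hPm : P.Monic := (minpoly.monic hia).map _
  have hPd : P.natDegree = (minpoly F a).natDegree := (minpoly.monic hia).natDegree_map _
  have hroots : ∀ r ∈ P.roots, ‖a - r‖ ≤ D := by
    intro r hr
    have hr' : aeval r (minpoly F a) = 0 := by
      have := (mem_roots hPm.ne_zero).mp hr
      rw [IsRoot.def, hP, eval_map_algebraMap] at this
      exact this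
    have : Normal F (PadicAlgCl p) := inferInstance
    obtain ⟨σ, hσ⟩ := minpoly.exists_algEquiv_of_root' (K := F) (L := PadicAlgCl p)
      (x := r) (y := a) (Algebra.IsAlgebraic.isAlgebraic a) hr'
    rw [← hσ, norm_sub_rev]
    exact h σ
  obtain ⟨b, hb, hle⟩ := exists_root_hasse P hPm a D hD hroots q (by rw [hPd]; exact hq)
  rw [hPd] at hle
  refine ⟨b, ?_, hle⟩
  rw [hP, ← map_hasse, IsRoot.def, eval_map_algebraMap] at hb
  have hne : hasseDeriv q (minpoly F a) ≠ 0 := by
    intro h0
    have hc : (hasseDeriv q (minpoly F a)).coeff ((minpoly F a).natDegree - q) ≠ 0 := by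
      rw [hasseDeriv_coeff, Nat.sub_add_cancel hq.le, coeff_natDegree,
        (minpoly.monic hia).leadingCoeff, mul_one, Nat.cast_ne_zero]
      exact (Nat.choose_pos hq.le).ne'
    rw [h0, coeff_zero] at hc
    exact hc rfl
  have h1 := minpoly.degree_le_of_ne_zero F b hne hb
  exact (natDegree_le_natDegree h1).trans (natDegree_hasseDeriv_le _ _)

/-- the exponents -/
noncomputable def ex (k : ℕ) : ℝ := 2 - 2 * (1 / 2 : ℝ) ^ k

theorem ex_succ (k : ℕ) : ex (k + 1) = ex k + (1 / 2 : ℝ) ^ k := by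
  unfold ex
  rw [pow_succ]
  ring

theorem ex_mono : Monotone ex := by
  apply monotone_nat_of_le_succ
  intro k
  rw [ex_succ]
  have : (0 : ℝ) ≤ (1 / 2 : ℝ) ^ k := by positivity
  linarith

theorem ex_nonneg (k : ℕ) : 0 ≤ ex k := by
  have := ex_mono (Nat.zero_le k)
  have h0 : ex 0 = 0 := by unfold ex; norm_num
  rw [h0] at this
  exact this

theorem ex_le_two (k : ℕ) : ex k ≤ 2 := by
  unfold ex
  have : (0 : ℝ) ≤ (1 / 2 : ℝ) ^ k := by positivity
  linarith

/-- from `x ^ N * p⁻¹ ≤ D ^ N` with `N` at least `2 ^ k`. -/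
theorem root_bound (x D : ℝ) (hx : 0 ≤ x) (hD : 0 < D) (N k : ℕ) (hN : 2 ^ k ≤ N)
    (h : x ^ N * (p : ℝ)⁻¹ ≤ D ^ N) : x ≤ (p : ℝ) ^ ((1 / 2 : ℝ) ^ k) * D := by
  have hp1 : (1 : ℝ) ≤ p := by exact_mod_cast hp.out.one_lt.le
  have hp0 : (0 : ℝ) < p := by exact_mod_cast hp.out.pos
  have hN0 : N ≠ 0 := by
    have : 0 < 2 ^ k := by positivity
    omega
  have h1 : (x / D) ^ N ≤ p := by
    rw [div_pow, div_le_iff₀ (pow_pos hD N)]
    have := mul_le_mul_of_nonneg_left h hp0.le
    have e : (p : ℝ) * (x ^ N * (p : ℝ)⁻¹) = x ^ N := by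
      field_simp
    rw [e] at this
    exact this
  have h2 : x / D ≤ (p : ℝ) ^ ((1 : ℝ) / N) := by
    have h3 : ((x / D) ^ N) ^ ((1 : ℝ) / N) ≤ (p : ℝ) ^ ((1 : ℝ) / N) :=
      Real.rpow_le_rpow (by positivity) h1 (by positivity)
    have h4 : ((x / D) ^ N) ^ ((1 : ℝ) / N) = x / D := by
      rw [one_div]
      exact Real.pow_rpow_inv_natCast (by positivity) hN0
    rw [h4] at h3
    exact h3
  have h5 : (1 : ℝ) / N ≤ (1 / 2 : ℝ) ^ k := by
    rw [one_div_pow]
    apply one_div_le_one_div_of_le (by positivity)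
    exact_mod_cast hN
  have h6 : (p : ℝ) ^ ((1 : ℝ) / N) ≤ (p : ℝ) ^ ((1 / 2 : ℝ) ^ k) :=
    Real.rpow_le_rpow_of_exponent_le hp1 h5
  have h7 := h2.trans h6
  rwa [div_le_iff₀ hD] at h7

theorem ax_aux (F : IntermediateField ℚ_[p] (PadicAlgCl p)) (k : ℕ) :
    ∀ n : ℕ, ∀ a : PadicAlgCl p, (minpoly F a).natDegree = n → n < p ^ (k + 1) →
      ∀ D : ℝ, 0 < D → (∀ σ : PadicAlgCl p ≃ₐ[F] PadicAlgCl p, ‖σ a - a‖ ≤ D) →
      ∃ b : F, ‖a - (b : PadicAlgCl p)‖ ≤ (p : ℝ) ^ (ex k) * D := by
  have hp1 : (1 : ℝ) ≤ p := by exact_mod_cast hp.out.one_lt.le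
  have hp0 : (0 : ℝ) < p := by exact_mod_cast hp.out.pos
  have halgQ : Algebra.IsAlgebraic ℚ_[p] (PadicAlgCl p) := inferInstance
  have halg : Algebra.IsAlgebraic F (PadicAlgCl p) := Algebra.IsAlgebraic.tower_top (K := ℚ_[p]) F
  induction k using Nat.strong_induction_on with
  | _ k ihk =>
    intro n
    induction n using Nat.strong_induction_on with
    | _ n ihn =>
      intro a han hn D hD h
      have hia : IsIntegral F a := (Algebra.IsAlgebraic.isAlgebraic a).isIntegral
      have hn0 : 0 < n := by rw [← han]; exact minpoly.natDegree_pos hia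
      -- movement of a closer element
      have hmove : ∀ b : PadicAlgCl p, ∀ D' : ℝ, D ≤ D' → ‖a - b‖ ≤ D' →
          ∀ σ : PadicAlgCl p ≃ₐ[F] PadicAlgCl p, ‖σ b - b‖ ≤ D' := by
        intro b D' hDD hb σ
        have e : σ b - b = σ (b - a) + ((σ a - a) + (a - b)) := by
          rw [map_sub]; ring
        have hiso : ‖σ (b - a)‖ = ‖b - a‖ := norm_gal (σ.restrictScalars ℚ_[p]) (b - a)
        rw [e]
        refine (IsUltrametricDist.norm_add_le_max _ _).trans (max_le ?_ ?_)
        · rw [hiso, norm_sub_rev]; exact hb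
        · refine (IsUltrametricDist.norm_add_le_max _ _).trans (max_le ?_ hb)
          exact (h σ).trans hDD
      by_cases hn1 : n = 1
      · -- degree one
        have hmem : a ∈ (algebraMap F (PadicAlgCl p)).range := by
          rw [hn1] at han
          exact minpoly.natDegree_eq_one_iff.mp han
        obtain ⟨b, hb⟩ := hmem
        refine ⟨b, ?_⟩
        have : ((b : F) : PadicAlgCl p) = a := hb
        rw [this, sub_self, norm_zero]
        positivity
      -- decompose n = p ^ j * m
      obtain ⟨j, m, hm, hnm⟩ := Nat.exists_eq_pow_mul_and_not_dvd hn0.ne' p hp.out.ne_one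
      by_cases hm1 : m = 1
      · -- n is a power of p
        subst hm1
        rw [mul_one] at hnm
        have hj : j ≠ 0 := by
          intro h0
          rw [h0, pow_zero] at hnm
          exact hn1 hnm
        obtain ⟨i, rfl⟩ := Nat.exists_eq_succ_of_ne_zero hj
        have hlt : p ^ i < n := by
          rw [hnm]
          exact Nat.pow_lt_pow_right hp.out.one_lt (Nat.lt_succ_self i)
        have hik : i < k := by
          have : p ^ (i + 1) < p ^ (k + 1) := by
            rw [← Nat.succ_eq_add_one i, ← hnm]; exact hn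
          have := (Nat.pow_lt_pow_iff_right hp.out.one_lt).mp this
          omega
        obtain ⟨b, hb1, hb2⟩ := ax_step F a D hD h (p ^ i) (pow_pos hp.out.pos i)
          (by rw [han]; exact hlt)
        rw [han] at hb1 hb2
        have hcho : ‖((n.choose (p ^ i) : ℕ) : PadicAlgCl p)‖ = (p : ℝ)⁻¹ := by
          rw [hnm]; exact norm_choose_pow i
        rw [hcho] at hb2
        have hN : 2 ^ i ≤ n - p ^ i := by
          rw [hnm, Nat.succ_eq_add_one, pow_succ]
          have h2 : 2 ≤ p := hp.out.two_le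
          have h3 : 2 ^ i ≤ p ^ i := Nat.pow_le_pow_left h2 i
          have h4 : p ^ i * 2 ≤ p ^ i * p := Nat.mul_le_mul_left _ h2
          omega
        have hab := root_bound (p := p) ‖a - b‖ D (norm_nonneg _) hD _ i hN hb2
        set D' := (p : ℝ) ^ ((1 / 2 : ℝ) ^ i) * D with hD'
        have hfac : (1 : ℝ) ≤ (p : ℝ) ^ ((1 / 2 : ℝ) ^ i) :=
          Real.one_le_rpow hp1 (by positivity)
        have hDD : D ≤ D' := by
          rw [hD']
          nlinarith
        have hD'0 : 0 < D' := lt_of_lt_of_le hD hDD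
        have hnb : (minpoly F b).natDegree < p ^ (i + 1) := by
          have h5 : n - p ^ i < n := by
            have : 0 < p ^ i := pow_pos hp.out.pos i
            omega
          have h6 : n = p ^ (i + 1) := hnm
          omega
        obtain ⟨c, hc⟩ := ihk i hik _ b rfl hnb D' hD'0 (hmove b D' hDD hab)
        refine ⟨c, ?_⟩
        have e : a - (c : PadicAlgCl p) = (a - b) + (b - (c : PadicAlgCl p)) := by ring
        rw [e]
        have hfin : (p : ℝ) ^ (ex i) * D' ≤ (p : ℝ) ^ (ex k) * D := by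
          rw [hD', ← mul_assoc, ← Real.rpow_add hp0, ← ex_succ]
          apply mul_le_mul_of_nonneg_right _ hD.le
          apply Real.rpow_le_rpow_of_exponent_le hp1
          exact ex_mono hik
        refine (IsUltrametricDist.norm_add_le_max _ _).trans (max_le ?_ (hc.trans hfin))
        refine le_trans hab (le_trans ?_ hfin)
        have : (1 : ℝ) ≤ (p : ℝ) ^ (ex i) := Real.one_le_rpow hp1 (ex_nonneg i)
        nlinarith
      · -- n is not a power of p
        have hm2 : 2 ≤ m := by
          rcases Nat.lt_or_ge m 2 with h2 | h2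
          · interval_cases m
            · exact absurd (dvd_zero p) hm
            · exact absurd rfl hm1
          · exact h2
        have hpj : 0 < p ^ j := pow_pos hp.out.pos j
        have hlt : p ^ j < n := by
          rw [hnm]
          nlinarith
        obtain ⟨b, hb1, hb2⟩ := ax_step F a D hD h (p ^ j) hpj (by rw [han]; exact hlt)
        rw [han] at hb1 hb2
        have hcho : ‖((n.choose (p ^ j) : ℕ) : PadicAlgCl p)‖ = 1 := by
          rw [hnm]; exact norm_choose_unit m j hm
        rw [hcho, mul_one] at hb2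
        have hab : ‖a - b‖ ≤ D := by
          have hne : n - p ^ j ≠ 0 := by omega
          exact le_of_pow_le_pow_left₀ hne hD.le hb2
        have hbn : (minpoly F b).natDegree < n := by omega
        obtain ⟨c, hc⟩ := ihn _ hbn b rfl (hbn.trans hn) D hD (hmove b D le_rfl hab)
        refine ⟨c, ?_⟩
        have e : a - (c : PadicAlgCl p) = (a - b) + (b - (c : PadicAlgCl p)) := by ring
        rw [e]
        refine (IsUltrametricDist.norm_add_le_max _ _).trans (max_le ?_ hc)
        refine le_trans hab ?_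
        have : (1 : ℝ) ≤ (p : ℝ) ^ (ex k) := Real.one_le_rpow hp1 (ex_nonneg k)
        nlinarith

/-- **Ax's lemma** (with the constant `p ^ 2`). -/
theorem ax (F : IntermediateField ℚ_[p] (PadicAlgCl p)) (a : PadicAlgCl p) (D : ℝ) (hD : 0 < D)
    (h : ∀ σ : PadicAlgCl p ≃ₐ[F] PadicAlgCl p, ‖σ a - a‖ ≤ D) :
    ∃ b : F, ‖a - (b : PadicAlgCl p)‖ ≤ (p : ℝ) ^ 2 * D := by
  have hp1 : (1 : ℝ) ≤ p := by exact_mod_cast hp.out.one_lt.le
  obtain ⟨b, hb⟩ := ax_aux F (minpoly F a).natDegree _ a rfl (by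
    calc (minpoly F a).natDegree < p ^ (minpoly F a).natDegree :=
          Nat.lt_pow_self hp.out.one_lt
      _ ≤ p ^ ((minpoly F a).natDegree + 1) :=
          Nat.pow_le_pow_right hp.out.pos (Nat.le_succ _)) D hD h
  refine ⟨b, hb.trans ?_⟩
  apply mul_le_mul_of_nonneg_right _ hD.le
  have := Real.rpow_le_rpow_of_exponent_le hp1 (ex_le_two (minpoly F a).natDegree)
  refine this.trans (le_of_eq ?_)
  norm_num

end Pool.Agent.H356R3.FM
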