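import Pool.Agent.H356R3.FM.Tate
import Mathlib

set_option autoImplicit false

/-!
The ring of integers of `ℂ_[p]`: completeness, Galois action, roots.
-/

namespace Pool.Agent.H356R3.FM

open scoped NNReal

/-- the ring of integers of `ℂ_[p]` -/
abbrev OC (p : ℕ) [Fact p.Prime] : Type := PadicComplexInt p

variable (p : ℕ) [hp : Fact p.Prime]

theorem v_eq (x : PadicComplex p) : ((Valued.v x : ℝ≥0) : ℝ) = ‖x‖ := by
  rw [PadicComplex.norm_eq_norm, Valuation.norm_def, PadicComplex.RankOne.hom_eq_embedding]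
  rw [Valuation.embedding_restrict]

theorem mem_OC (x : PadicComplex p) : x ∈ PadicComplexInt p ↔ ‖x‖ ≤ 1 := by
  have h : x ∈ PadicComplexInt p ↔ (Valued.v x : ℝ≥0) ≤ 1 := Iff.rfl
  rw [h, ← v_eq]
  exact_mod_cast Iff.rfl

theorem norm_OC_le (x : OC p) : ‖(x : PadicComplex p)‖ ≤ 1 := (mem_OC p _).mp x.2

theorem norm_pC : ‖(p : PadicComplex p)‖ = (p : ℝ)⁻¹ := by
  rw [← v_eq, PadicComplex.valuation_p]
  simp

theorem OC_dvd (x y : OC p) : y ∣ x ↔ ‖(x : PadicComplex p)‖ ≤ ‖(y : PadicComplex p)‖ := by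
  have h := (PadicComplexInt.integers p).le_iff_dvd (x := x) (y := y)
  rw [← h, ← v_eq, ← v_eq]
  exact_mod_cast Iff.rfl

theorem pOC_ne_zero : (p : OC p) ≠ 0 := by
  intro h
  have h1 : ((p : OC p) : PadicComplex p) = 0 := by rw [h]; rfl
  have h2 : ‖((p : OC p) : PadicComplex p)‖ = (p : ℝ)⁻¹ := norm_pC p
  rw [h1, norm_zero] at h2
  have : (0 : ℝ) < (p : ℝ)⁻¹ := by
    have : (0 : ℝ) < p := by exact_mod_cast hp.out.pos
    positivity
  linarith

instance fact_not_unit : Fact (¬ IsUnit (p : OC p)) := ⟨by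
  intro h
  have h1 : (p : OC p) ∣ 1 := h.dvd
  rw [OC_dvd] at h1
  have h2 : ‖((p : OC p) : PadicComplex p)‖ = (p : ℝ)⁻¹ := norm_pC p
  rw [h2] at h1
  have h3 : ‖((1 : OC p) : PadicComplex p)‖ = 1 := norm_one
  rw [h3] at h1
  have h4 : (1 : ℝ) < p := by exact_mod_cast hp.out.one_lt
  have h5 : (p : ℝ)⁻¹ < 1 := inv_lt_one_of_one_lt₀ h4
  linarith⟩

theorem mem_span_pow_p (n : ℕ) (x : OC p) :
    x ∈ (Ideal.span {(p : OC p)}) ^ n ↔ ‖(x : PadicComplex p)‖ ≤ ((p : ℝ)⁻¹) ^ n := by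
  rw [Ideal.span_singleton_pow, Ideal.mem_span_singleton, OC_dvd]
  have h1 : (((p : OC p) ^ n : OC p) : PadicComplex p) = (p : PadicComplex p) ^ n := by
    push_cast
    rfl
  rw [h1, norm_pow, norm_pC]

instance complete_OC : IsAdicComplete (Ideal.span {(p : OC p)}) (OC p) where
  haus' := by
    intro x hx
    have h1 : ∀ n : ℕ, ‖(x : PadicComplex p)‖ ≤ ((p : ℝ)⁻¹) ^ n := by
      intro n
      have := hx n
      rw [SModEq.zero, smul_eq_mul, Ideal.mul_top, mem_span_pow_p] at this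
      exact this
    have h2 : Filter.Tendsto (fun n : ℕ => ((p : ℝ)⁻¹) ^ n) Filter.atTop (nhds 0) := by
      apply tendsto_pow_atTop_nhds_zero_of_lt_one
      · positivity
      · apply inv_lt_one_of_one_lt₀
        exact_mod_cast hp.out.one_lt
    have h3 : ‖(x : PadicComplex p)‖ ≤ 0 := ge_of_tendsto' h2 h1
    apply Subtype.ext
    exact norm_le_zero_iff.mp h3
  prec' := by
    intro f hf
    have hf' : ∀ {m n : ℕ}, m ≤ n →
        ‖((f m : OC p) : PadicComplex p) - (f n : OC p)‖ ≤ ((p : ℝ)⁻¹) ^ m := by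
      intro m n hmn
      have := hf hmn
      rw [smul_eq_mul, Ideal.mul_top, SModEq.sub_mem, mem_span_pow_p] at this
      exact this
    have hr0 : (0 : ℝ) ≤ (p : ℝ)⁻¹ := by positivity
    have hr1 : (p : ℝ)⁻¹ < 1 := by
      apply inv_lt_one_of_one_lt₀
      exact_mod_cast hp.out.one_lt
    have hc : CauchySeq (fun n => ((f n : OC p) : PadicComplex p)) := by
      rw [Metric.cauchySeq_iff']
      intro ε hε
      obtain ⟨N, hN⟩ := exists_pow_lt_of_lt_one hε hr1
      refine ⟨N, fun n hn => ?_⟩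
      rw [dist_comm, dist_eq_norm]
      exact lt_of_le_of_lt (hf' hn) hN
    obtain ⟨L, hL⟩ := cauchySeq_tendsto_of_complete hc
    have hLn : ∀ m : ℕ, ‖((f m : OC p) : PadicComplex p) - L‖ ≤ ((p : ℝ)⁻¹) ^ m := by
      intro m
      have h1 : Filter.Tendsto (fun n => ‖((f m : OC p) : PadicComplex p) - (f n : OC p)‖)
          Filter.atTop (nhds ‖((f m : OC p) : PadicComplex p) - L‖) :=
        (tendsto_const_nhds.sub hL).norm
      apply le_of_tendsto h1
      filter_upwards [Filter.eventually_ge_atTop m] with n hn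
      exact hf' hn
    have hL1 : L ∈ PadicComplexInt p := by
      rw [mem_OC]
      have h1 := hLn 0
      rw [pow_zero] at h1
      have e : L = ((f 0 : OC p) : PadicComplex p) - (((f 0 : OC p) : PadicComplex p) - L) := by
        ring
      rw [e, sub_eq_add_neg]
      refine (IsUltrametricDist.norm_add_le_max _ _).trans (max_le (norm_OC_le p _) ?_)
      rw [norm_neg]
      exact h1
    refine ⟨⟨L, hL1⟩, fun n => ?_⟩
    rw [smul_eq_mul, Ideal.mul_top, SModEq.sub_mem, mem_span_pow_p]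
    exact hLn n

/-- Galois action on the ring of integers -/
noncomputable def galO (σ : PadicAlgCl p ≃ₐ[ℚ_[p]] PadicAlgCl p) : OC p →+* OC p :=
  ((galC p σ).comp (PadicComplexInt p).subtype).codRestrict (PadicComplexInt p).toSubring (by
    intro x
    show galC p σ x ∈ PadicComplexInt p
    rw [mem_OC, norm_galC]
    exact norm_OC_le p x)

theorem galO_coe (σ : PadicAlgCl p ≃ₐ[ℚ_[p]] PadicAlgCl p) (x : OC p) :
    ((galO p σ x : OC p) : PadicComplex p) = galC p σ x := rfl

/-- `p`-th roots in the ring of integers -/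
theorem exists_root_p (x : OC p) : ∃ y : OC p, y ^ p = x := by
  obtain ⟨z, hz⟩ := IsAlgClosed.exists_pow_nat_eq (x : PadicComplex p) hp.out.pos
  have hz1 : ‖z‖ ≤ 1 := by
    have h1 : ‖z‖ ^ p ≤ 1 := by rw [← norm_pow, hz]; exact norm_OC_le p x
    exact (pow_le_one_iff_of_nonneg (norm_nonneg _) hp.out.ne_zero).mp h1
  refine ⟨⟨z, (mem_OC p z).mpr hz1⟩, ?_⟩
  apply Subtype.ext
  exact hz

/-- a compatible system of `p`-power roots -/
theorem exists_root_system (x : OC p) : ∃ t : Perfection (OC p) p,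
    Perfection.coeffMonoidHom (OC p) p 0 t = x := by
  choose r hr using exists_root_p p
  refine ⟨⟨fun n => Nat.rec x (fun _ y => r y) n, ?_⟩, rfl⟩
  intro n
  exact hr _

end Pool.Agent.H356R3.FM
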