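import Pool.Agent.H356R3.FM.BdR1

set_option autoImplicit false

/-!
The tilt, `A_inf`, and the kernel of Fontaine's `θ`.
-/

namespace Pool.Agent.H356R3.FM

open WittVector

/-- the tilt of the ring of integers of `ℂ_[p]` -/
abbrev Flat (p : ℕ) [Fact p.Prime] : Type := PreTilt (OC p) p

/-- `A_inf` -/
abbrev Ainf (p : ℕ) [Fact p.Prime] : Type := WittVector p (Flat p)

variable (p : ℕ) [hp : Fact p.Prime]

/-- Elements of the tilt as compatible systems of `p`-power roots. -/
noncomputable def flatEquiv : Perfection (OC p) p ≃* Flat p :=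
  Perfection.quotientMulEquiv p (Ideal.span {(p : OC p)})

theorem flat_coeff (t : Perfection (OC p) p) (n : ℕ) :
    PreTilt.coeff n (flatEquiv p t) =
      Ideal.Quotient.mk (Ideal.span {(p : OC p)}) (Perfection.coeffMonoidHom (OC p) p n t) := rfl

theorem flat_untilt (t : Perfection (OC p) p) :
    PreTilt.untilt (flatEquiv p t) = Perfection.coeffMonoidHom (OC p) p 0 t := by
  have h := Perfection.coeff_zero_symm_quotientMulEquiv (p := p)
    (I := Ideal.span {(p : OC p)}) (flatEquiv p t)
  have h2 : (Perfection.quotientMulEquiv p (Ideal.span {(p : OC p)})).symm (flatEquiv p t) = t :=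
    (Perfection.quotientMulEquiv p (Ideal.span {(p : OC p)})).symm_apply_apply t
  rw [h2] at h
  exact h.symm

theorem exists_untilt (x : OC p) : ∃ a : Flat p, PreTilt.untilt a = x := by
  obtain ⟨t, ht⟩ := exists_root_system p x
  exact ⟨flatEquiv p t, by rw [flat_untilt, ht]⟩

theorem norm_coeff_pow (t : Perfection (OC p) p) (n : ℕ) :
    ‖((Perfection.coeffMonoidHom (OC p) p n t : OC p) : PadicComplex p)‖ ^ (p ^ n) =
      ‖((Perfection.coeffMonoidHom (OC p) p 0 t : OC p) : PadicComplex p)‖ := by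
  induction n with
  | zero => rw [pow_zero, pow_one]
  | succ n ih =>
    rw [← ih, pow_succ', pow_mul]
    congr 1
    have h : (Perfection.coeffMonoidHom (OC p) p (n + 1) t) ^ p =
        Perfection.coeffMonoidHom (OC p) p n t := t.2 n
    rw [← h, ← norm_pow]
    congr 1

/-- If `a` reduces to `0` modulo `p` and the untilt of `b` is `p`, then `b` divides `a`. -/
theorem flat_dvd (a b : Flat p) (ha : PreTilt.coeff 0 a = 0) (hb : PreTilt.untilt b = (p : OC p)) :
    b ∣ a := by
  obtain ⟨α, rfl⟩ := (flatEquiv p).surjective a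
  obtain ⟨β, rfl⟩ := (flatEquiv p).surjective b
  rw [flat_untilt] at hb
  rw [flat_coeff, Ideal.Quotient.eq_zero_iff_mem] at ha
  have ha' : ‖((Perfection.coeffMonoidHom (OC p) p 0 α : OC p) : PadicComplex p)‖ ≤ (p : ℝ)⁻¹ := by
    have := (mem_span_pow_p p 1 _).mp (by rw [pow_one]; exact ha)
    rwa [pow_one] at this
  have hbn : ‖((Perfection.coeffMonoidHom (OC p) p 0 β : OC p) : PadicComplex p)‖ =
      (p : ℝ)⁻¹ := by rw [hb]; exact norm_pC p
  have hdiv : ∀ n, (Perfection.coeffMonoidHom (OC p) p n β) ∣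
      (Perfection.coeffMonoidHom (OC p) p n α) := by
    intro n
    rw [OC_dvd]
    have h1 := norm_coeff_pow p α n
    have h2 := norm_coeff_pow p β n
    rw [← h1] at ha'
    rw [hbn] at h2
    rw [← h2] at ha'
    exact le_of_pow_le_pow_left₀ (pow_pos hp.out.pos n).ne' (norm_nonneg _) ha'
  choose γ hγ using hdiv
  have hβ0 : ∀ n, Perfection.coeffMonoidHom (OC p) p n β ≠ 0 := by
    intro n h0
    have h2 := norm_coeff_pow p β n
    rw [h0, hbn] at h2
    have h3 : ‖((0 : OC p) : PadicComplex p)‖ = 0 := norm_zero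
    rw [h3, zero_pow (pow_pos hp.out.pos n).ne'] at h2
    have : (0 : ℝ) < (p : ℝ)⁻¹ := by
      have : (0 : ℝ) < p := by exact_mod_cast hp.out.pos
      positivity
    linarith
  have hγp : ∀ n, γ (n + 1) ^ p = γ n := by
    intro n
    have h1 : (Perfection.coeffMonoidHom (OC p) p (n + 1) α) ^ p =
        Perfection.coeffMonoidHom (OC p) p n α := α.2 n
    have h2 : (Perfection.coeffMonoidHom (OC p) p (n + 1) β) ^ p =
        Perfection.coeffMonoidHom (OC p) p n β := β.2 n
    rw [hγ (n + 1), mul_pow, h2, hγ n] at h1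
    exact mul_left_cancel₀ (hβ0 n) h1
  let γ' : Perfection (OC p) p := ⟨γ, hγp⟩
  have hαβ : α = β * γ' := by
    apply Perfection.extMonoid
    intro n
    rw [map_mul]
    exact hγ n
  refine ⟨flatEquiv p γ', ?_⟩
  have h1 := (flatEquiv p).map_mul β γ'
  rw [← hαβ] at h1
  exact h1

instance isDomain_flat : IsDomain (Flat p) :=
  PreTilt.isDomain (PadicComplex p) Valued.v (OC p) (PadicComplexInt.integers p) p

theorem theta_teich (a : Flat p) : fontaineTheta (OC p) p (teichmuller p a) = PreTilt.untilt a :=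
  fontaineTheta_teichmuller a

theorem theta_mod (x : Ainf p) (hx : fontaineTheta (OC p) p x = 0) :
    PreTilt.coeff 0 (x.coeff 0) = 0 := by
  have := mk_fontaineTheta (R := OC p) (p := p) x
  rw [hx, map_zero] at this
  exact this.symm

/-- One step of the approximation. -/
theorem ker_step (b : Flat p) (hb : PreTilt.untilt b = (p : OC p)) (x : Ainf p)
    (hx : fontaineTheta (OC p) p x = 0) :
    ∃ w x' : Ainf p, x = (teichmuller p b - (p : Ainf p)) * w + (p : Ainf p) * x' ∧
      fontaineTheta (OC p) p x' = 0 := by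
  obtain ⟨y, hy⟩ := flat_dvd p (x.coeff 0) b (theta_mod p x hx) hb
  have h1 : (x - teichmuller p (b * y)).coeff 0 = 0 := by
    have h2 : (constantCoeff (x - teichmuller p (b * y)) : Flat p) = 0 := by
      rw [map_sub]
      show x.coeff 0 - (teichmuller p (b * y)).coeff 0 = 0
      rw [teichmuller_coeff_zero, ← hy, sub_self]
    exact h2
  rw [← mem_span_p_iff_coeff_zero_eq_zero, Ideal.mem_span_singleton] at h1
  obtain ⟨z, hz⟩ := h1
  have hxe : x = (teichmuller p b - (p : Ainf p)) * teichmuller p y +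
      (p : Ainf p) * (teichmuller p y + z) := by
    have h3 : x = teichmuller p (b * y) + (p : Ainf p) * z := by rw [← hz]; ring
    rw [h3, map_mul]
    ring
  refine ⟨teichmuller p y, teichmuller p y + z, hxe, ?_⟩
  have h4 := congrArg (fontaineTheta (OC p) p) hxe
  rw [hx, map_add, map_mul, map_sub, map_mul, map_natCast, theta_teich, hb, sub_self, zero_mul,
    zero_add] at h4
  rcases mul_eq_zero.mp h4.symm with h5 | h5
  · exact absurd h5 (pOC_ne_zero p)
  · exact h5

/-- The kernel of `θ` is generated by `[b] - p` whenever the untilt of `b` is `p`. -/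
theorem ker_theta (b : Flat p) (hb : PreTilt.untilt b = (p : OC p)) (x : Ainf p)
    (hx : fontaineTheta (OC p) p x = 0) : (teichmuller p b - (p : Ainf p)) ∣ x := by
  set ξ : Ainf p := teichmuller p b - (p : Ainf p) with hξ
  have hstep : ∀ x : {x : Ainf p // fontaineTheta (OC p) p x = 0},
      ∃ w : Ainf p, ∃ x' : {x : Ainf p // fontaineTheta (OC p) p x = 0},
        (x : Ainf p) = ξ * w + (p : Ainf p) * x' := by
    intro x
    obtain ⟨w, x', h1, h2⟩ := ker_step p b hb x.1 x.2
    exact ⟨w, ⟨x', h2⟩, h1⟩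
  choose W N hWN using hstep
  let X : ℕ → {x : Ainf p // fontaineTheta (OC p) p x = 0} := fun n => N^[n] ⟨x, hx⟩
  have hX0 : (X 0).1 = x := rfl
  have hXs : ∀ n, X (n + 1) = N (X n) := fun n => Function.iterate_succ_apply' N n _
  let s : ℕ → Ainf p := fun n => ∑ i ∈ Finset.range n, (p : Ainf p) ^ i * W (X i)
  have hs : ∀ n, x = ξ * s n + (p : Ainf p) ^ n * (X n : Ainf p) := by
    intro n
    induction n with
    | zero => simp [s, hX0]
    | succ n ih =>
      have h1 : s (n + 1) = s n + (p : Ainf p) ^ n * W (X n) := Finset.sum_range_succ _ n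
      conv_lhs => rw [ih, hWN (X n)]
      rw [h1, hXs]
      ring
  have hcomplete : IsAdicComplete (Ideal.span {(p : Ainf p)}) (Ainf p) := inferInstance
  have hcauchy : ∀ {m n : ℕ}, m ≤ n →
      s m ≡ s n [SMOD ((Ideal.span {(p : Ainf p)}) ^ m • ⊤ : Submodule (Ainf p) (Ainf p))] := by
    intro m n hmn
    rw [smul_eq_mul, Ideal.mul_top, SModEq.sub_mem, Ideal.span_singleton_pow,
      Ideal.mem_span_singleton]
    have h1 : s n - s m = ∑ i ∈ Finset.Ico m n, (p : Ainf p) ^ i * W (X i) := by
      rw [Finset.sum_Ico_eq_sub _ hmn]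
    have h2 : (p : Ainf p) ^ m ∣ s n - s m := by
      rw [h1]
      apply Finset.dvd_sum
      intro i hi
      rw [Finset.mem_Ico] at hi
      exact Dvd.dvd.mul_right (pow_dvd_pow _ hi.1) _
    have h3 : s m - s n = -(s n - s m) := by ring
    rw [h3]
    exact (dvd_neg).mpr h2
  obtain ⟨L, hL⟩ := hcomplete.toIsPrecomplete.prec hcauchy
  refine ⟨L, ?_⟩
  have hH : IsHausdorff (Ideal.span {(p : Ainf p)}) (Ainf p) := hcomplete.toIsHausdorff
  have h0 : x - ξ * L = 0 := by
    apply hH.haus
    intro n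
    rw [smul_eq_mul, Ideal.mul_top, SModEq.zero, Ideal.span_singleton_pow,
      Ideal.mem_span_singleton]
    have h1 := hL n
    rw [smul_eq_mul, Ideal.mul_top, SModEq.sub_mem, Ideal.span_singleton_pow,
      Ideal.mem_span_singleton] at h1
    have h2 : x - ξ * L = ξ * (s n - L) + (p : Ainf p) ^ n * (X n : Ainf p) := by
      conv_lhs => rw [hs n]
      ring
    rw [h2]
    exact dvd_add (Dvd.dvd.mul_left h1 _) (dvd_mul_right _ _)
  exact sub_eq_zero.mp h0

theorem theta_surjective : Function.Surjective (fontaineTheta (OC p) p) := by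
  apply surjective_fontaineTheta
  intro y
  obtain ⟨x, rfl⟩ := Ideal.Quotient.mk_surjective y
  obtain ⟨z, hz⟩ := exists_root_p p x
  refine ⟨Ideal.Quotient.mk _ z, ?_⟩
  rw [frobenius_def, ← map_pow, hz]

end Pool.Agent.H356R3.FM
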