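import Pool.Agent.H356R3.FM.BdR2

set_option autoImplicit false

/-!
`A_inf[1/p]` and its map to `ℂ_[p]`.
-/

namespace Pool.Agent.H356R3.FM

open WittVector

/-- `A_inf[1/p]` -/
abbrev Ap (p : ℕ) [Fact p.Prime] : Type := Localization.Away (p : Ainf p)

variable (p : ℕ) [hp : Fact p.Prime]

/-- the kernel of `θ[1/p]` -/
noncomputable abbrev IdR : Ideal (Ap p) := RingHom.ker (fontaineThetaInvertP (OC p) p)

instance isDomain_Ainf : IsDomain (Ainf p) := inferInstance

theorem pAinf_ne_zero : (p : Ainf p) ≠ 0 := by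
  intro h
  have h1 := congrArg (fontaineTheta (OC p) p) h
  rw [map_natCast, map_zero] at h1
  exact pOC_ne_zero p h1

theorem powers_le : Submonoid.powers (p : Ainf p) ≤ nonZeroDivisors (Ainf p) := by
  rw [Submonoid.powers_le]
  exact mem_nonZeroDivisors_of_ne_zero (pAinf_ne_zero p)

instance isDomain_Ap : IsDomain (Ap p) :=
  IsLocalization.isDomain_localization (powers_le p)

theorem algMap_injective : Function.Injective (algebraMap (Ainf p) (Ap p)) :=
  IsLocalization.injective (Ap p) (powers_le p)

/-- `O_C[1/p] → ℂ_[p]` -/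
noncomputable def toC : Localization.Away (p : OC p) →+* PadicComplex p :=
  IsLocalization.Away.lift (S := Localization.Away (p : OC p)) (p : OC p)
    (g := (PadicComplexInt p).subtype) (by
      have h1 : (PadicComplexInt p).subtype (p : OC p) = (p : PadicComplex p) := by
        rw [map_natCast]
      rw [h1]
      apply IsUnit.mk0
      rw [Nat.cast_ne_zero]
      exact hp.out.ne_zero)

/-- `θ` on `A_inf[1/p]` with values in `ℂ_[p]` -/
noncomputable def ThC : Ap p →+* PadicComplex p := (toC p).comp (fontaineThetaInvertP (OC p) p)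

theorem ThC_alg (x : Ainf p) :
    ThC p (algebraMap _ _ x) = ((fontaineTheta (OC p) p x : OC p) : PadicComplex p) := by
  unfold ThC
  rw [RingHom.comp_apply]
  have h1 : fontaineThetaInvertP (OC p) p (algebraMap (Ainf p) (Ap p) x) =
      algebraMap (OC p) (Localization.Away (p : OC p)) (fontaineTheta (OC p) p x) := by
    unfold fontaineThetaInvertP
    exact IsLocalization.Away.lift_eq (S := Ap p) (p : Ainf p) _ x
  rw [h1]
  unfold toC
  exact IsLocalization.Away.lift_eq (S := Localization.Away (p : OC p)) (p : OC p) _ _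

/-- the element `[b] - p` in `A_inf[1/p]` -/
noncomputable def xi (b : Flat p) : Ap p := algebraMap _ _ (teichmuller p b - (p : Ainf p))

theorem thetaP_xi (b : Flat p) (hb : PreTilt.untilt b = (p : OC p)) :
    fontaineThetaInvertP (OC p) p (xi p b) = 0 := by
  have h1 : fontaineThetaInvertP (OC p) p (xi p b) =
      algebraMap (OC p) (Localization.Away (p : OC p))
        (fontaineTheta (OC p) p (teichmuller p b - (p : Ainf p))) := by
    unfold fontaineThetaInvertP xi
    exact IsLocalization.Away.lift_eq (S := Ap p) (p : Ainf p) _ _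
  rw [h1, map_sub, theta_teich, hb, map_natCast, sub_self, map_zero]

theorem xi_dvd (b : Flat p) (hb : PreTilt.untilt b = (p : OC p)) (x : Ap p) (hx : ThC p x = 0) :
    xi p b ∣ x := by
  obtain ⟨n, y, hy⟩ := IsLocalization.Away.surj (p : Ainf p) x
  have h1 : ThC p (algebraMap _ _ y) = 0 := by rw [← hy, map_mul, hx, zero_mul]
  rw [ThC_alg] at h1
  have h2 : fontaineTheta (OC p) p y = 0 := Subtype.ext h1
  obtain ⟨w, hw⟩ := ker_theta p b hb y h2
  have hu : IsUnit (algebraMap (Ainf p) (Ap p) (p : Ainf p)) :=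
    IsLocalization.Away.algebraMap_isUnit (p : Ainf p)
  have hun := hu.pow n
  have h3 : xi p b ∣ x * (algebraMap (Ainf p) (Ap p) (p : Ainf p)) ^ n := by
    rw [hy, hw, map_mul]
    exact dvd_mul_right _ _
  exact (hun.dvd_mul_right).mp h3

theorem ThC_xi (b : Flat p) (hb : PreTilt.untilt b = (p : OC p)) : ThC p (xi p b) = 0 := by
  unfold ThC
  rw [RingHom.comp_apply, thetaP_xi p b hb, map_zero]

theorem mem_IdR (x : Ap p) : x ∈ IdR p ↔ ThC p x = 0 := by
  constructor
  · intro h
    unfold ThC
    rw [RingHom.comp_apply, (RingHom.mem_ker).mp h, map_zero]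
  · intro h
    obtain ⟨b, hb⟩ := exists_untilt p (p : OC p)
    obtain ⟨c, rfl⟩ := xi_dvd p b hb x h
    rw [RingHom.mem_ker, map_mul, thetaP_xi p b hb, zero_mul]

theorem IdR_eq (b : Flat p) (hb : PreTilt.untilt b = (p : OC p)) :
    IdR p = Ideal.span {xi p b} := by
  apply le_antisymm
  · intro x hx
    rw [Ideal.mem_span_singleton]
    exact xi_dvd p b hb x ((mem_IdR p x).mp hx)
  · rw [Ideal.span_le, Set.singleton_subset_iff]
    exact (mem_IdR p _).mpr (ThC_xi p b hb)

theorem xi_ne_zero (b : Flat p) : xi p b ≠ 0 := by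
  intro h
  have h1 : teichmuller p b - (p : Ainf p) = 0 := by
    apply algMap_injective p
    rw [map_zero]
    exact h
  have h2 : b = 0 := by
    have h4 : (constantCoeff (teichmuller p b - (p : Ainf p)) : Flat p) = 0 := by
      rw [h1, map_zero]
    rw [map_sub, map_natCast, CharP.cast_eq_zero, sub_zero] at h4
    have h5 : (teichmuller p b).coeff 0 = 0 := h4
    rwa [teichmuller_coeff_zero] at h5
  rw [h2, teichmuller_zero, zero_sub, neg_eq_zero] at h1
  exact pAinf_ne_zero p h1

end Pool.Agent.H356R3.FM
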