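import Pool.Agent.H356R3.FM.BdR3

set_option autoImplicit false

/-!
Functorial Galois action on the tilt, `A_inf`, `A_inf[1/p]`.
-/

namespace Pool.Agent.H356R3.FM

open WittVector

variable (p : ℕ) [hp : Fact p.Prime]

/-- Galois action on `O_C / p` -/
noncomputable def galMod (σ : PadicAlgCl p ≃ₐ[ℚ_[p]] PadicAlgCl p) :
    ModP (OC p) p →+* ModP (OC p) p :=
  Ideal.quotientMap (Ideal.span {(p : OC p)}) (galO p σ) (by
    rw [Ideal.span_le, Set.singleton_subset_iff]
    show galO p σ (p : OC p) ∈ Ideal.span {(p : OC p)}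
    rw [map_natCast]
    exact Ideal.mem_span_singleton_self _)

/-- Galois action on the tilt -/
noncomputable def galFlat (σ : PadicAlgCl p ≃ₐ[ℚ_[p]] PadicAlgCl p) : Flat p →+* Flat p :=
  Perfection.map p (galMod p σ)

/-- Galois action on `A_inf` -/
noncomputable def galA (σ : PadicAlgCl p ≃ₐ[ℚ_[p]] PadicAlgCl p) : Ainf p →+* Ainf p :=
  WittVector.map (galFlat p σ)

/-- Galois action on `A_inf[1/p]` -/
noncomputable def galAp (σ : PadicAlgCl p ≃ₐ[ℚ_[p]] PadicAlgCl p) : Ap p →+* Ap p :=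
  IsLocalization.Away.lift (S := Ap p) (p : Ainf p)
    (g := (algebraMap (Ainf p) (Ap p)).comp (galA p σ)) (by
      rw [RingHom.comp_apply, map_natCast]
      exact IsLocalization.Away.algebraMap_isUnit (p : Ainf p))

theorem galAp_alg (σ : PadicAlgCl p ≃ₐ[ℚ_[p]] PadicAlgCl p) (x : Ainf p) :
    galAp p σ (algebraMap _ _ x) = algebraMap _ _ (galA p σ x) :=
  IsLocalization.Away.lift_eq (S := Ap p) (p : Ainf p) _ x

theorem galFlat_coeff (σ : PadicAlgCl p ≃ₐ[ℚ_[p]] PadicAlgCl p) (a : Flat p) (n : ℕ) :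
    PreTilt.coeff n (galFlat p σ a) = galMod p σ (PreTilt.coeff n a) := rfl

theorem untilt_gal (σ : PadicAlgCl p ≃ₐ[ℚ_[p]] PadicAlgCl p) (a : Flat p) :
    PreTilt.untilt (galFlat p σ a) = galO p σ (PreTilt.untilt a) := by
  obtain ⟨t, rfl⟩ := (flatEquiv p).surjective a
  let t' : Perfection (OC p) p := Perfection.mapMonoidHom p (galO p σ : OC p →* OC p) t
  have h1 : galFlat p σ (flatEquiv p t) = flatEquiv p t' := by
    apply Perfection.ext
    intro n
    rfl
  rw [h1, flat_untilt, flat_untilt]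
  rfl

theorem galA_teich (σ : PadicAlgCl p ≃ₐ[ℚ_[p]] PadicAlgCl p) (a : Flat p) :
    galA p σ (teichmuller p a) = teichmuller p (galFlat p σ a) :=
  WittVector.map_teichmuller p (galFlat p σ) a

theorem theta_gal (σ : PadicAlgCl p ≃ₐ[ℚ_[p]] PadicAlgCl p) (x : Ainf p) :
    fontaineTheta (OC p) p (galA p σ x) = galO p σ (fontaineTheta (OC p) p x) := by
  have hH : IsHausdorff (Ideal.span {(p : OC p)}) (OC p) := (complete_OC p).toIsHausdorff
  rw [← sub_eq_zero]
  apply hH.haus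
  intro n
  rw [smul_eq_mul, Ideal.mul_top, SModEq.zero, ← Ideal.Quotient.eq_zero_iff_mem]
  have key : (Ideal.Quotient.mk ((Ideal.span {(p : OC p)}) ^ n)).comp
      ((fontaineTheta (OC p) p).comp (galA p σ)) =
      (Ideal.Quotient.mk ((Ideal.span {(p : OC p)}) ^ n)).comp
      ((galO p σ).comp (fontaineTheta (OC p) p)) := by
    apply eq_of_apply_teichmuller_eq
    · refine ⟨n, ?_⟩
      have h1 : ((p : OC p ⧸ (Ideal.span {(p : OC p)}) ^ n)) =
          Ideal.Quotient.mk ((Ideal.span {(p : OC p)}) ^ n) (p : OC p) := by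
        rw [map_natCast]
      rw [h1, ← map_pow, Ideal.Quotient.eq_zero_iff_mem]
      exact Ideal.pow_mem_pow (Ideal.mem_span_singleton_self _) n
    · intro a
      simp only [RingHom.comp_apply]
      rw [galA_teich, theta_teich, theta_teich, untilt_gal]
  have h2 := RingHom.congr_fun key x
  simp only [RingHom.comp_apply] at h2
  rw [map_sub, h2, sub_self]

theorem ThC_gal (σ : PadicAlgCl p ≃ₐ[ℚ_[p]] PadicAlgCl p) (x : Ap p) :
    ThC p (galAp p σ x) = galC p σ (ThC p x) := by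
  have key : (ThC p).comp (galAp p σ) = (galC p σ).comp (ThC p) := by
    apply IsLocalization.ringHom_ext (Submonoid.powers (p : Ainf p))
    ext x
    simp only [RingHom.comp_apply]
    rw [galAp_alg, ThC_alg, ThC_alg, theta_gal, galO_coe]
  exact RingHom.congr_fun key x

theorem galAp_xi (σ : PadicAlgCl p ≃ₐ[ℚ_[p]] PadicAlgCl p) (b : Flat p) :
    galAp p σ (xi p b) = xi p (galFlat p σ b) := by
  unfold xi
  rw [galAp_alg, map_sub, galA_teich, map_natCast]

theorem untilt_gal_p (σ : PadicAlgCl p ≃ₐ[ℚ_[p]] PadicAlgCl p) (b : Flat p)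
    (hb : PreTilt.untilt b = (p : OC p)) : PreTilt.untilt (galFlat p σ b) = (p : OC p) := by
  rw [untilt_gal, hb, map_natCast]

theorem galAp_mem (σ : PadicAlgCl p ≃ₐ[ℚ_[p]] PadicAlgCl p) (x : Ap p) (hx : x ∈ IdR p) :
    galAp p σ x ∈ IdR p := by
  rw [mem_IdR] at hx ⊢
  rw [ThC_gal, hx, map_zero]

theorem galAp_mem_pow (σ : PadicAlgCl p ≃ₐ[ℚ_[p]] PadicAlgCl p) (n : ℕ) :
    (IdR p) ^ n ≤ ((IdR p) ^ n).comap (galAp p σ) := by
  refine le_trans ?_ (Ideal.le_comap_pow (galAp p σ) n)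
  exact Ideal.pow_right_mono (fun x hx => galAp_mem p σ x hx) n

end Pool.Agent.H356R3.FM
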