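import Pool.Agent.H356R3.FM.DR2

set_option autoImplicit false

/-!
The endomorphisms of `BDeRhamPlus R p` and `BDeRham R p` induced by automorphisms of `R`, and
the `ℚ_[p]`-algebra structure of `BDeRham R p`.
-/

namespace Pool.Agent.H356R3.FM

open WittVector

section generic

variable {R : Type} [CommRing R] (p : ℕ) [hp : Fact p.Prime] [hu : Fact (¬ IsUnit (p : R))]
  [hc : IsAdicComplete (Ideal.span {(p : R)}) R]

/-- The map of `B_dR^+` induced by `f`: the unique one that reduces modulo every power of
`ker θ` to the map induced by `f`. -/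
noncomputable def mapBP (f : R →+* R) : BDeRhamPlus R p →+* BDeRhamPlus R p :=
  (exists_mapBP p f).choose

theorem modK_mapBP (f : R →+* R) (n : ℕ) (x : BDeRhamPlus R p) :
    modK R p n (mapBP p f x) = mapQR p f n (modK R p n x) :=
  (exists_mapBP p f).choose_spec n x

theorem mapBP_toBP (f : R →+* R) (a : AP R p) :
    mapBP p f (toBP R p a) = toBP R p (mapAP p f a) := by
  apply modK_ext
  intro n
  rw [modK_mapBP, modK_toBP, modK_toBP, mapQR_mk]

theorem mem_invSub_of (a : AP R p) (ha : kerTheta R p = Ideal.span {a}) :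
    toBP R p a ∈ invSub R p :=
  Submonoid.subset_closure ⟨a, ha, rfl⟩

theorem invSub_map (f : R ≃+* R) :
    invSub R p ≤ (invSub R p).comap (mapBP p (f : R →+* R)) := by
  have key : ∀ a : AP R p, kerTheta R p = Ideal.span {a} →
      mapBP p (f : R →+* R) (toBP R p a) ∈ invSub R p := by
    intro a ha'
    rw [mapBP_toBP]
    apply mem_invSub_of
    apply le_antisymm
    · intro x hx
      have h1 := kerTheta_map p (f.symm : R →+* R) hx
      rw [Ideal.mem_comap, ha', Ideal.mem_span_singleton] at h1
      obtain ⟨c, hc'⟩ := h1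
      rw [Ideal.mem_span_singleton]
      refine ⟨mapAP p (f : R →+* R) c, ?_⟩
      rw [← map_mul, ← hc', mapAP_comp]
      have h2 : ((f : R →+* R)).comp (f.symm : R →+* R) = RingHom.id R := by
        ext x
        simp
      rw [h2, mapAP_id]
    · rw [Ideal.span_le, Set.singleton_subset_iff]
      apply kerTheta_map p (f : R →+* R)
      rw [ha']
      exact Ideal.mem_span_singleton_self _
  refine Submonoid.closure_le.mpr ?_
  rintro _ ⟨a, ha, rfl⟩
  exact key a ha

theorem exists_mapBD (f : R ≃+* R) : ∃ g : BDeRham R p →+* BDeRham R p,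
    ∀ x, g (toBD R p x) = toBD R p (mapBP p (f : R →+* R) x) :=
  ⟨(IsLocalization.map (Localization (invSub R p)) (mapBP p (f : R →+* R)) (invSub_map p f) :
      Localization (invSub R p) →+* Localization (invSub R p)),
    fun x => IsLocalization.map_eq (S := Localization (invSub R p))
      (Q := Localization (invSub R p)) (invSub_map p f) x⟩

/-- The map of `B_dR` induced by the automorphism `f`: the unique one extending the map of
`B_dR^+` induced by `f`. -/
noncomputable def mapBD (f : R ≃+* R) : BDeRham R p →+* BDeRham R p :=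
  (exists_mapBD p f).choose

theorem mapBD_toBD (f : R ≃+* R) (x : BDeRhamPlus R p) :
    mapBD p f (toBD R p x) = toBD R p (mapBP p (f : R →+* R) x) :=
  (exists_mapBD p f).choose_spec x

end generic

section padic

variable (R : Type) [CommRing R] (p : ℕ) [hp : Fact p.Prime] [hu : Fact (¬ IsUnit (p : R))]

/-- `ℤ_[p] → A_inf`, through `ℤ_[p] = W(F_p)`. -/
noncomputable def zToAI : ℤ_[p] →+* AI R p :=
  ((WittVector.map (ZMod.castHom (dvd_refl p) (PreTilt R p))).comp
    ((WittVector.equiv p).symm : ℤ_[p] →+* WittVector p (ZMod p)) :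
    ℤ_[p] →+* WittVector p (PreTilt R p))

theorem toAP_p_isUnit : IsUnit (p : AP R p) := by
  have h2 : IsUnit (algebraMap (WittVector p (PreTilt R p))
    (Localization.Away (p : WittVector p (PreTilt R p))) (p : WittVector p (PreTilt R p))) :=
    IsLocalization.Away.algebraMap_isUnit _
  rw [map_natCast] at h2
  exact h2

theorem zToAI_unit (y : nonZeroDivisors ℤ_[p]) :
    IsUnit (((toAP R p).comp (zToAI R p)) y) := by
  have hy : (y : ℤ_[p]) ≠ 0 := nonZeroDivisors.ne_zero y.2
  have h1 := PadicInt.unitCoeff_spec hy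
  rw [h1, map_mul]
  apply IsUnit.mul
  · exact (PadicInt.unitCoeff hy).isUnit.map _
  · rw [map_pow]
    apply IsUnit.pow
    rw [map_natCast]
    exact toAP_p_isUnit R p

/-- `ℚ_[p] → A_inf[1/p]` -/
noncomputable def qToAP : ℚ_[p] →+* AP R p := IsLocalization.lift (M := nonZeroDivisors ℤ_[p])
  (S := ℚ_[p]) (g := (toAP R p).comp (zToAI R p)) (zToAI_unit R p)

theorem qToAP_int (z : ℤ_[p]) : qToAP R p (z : ℚ_[p]) = toAP R p (zToAI R p z) := by
  have := IsLocalization.lift_eq (M := nonZeroDivisors ℤ_[p]) (S := ℚ_[p]) (zToAI_unit R p) z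
  exact this

variable {R} in
theorem map_zToAI (f : R →+* R) (z : ℤ_[p]) : mapAI p f (zToAI R p z) = zToAI R p z := by
  have h1 : (mapPre p f).comp (ZMod.castHom (dvd_refl p) (PreTilt R p)) =
      ZMod.castHom (dvd_refl p) (PreTilt R p) := Subsingleton.elim _ _
  apply WittVector.ext
  intro n
  exact RingHom.congr_fun h1 _

variable {R} in
theorem map_qToAP (f : R →+* R) (c : ℚ_[p]) : mapAP p f (qToAP R p c) = qToAP R p c := by
  have key : (mapAP p f).comp (qToAP R p) = qToAP R p := by
    apply IsLocalization.ringHom_ext (nonZeroDivisors ℤ_[p])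
    ext z
    simp only [RingHom.comp_apply]
    have h1 : qToAP R p (algebraMap ℤ_[p] ℚ_[p] z) = toAP R p (zToAI R p z) := qToAP_int R p z
    rw [h1, mapAP_toAP, map_zToAI]
  exact RingHom.congr_fun key c

variable [hc : IsAdicComplete (Ideal.span {(p : R)}) R]

/-- The natural `ℚ_[p]`-algebra structure of `B_dR`. -/
noncomputable instance BDeRham.algebraQ : Algebra ℚ_[p] (BDeRham R p) :=
  ((toBD R p).comp ((toBP R p).comp (qToAP R p))).toAlgebra

variable {R} in
theorem mapBD_commutes (f : R ≃+* R) (c : ℚ_[p]) :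
    mapBD p f (algebraMap ℚ_[p] (BDeRham R p) c) = algebraMap ℚ_[p] (BDeRham R p) c := by
  show mapBD p f (toBD R p (toBP R p (qToAP R p c))) = toBD R p (toBP R p (qToAP R p c))
  rw [mapBD_toBD, mapBP_toBP, map_qToAP]

variable {R} in
/-- The `ℚ_[p]`-algebra map of `B_dR` induced by the automorphism `f`. -/
noncomputable def mapBDAlg (f : R ≃+* R) : BDeRham R p →ₐ[ℚ_[p]] BDeRham R p :=
  AlgHom.mk (mapBD p f) (mapBD_commutes p f)

end padic

end Pool.Agent.H356R3.FM
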