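import Pool.Agent.H356R3.FM.BdR4
import Pool.Agent.H356R3.FM.DR3

set_option autoImplicit false

/-!
Galois action on Mathlib's `BDeRhamPlus` and `BDeRham`, and the `ℚ_[p]`-structure.
-/

namespace Pool.Agent.H356R3.FM

open WittVector

/-- `B_dR^+` -/
abbrev BPlus (p : ℕ) [Fact p.Prime] : Type := BDeRhamPlus (OC p) p

/-- `B_dR` -/
abbrev BdR (p : ℕ) [Fact p.Prime] : Type := BDeRham (OC p) p

variable (p : ℕ) [hp : Fact p.Prime]

/-- reduction of `B_dR^+` modulo the `n`-th power of the kernel of `θ` -/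
noncomputable def evalB (n : ℕ) : BPlus p →+* Ap p ⧸ (IdR p) ^ n :=
  (AdicCompletion.evalₐ (IdR p) n : AdicCompletion (IdR p) (Ap p) →+* Ap p ⧸ (IdR p) ^ n)

/-- `A_inf[1/p] → B_dR^+` -/
noncomputable def ofB : Ap p →+* BPlus p :=
  (algebraMap (Ap p) (AdicCompletion (IdR p) (Ap p)))

theorem evalB_ofB (n : ℕ) (a : Ap p) : evalB p n (ofB p a) = Ideal.Quotient.mk _ a :=
  AdicCompletion.evalₐ_of (IdR p) n a

theorem evalB_ext {x y : BPlus p} (h : ∀ n, evalB p n x = evalB p n y) : x = y :=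
  AdicCompletion.ext_evalₐ h

/-- compatibility of the reductions -/
theorem evalB_factor {m n : ℕ} (h : m ≤ n) (x : BPlus p) :
    Ideal.Quotient.factor (Ideal.pow_le_pow_right h) (evalB p n x) = evalB p m x := by
  have key : ∀ y : AdicCompletion (IdR p) (Ap p),
      Ideal.Quotient.factor (Ideal.pow_le_pow_right h) (AdicCompletion.evalₐ (IdR p) n y) =
        AdicCompletion.evalₐ (IdR p) m y := by
    intro y
    induction y using AdicCompletion.induction_on with
    | _ f =>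
      rw [AdicCompletion.evalₐ_mk, AdicCompletion.evalₐ_mk, Ideal.Quotient.factor_mk]
      exact AdicCompletion.Ideal.mk_eq_mk (IdR p) h f
  exact key x

/-- Galois action on the quotients -/
noncomputable def galQ (σ : PadicAlgCl p ≃ₐ[ℚ_[p]] PadicAlgCl p) (n : ℕ) :
    Ap p ⧸ (IdR p) ^ n →+* Ap p ⧸ (IdR p) ^ n :=
  Ideal.quotientMap ((IdR p) ^ n) (galAp p σ) (galAp_mem_pow p σ n)

theorem galQ_compat (σ : PadicAlgCl p ≃ₐ[ℚ_[p]] PadicAlgCl p) {m n : ℕ} (h : m ≤ n) :
    (Ideal.Quotient.factorPow (IdR p) h).comp ((galQ p σ n).comp (evalB p n)) =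
      (galQ p σ m).comp (evalB p m) := by
  ext x
  simp only [RingHom.comp_apply]
  rw [← evalB_factor p h x]
  obtain ⟨a, ha⟩ := Ideal.Quotient.mk_surjective (evalB p n x)
  rw [← ha]
  rfl

/-- Galois action on `B_dR^+` -/
noncomputable def galBp (σ : PadicAlgCl p ≃ₐ[ℚ_[p]] PadicAlgCl p) : BPlus p →+* BPlus p :=
  (AdicCompletion.liftRingHom (IdR p) (fun n => (galQ p σ n).comp (evalB p n))
    (fun h => galQ_compat p σ h) : BPlus p →+* AdicCompletion (IdR p) (Ap p))

theorem evalB_gal (σ : PadicAlgCl p ≃ₐ[ℚ_[p]] PadicAlgCl p) (n : ℕ) (x : BPlus p) :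
    evalB p n (galBp p σ x) = galQ p σ n (evalB p n x) :=
  AdicCompletion.evalₐ_liftRingHom (IdR p) (fun n => (galQ p σ n).comp (evalB p n))
    (fun h => galQ_compat p σ h) n x

theorem galBp_ofB (σ : PadicAlgCl p ≃ₐ[ℚ_[p]] PadicAlgCl p) (a : Ap p) :
    galBp p σ (ofB p a) = ofB p (galAp p σ a) := by
  apply evalB_ext
  intro n
  rw [evalB_gal, evalB_ofB, evalB_ofB]
  rfl

/-- the submonoid inverted in the definition of `BDeRham` -/
noncomputable def SB : Submonoid (BPlus p) := Submonoid.closure <|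
    AdicCompletion.of ((RingHom.ker (fontaineThetaInvertP (OC p) p))) _ ''
      {a | (RingHom.ker (fontaineThetaInvertP (OC p) p)) = Ideal.span {a}}

noncomputable instance algebra_BdR : Algebra (BPlus p) (BdR p) :=
  (inferInstance : Algebra (BPlus p) (Localization (SB p)))

instance isLocalization_BdR : IsLocalization (SB p) (BdR p) :=
  (inferInstance : IsLocalization (SB p) (Localization (SB p)))

/-- Elements of the submonoid come from `A_inf[1/p]`, are `ξ ^ k` up to a unit. -/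
theorem SB_form (b : Flat p) (hb : PreTilt.untilt b = (p : OC p)) (s : BPlus p) (hs : s ∈ SB p) :
    ∃ (k : ℕ) (u : (Ap p)ˣ), s = ofB p ((xi p b) ^ k * u) := by
  unfold SB at hs
  induction hs using Submonoid.closure_induction with
  | mem x hx =>
    obtain ⟨a, ha, rfl⟩ := hx
    have h1 : Ideal.span {xi p b} = Ideal.span {a} := by
      rw [← IdR_eq p b hb]
      exact ha
    obtain ⟨u, hu⟩ := Ideal.span_singleton_eq_span_singleton.mp h1
    refine ⟨1, u, ?_⟩
    rw [pow_one, hu]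
    rfl
  | one => exact ⟨0, 1, by simp⟩
  | mul x y _ _ hx hy =>
    obtain ⟨k, u, rfl⟩ := hx
    obtain ⟨m, v, rfl⟩ := hy
    refine ⟨k + m, u * v, ?_⟩
    rw [← map_mul]
    congr 1
    rw [pow_add, Units.val_mul]
    ring

theorem galBp_SB (σ : PadicAlgCl p ≃ₐ[ℚ_[p]] PadicAlgCl p) :
    SB p ≤ (SB p).comap (galBp p σ) := by
  obtain ⟨b, hb⟩ := exists_untilt p (p : OC p)
  unfold SB
  rw [Submonoid.closure_le]
  rintro _ ⟨a, ha, rfl⟩
  show galBp p σ (ofB p a) ∈ Submonoid.closure _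
  rw [galBp_ofB]
  apply Submonoid.subset_closure
  refine ⟨galAp p σ a, ?_, rfl⟩
  show IdR p = Ideal.span {galAp p σ a}
  have h1 : Ideal.span {xi p b} = Ideal.span {a} := by
    rw [← IdR_eq p b hb]
    exact ha
  obtain ⟨u, hu⟩ := Ideal.span_singleton_eq_span_singleton.mp h1
  rw [IdR_eq p _ (untilt_gal_p p σ b hb), ← galAp_xi, Ideal.span_singleton_eq_span_singleton]
  refine ⟨Units.map (galAp p σ : Ap p →* Ap p) u, ?_⟩
  rw [← hu, map_mul]
  rfl

/-- Galois action on `B_dR` -/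
noncomputable def galB (σ : PadicAlgCl p ≃ₐ[ℚ_[p]] PadicAlgCl p) : BdR p →+* BdR p :=
  IsLocalization.map (BdR p) (galBp p σ) (galBp_SB p σ)

end Pool.Agent.H356R3.FM
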