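import Pool.Agent.H356R3.FM.BdR5

set_option autoImplicit false

/-!
The `ℚ_[p]`-algebra structure of `B_dR`, and linearity of the Galois action.
-/

namespace Pool.Agent.H356R3.FM

open WittVector

variable (p : ℕ) [hp : Fact p.Prime]

/-- `ℤ_[p] → A_inf`, through `ℤ_[p] = W(F_p)`. -/
noncomputable def jZ : ℤ_[p] →+* Ainf p :=
  (WittVector.map (ZMod.castHom (dvd_refl p) (Flat p))).comp
    ((WittVector.equiv p).symm : ℤ_[p] →+* WittVector p (ZMod p))

theorem gal_jZ (σ : PadicAlgCl p ≃ₐ[ℚ_[p]] PadicAlgCl p) (z : ℤ_[p]) :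
    galA p σ (jZ p z) = jZ p z := by
  unfold jZ galA
  rw [RingHom.comp_apply]
  have h1 : (galFlat p σ).comp (ZMod.castHom (dvd_refl p) (Flat p)) =
      ZMod.castHom (dvd_refl p) (Flat p) := Subsingleton.elim _ _
  ext n
  rw [WittVector.map_coeff, WittVector.map_coeff]
  exact RingHom.congr_fun h1 _

theorem theta_jZ (z : ℤ_[p]) :
    ((fontaineTheta (OC p) p (jZ p z) : OC p) : PadicComplex p) =
      algebraMap ℚ_[p] (PadicComplex p) (z : ℚ_[p]) := by
  have key : ∀ n : ℕ, ‖((fontaineTheta (OC p) p (jZ p z) : OC p) : PadicComplex p) -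
      algebraMap ℚ_[p] (PadicComplex p) (z : ℚ_[p])‖ ≤ ((p : ℝ)⁻¹) ^ n := by
    intro n
    have h1 := PadicInt.appr_spec n z
    rw [Ideal.mem_span_singleton] at h1
    obtain ⟨w, hw⟩ := h1
    have hz : z = (z.appr n : ℤ_[p]) + (p : ℤ_[p]) ^ n * w := by rw [← hw]; ring
    have e1 : ((fontaineTheta (OC p) p (jZ p z) : OC p) : PadicComplex p) -
        algebraMap ℚ_[p] (PadicComplex p) (z : ℚ_[p]) = (p : PadicComplex p) ^ n *
        (((fontaineTheta (OC p) p (jZ p w) : OC p) : PadicComplex p) -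
        algebraMap ℚ_[p] (PadicComplex p) (w : ℚ_[p])) := by
      conv_lhs => rw [hz]
      push_cast
      simp only [map_add, map_mul, map_pow, map_natCast]
      push_cast
      ring
    rw [e1, norm_mul, norm_pow, norm_pC]
    have h2 : ‖((fontaineTheta (OC p) p (jZ p w) : OC p) : PadicComplex p) -
        algebraMap ℚ_[p] (PadicComplex p) (w : ℚ_[p])‖ ≤ 1 := by
      rw [sub_eq_add_neg]
      refine (IsUltrametricDist.norm_add_le_max _ _).trans (max_le (norm_OC_le p _) ?_)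
      rw [norm_neg, norm_algebraMap']
      exact PadicInt.norm_le_one w
    calc ((p : ℝ)⁻¹) ^ n * _ ≤ ((p : ℝ)⁻¹) ^ n * 1 :=
          mul_le_mul_of_nonneg_left h2 (by positivity)
      _ = _ := mul_one _
  have h2 : Filter.Tendsto (fun n : ℕ => ((p : ℝ)⁻¹) ^ n) Filter.atTop (nhds 0) := by
    apply tendsto_pow_atTop_nhds_zero_of_lt_one
    · positivity
    · apply inv_lt_one_of_one_lt₀
      exact_mod_cast hp.out.one_lt
  have h3 := ge_of_tendsto' h2 key
  exact sub_eq_zero.mp (norm_le_zero_iff.mp h3)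

theorem jZ_unit (y : nonZeroDivisors ℤ_[p]) :
    IsUnit (((algebraMap (Ainf p) (Ap p)).comp (jZ p)) y) := by
  have hy : (y : ℤ_[p]) ≠ 0 := nonZeroDivisors.ne_zero y.2
  have h1 := PadicInt.unitCoeff_spec hy
  rw [h1, map_mul]
  apply IsUnit.mul
  · exact (PadicInt.unitCoeff hy).isUnit.map _
  · rw [map_pow]
    apply IsUnit.pow
    rw [RingHom.comp_apply, map_natCast]
    exact IsLocalization.Away.algebraMap_isUnit (p : Ainf p)

/-- `ℚ_[p] → A_inf[1/p]` -/
noncomputable def jQ : ℚ_[p] →+* Ap p := IsLocalization.lift (M := nonZeroDivisors ℤ_[p])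
  (S := ℚ_[p]) (g := (algebraMap (Ainf p) (Ap p)).comp (jZ p)) (jZ_unit p)

theorem jQ_int (z : ℤ_[p]) : jQ p (z : ℚ_[p]) = algebraMap (Ainf p) (Ap p) (jZ p z) := by
  have := IsLocalization.lift_eq (M := nonZeroDivisors ℤ_[p]) (S := ℚ_[p]) (jZ_unit p) z
  exact this

theorem gal_jQ (σ : PadicAlgCl p ≃ₐ[ℚ_[p]] PadicAlgCl p) (c : ℚ_[p]) :
    galAp p σ (jQ p c) = jQ p c := by
  have key : (galAp p σ).comp (jQ p) = jQ p := by
    apply IsLocalization.ringHom_ext (nonZeroDivisors ℤ_[p])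
    ext z
    simp only [RingHom.comp_apply]
    have h1 : jQ p (algebraMap ℤ_[p] ℚ_[p] z) = algebraMap (Ainf p) (Ap p) (jZ p z) := jQ_int p z
    rw [h1, galAp_alg, gal_jZ]
  exact RingHom.congr_fun key c

theorem ThC_jQ_int (z : ℤ_[p]) : ThC p (jQ p (z : ℚ_[p])) =
    algebraMap ℚ_[p] (PadicComplex p) (z : ℚ_[p]) := by
  rw [jQ_int, ThC_alg, theta_jZ]

theorem algebraMap_BdR (c : ℚ_[p]) :
    algebraMap ℚ_[p] (BdR p) c = algebraMap (BPlus p) (BdR p) (ofB p (jQ p c)) := rfl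

theorem galB_alg (σ : PadicAlgCl p ≃ₐ[ℚ_[p]] PadicAlgCl p) (x : BPlus p) :
    galB p σ (algebraMap (BPlus p) (BdR p) x) = algebraMap (BPlus p) (BdR p) (galBp p σ x) :=
  IsLocalization.map_eq (S := BdR p) (galBp_SB p σ) x

/-- Galois action on `B_dR` as a `ℚ_[p]`-algebra homomorphism -/
noncomputable def galBAlg (σ : PadicAlgCl p ≃ₐ[ℚ_[p]] PadicAlgCl p) : BdR p →ₐ[ℚ_[p]] BdR p :=
  { galB p σ with
    commutes' := by
      intro c
      show galB p σ (algebraMap ℚ_[p] (BdR p) c) = algebraMap ℚ_[p] (BdR p) c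
      rw [algebraMap_BdR, galB_alg, galBp_ofB, gal_jQ] }

theorem galBAlg_apply (σ : PadicAlgCl p ≃ₐ[ℚ_[p]] PadicAlgCl p) (x : BdR p) :
    galBAlg p σ x = galB p σ x := rfl

end Pool.Agent.H356R3.FM
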