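import Pool.Agent.H356R3.FM.BdR6

set_option autoImplicit false

/-!
The homomorphism `x ↦ θ(([x] - 1) / ([b] - p))` on elements of the tilt with untilt `1`.
-/

namespace Pool.Agent.H356R3.FM

open WittVector

variable (p : ℕ) [hp : Fact p.Prime]

/-- the element `[b] - p` of `A_inf` -/
noncomputable def xiA (b : Flat p) : Ainf p := teichmuller p b - (p : Ainf p)

theorem xiA_ne_zero (b : Flat p) : xiA p b ≠ 0 := by
  intro h
  apply xi_ne_zero p b
  unfold xi
  rw [show teichmuller p b - (p : Ainf p) = xiA p b from rfl, h, map_zero]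

theorem theta_xiA (b : Flat p) (hb : PreTilt.untilt b = (p : OC p)) :
    fontaineTheta (OC p) p (xiA p b) = 0 := by
  unfold xiA
  rw [map_sub, theta_teich, hb, map_natCast, sub_self]

/-- `y = θ(([x] - 1) / ξ)` -/
def Lam (b x : Flat p) (y : OC p) : Prop :=
  ∃ w : Ainf p, teichmuller p x - 1 = xiA p b * w ∧ fontaineTheta (OC p) p w = y

variable {p}

theorem Lam_exists {b x : Flat p} (hb : PreTilt.untilt b = (p : OC p))
    (hx : PreTilt.untilt x = (1 : OC p)) : ∃ y, Lam p b x y := by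
  have h1 : fontaineTheta (OC p) p (teichmuller p x - 1) = 0 := by
    rw [map_sub, theta_teich, hx, map_one, sub_self]
  obtain ⟨w, hw⟩ := ker_theta p b hb _ h1
  exact ⟨_, w, hw, rfl⟩

theorem Lam_unique {b x : Flat p} {y y' : OC p} (h : Lam p b x y) (h' : Lam p b x y') :
    y = y' := by
  obtain ⟨w, hw, rfl⟩ := h
  obtain ⟨w', hw', rfl⟩ := h'
  rw [hw] at hw'
  rw [mul_left_cancel₀ (xiA_ne_zero p b) hw']

theorem Lam_untilt {b x : Flat p} {y : OC p} (hb : PreTilt.untilt b = (p : OC p))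
    (h : Lam p b x y) : PreTilt.untilt x = (1 : OC p) := by
  obtain ⟨w, hw, rfl⟩ := h
  have h1 := congrArg (fontaineTheta (OC p) p) hw
  rw [map_sub, theta_teich, map_one, map_mul, theta_xiA p b hb, zero_mul] at h1
  exact sub_eq_zero.mp h1

theorem Lam_mul {b x x' : Flat p} {y y' : OC p} (hb : PreTilt.untilt b = (p : OC p))
    (h : Lam p b x y) (h' : Lam p b x' y') : Lam p b (x * x') (y + y') := by
  have h1 := Lam_untilt hb h
  obtain ⟨w, hw, rfl⟩ := h
  obtain ⟨w', hw', rfl⟩ := h'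
  refine ⟨teichmuller p x * w' + w, ?_, ?_⟩
  · rw [map_mul]
    have e : teichmuller p x * teichmuller p x' - 1 =
        teichmuller p x * (teichmuller p x' - 1) + (teichmuller p x - 1) := by ring
    rw [e, hw, hw']
    ring
  · rw [map_add, map_mul, theta_teich, h1, one_mul, add_comm]

theorem Lam_one (b : Flat p) : Lam p b 1 0 :=
  ⟨0, by rw [map_one, sub_self, mul_zero], map_zero _⟩

theorem Lam_pow {b x : Flat p} {y : OC p} (hb : PreTilt.untilt b = (p : OC p))
    (h : Lam p b x y) (n : ℕ) : Lam p b (x ^ n) ((n : OC p) * y) := by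
  induction n with
  | zero => rw [pow_zero, Nat.cast_zero, zero_mul]; exact Lam_one b
  | succ n ih =>
    rw [pow_succ]
    have := Lam_mul hb ih h
    rw [Nat.cast_succ, add_mul, one_mul]
    exact this

/-- The Galois action multiplies `Lam` by the cocycle of `ξ`. -/
theorem Lam_gal {b x : Flat p} {y : OC p} (σ : PadicAlgCl p ≃ₐ[ℚ_[p]] PadicAlgCl p)
    (u : Ainf p) (hu : galA p σ (xiA p b) = xiA p b * u) (h : Lam p b x y) :
    Lam p b (galFlat p σ x) (fontaineTheta (OC p) p u * galO p σ y) := by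
  obtain ⟨w, hw, rfl⟩ := h
  refine ⟨u * galA p σ w, ?_, ?_⟩
  · have h1 := congrArg (galA p σ) hw
    rw [map_sub, galA_teich, map_one, map_mul, hu] at h1
    rw [h1]
    ring
  · rw [map_mul, theta_gal]

theorem exists_cocycle {b : Flat p} (hb : PreTilt.untilt b = (p : OC p))
    (σ : PadicAlgCl p ≃ₐ[ℚ_[p]] PadicAlgCl p) : ∃ u, galA p σ (xiA p b) = xiA p b * u := by
  apply ker_theta p b hb
  rw [theta_gal, theta_xiA p b hb, map_zero]

/-- A root-of-unity like system: `τ 0 = 1` and `τ (k + 1) ^ p = τ k`. -/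
structure IsSys (p : ℕ) [Fact p.Prime] (τ : ℕ → PadicAlgCl p) : Prop where
  zero : τ 0 = 1
  succ : ∀ k, τ (k + 1) ^ p = τ k

theorem IsSys.pow_eq {τ : ℕ → PadicAlgCl p} (h : IsSys p τ) (n k : ℕ) :
    τ (k + n) ^ (p ^ n) = τ k := by
  induction n with
  | zero => rw [pow_zero, pow_one, add_zero]
  | succ n ih => rw [pow_succ', pow_mul, ← add_assoc, h.succ, ih]

theorem IsSys.pow_one {τ : ℕ → PadicAlgCl p} (h : IsSys p τ) (k : ℕ) : τ k ^ (p ^ k) = 1 := by
  have := h.pow_eq k 0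
  rw [zero_add, h.zero] at this
  exact this

theorem IsSys.norm_eq {τ : ℕ → PadicAlgCl p} (h : IsSys p τ) (k : ℕ) : ‖τ k‖ = 1 := by
  have h1 : ‖τ k‖ ^ (p ^ k) = 1 := by rw [← norm_pow, h.pow_one, norm_one]
  exact (pow_eq_one_iff_of_nonneg (norm_nonneg _) (pow_pos hp.out.pos k).ne').mp h1

theorem IsSys.ne_zero {τ : ℕ → PadicAlgCl p} (h : IsSys p τ) (k : ℕ) : τ k ≠ 0 := by
  intro h0
  have := h.norm_eq k
  rw [h0, norm_zero] at this
  exact zero_ne_one this

theorem IsSys.mul {τ τ' : ℕ → PadicAlgCl p} (h : IsSys p τ) (h' : IsSys p τ') :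
    IsSys p (fun k => τ k * τ' k) :=
  ⟨by rw [h.zero, h'.zero, one_mul], fun k => by rw [mul_pow, h.succ, h'.succ]⟩

theorem IsSys.pow {τ : ℕ → PadicAlgCl p} (h : IsSys p τ) (n : ℕ) :
    IsSys p (fun k => τ k ^ n) :=
  ⟨by rw [h.zero, one_pow], fun k => by rw [← pow_mul, mul_comm, pow_mul, h.succ]⟩

theorem IsSys.inv {τ : ℕ → PadicAlgCl p} (h : IsSys p τ) :
    IsSys p (fun k => (τ k)⁻¹) :=
  ⟨by rw [h.zero, inv_one], fun k => by rw [inv_pow, h.succ]⟩

theorem IsSys.gal {τ : ℕ → PadicAlgCl p} (h : IsSys p τ)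
    (σ : PadicAlgCl p ≃ₐ[ℚ_[p]] PadicAlgCl p) : IsSys p (fun k => σ (τ k)) :=
  ⟨by rw [h.zero, map_one], fun k => by rw [← map_pow, h.succ]⟩

theorem IsSys.shift {τ : ℕ → PadicAlgCl p} (h : IsSys p τ) (n : ℕ) (hn : τ n = 1) :
    IsSys p (fun k => τ (k + n)) :=
  ⟨by rw [zero_add, hn], fun k => by
    rw [show k + 1 + n = k + n + 1 by ring]
    exact h.succ _⟩

/-- the element of the perfection attached to a system -/
noncomputable def IsSys.perf {τ : ℕ → PadicAlgCl p} (h : IsSys p τ) : Perfection (OC p) p :=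
  ⟨fun k => ⟨((τ k : PadicAlgCl p) : PadicComplex p), (mem_OC p _).mpr (by
    rw [PadicComplex.norm_extends, h.norm_eq])⟩, fun k => by
      apply Subtype.ext
      show ((τ (k + 1) : PadicAlgCl p) : PadicComplex p) ^ p = (τ k : PadicAlgCl p)
      rw [← h.succ k]
      exact (map_pow (algebraMap (PadicAlgCl p) (PadicComplex p)) (τ (k + 1)) p).symm⟩

theorem IsSys.perf_coeff {τ : ℕ → PadicAlgCl p} (h : IsSys p τ) (n : ℕ) :
    ((Perfection.coeffMonoidHom (OC p) p n h.perf : OC p) : PadicComplex p) =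
      ((τ n : PadicAlgCl p) : PadicComplex p) := rfl

/-- the element of the tilt attached to a system -/
noncomputable def IsSys.flat {τ : ℕ → PadicAlgCl p} (h : IsSys p τ) : Flat p :=
  flatEquiv p h.perf

theorem IsSys.flat_untilt {τ : ℕ → PadicAlgCl p} (h : IsSys p τ) :
    PreTilt.untilt h.flat = (1 : OC p) := by
  unfold IsSys.flat
  rw [Pool.Agent.H356R3.FM.flat_untilt]
  apply Subtype.ext
  rw [h.perf_coeff, h.zero]
  rfl

theorem IsSys.flat_congr {τ τ' : ℕ → PadicAlgCl p} (h : IsSys p τ) (h' : IsSys p τ')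
    (e : ∀ k, τ k = τ' k) : h.flat = h'.flat := by
  have : τ = τ' := funext e
  subst this
  rfl

theorem IsSys.flat_mul {τ τ' : ℕ → PadicAlgCl p} (h : IsSys p τ) (h' : IsSys p τ') :
    (h.mul h').flat = h.flat * h'.flat := by
  have h1 : (h.mul h').perf = h.perf * h'.perf := by
    apply Perfection.extMonoid
    intro n
    rw [map_mul]
    apply Subtype.ext
    exact map_mul (algebraMap (PadicAlgCl p) (PadicComplex p)) (τ n) (τ' n)
  unfold IsSys.flat
  rw [h1]
  exact (flatEquiv p).map_mul _ _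

theorem IsSys.flat_pow {τ : ℕ → PadicAlgCl p} (h : IsSys p τ) (m : ℕ) :
    (h.pow m).flat = h.flat ^ m := by
  have h1 : (h.pow m).perf = h.perf ^ m := by
    apply Perfection.extMonoid
    intro n
    rw [map_pow]
    apply Subtype.ext
    exact map_pow (algebraMap (PadicAlgCl p) (PadicComplex p)) (τ n) m
  unfold IsSys.flat
  rw [h1]
  exact map_pow (flatEquiv p) _ _

theorem IsSys.flat_gal {τ : ℕ → PadicAlgCl p} (h : IsSys p τ)
    (σ : PadicAlgCl p ≃ₐ[ℚ_[p]] PadicAlgCl p) :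
    (h.gal σ).flat = galFlat p σ h.flat := by
  unfold IsSys.flat
  have h1 : galFlat p σ (flatEquiv p h.perf) =
      flatEquiv p (Perfection.mapMonoidHom p (galO p σ : OC p →* OC p) h.perf) := by
    apply Perfection.ext
    intro n
    rfl
  rw [h1]
  congr 1
  apply Perfection.extMonoid
  intro n
  apply Subtype.ext
  show ((σ (τ n) : PadicAlgCl p) : PadicComplex p) = galC p σ ((τ n : PadicAlgCl p))
  rw [galC_coe]

/-- If the `n`-th term is `1` then `Lam` is divisible by `p ^ n`. -/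
theorem IsSys.Lam_norm {b : Flat p} (hb : PreTilt.untilt b = (p : OC p))
    {τ : ℕ → PadicAlgCl p} (h : IsSys p τ) (n : ℕ) (hn : τ n = 1) (y : OC p)
    (hy : Lam p b h.flat y) : ‖(y : PadicComplex p)‖ ≤ ((p : ℝ)⁻¹) ^ n := by
  have h1 : ((h.shift n hn).pow (p ^ n)).flat = h.flat :=
    IsSys.flat_congr ((h.shift n hn).pow (p ^ n)) h fun k => h.pow_eq n k
  rw [(h.shift n hn).flat_pow (p ^ n)] at h1
  obtain ⟨z, hz⟩ := Lam_exists hb (h.shift n hn).flat_untilt
  have h2 := Lam_pow hb hz (p ^ n)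
  rw [h1] at h2
  rw [Lam_unique hy h2]
  have h3 : ((((p ^ n : ℕ) : OC p) * z : OC p) : PadicComplex p) =
      (p : PadicComplex p) ^ n * (z : PadicComplex p) := by
    push_cast
    rfl
  rw [h3, norm_mul, norm_pow, norm_pC]
  calc ((p : ℝ)⁻¹) ^ n * ‖(z : PadicComplex p)‖ ≤ ((p : ℝ)⁻¹) ^ n * 1 :=
        mul_le_mul_of_nonneg_left (norm_OC_le p z) (by positivity)
    _ = _ := mul_one _

end Pool.Agent.H356R3.FM
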