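import Pool.Agent.H356R3.FM.Global

set_option autoImplicit false

/-!
The local character `<χ>^{-1/2}` has no periods in `ℂ_[l](i)` for any integer `i`.
-/

namespace Pool.Agent.H356R3.FM

variable (l : ℕ) [hl : Fact l.Prime]

/-- The character `<χ>^{-1/2}` of the absolute Galois group of `K`, with values in `ℤ_[l]ˣ`;
here `χ` is the cyclotomic character, `<x>` the projection of `x` to the units congruent to `1`
modulo `l`, and `l` is odd. -/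
noncomputable def rho0 (hl2 : l ≠ 2) (K : Type) [Field K] : GK K →* ℤ_[l]ˣ :=
  ((psi l hl2).comp (chiK l K))⁻¹

theorem rho0_pow (hl2 : l ≠ 2) (K : Type) [Field K] (σ : GK K) :
    (rho0 l hl2 K σ) ^ (2 * (l - 1)) = ((chiK l K σ) ^ (l - 1))⁻¹ := by
  unfold rho0
  rw [MonoidHom.inv_apply, MonoidHom.comp_apply, inv_pow, psi_pow]

theorem rho0_toGlobal (hl2 : l ≠ 2) (K L : Type) [Field K] [Field L] [Algebra K L]
    [CharZero K] [CharZero L] (ι : Emb K L) (σ : GK L) :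
    rho0 l hl2 K (toGlobal ι σ) = rho0 l hl2 L σ := by
  unfold rho0
  rw [MonoidHom.inv_apply, MonoidHom.comp_apply, MonoidHom.inv_apply, MonoidHom.comp_apply,
    chi_toGlobal]

/-- `ℤ_[l]ˣ → ℚ_[l]` is multiplicative -/
theorem coe_zpow_unit (u : ℤ_[l]ˣ) (n : ℤ) :
    (((u ^ n : ℤ_[l]ˣ) : ℤ_[l]) : ℚ_[l]) = (((u : ℤ_[l]ˣ) : ℤ_[l]) : ℚ_[l]) ^ n := by
  have h := (Units.map ((algebraMap ℤ_[l] ℚ_[l]) : ℤ_[l] →* ℚ_[l])).map_zpow u n
  have h2 := congrArg (fun x : ℚ_[l]ˣ => (x : ℚ_[l])) h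
  simp only [Units.val_zpow_eq_zpow_val] at h2
  exact h2

/-- **Tate's theorem** for all nonzero integer powers. -/
theorem tate (k : ℤ) (hk : k ≠ 0) (z : PadicComplex l)
    (hz : ∀ σ : GK ℚ_[l], galC l σ z = ((((chiK l ℚ_[l] σ : ℤ_[l]ˣ) : ℤ_[l]) : ℚ_[l]) ^ k) • z) :
    z = 0 := by
  rcases lt_or_gt_of_ne hk with h | h
  · by_contra hz0
    obtain ⟨n, hn⟩ := Int.eq_ofNat_of_zero_le (show 0 ≤ -k by omega)
    have hk' : k = -(n : ℤ) := by omega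
    have hn0 : n ≠ 0 := by omega
    have h1 : z⁻¹ = 0 := by
      apply tate_pos n hn0
      intro σ
      rw [map_inv₀, hz σ, hk', zpow_neg, zpow_natCast]
      set c : ℚ_[l] := (((chiK l ℚ_[l] σ : ℤ_[l]ˣ) : ℤ_[l]) : ℚ_[l]) ^ n with hc
      have hcn : c ≠ 0 := by
        intro h0
        have h2 : ‖c‖ = 1 := by
          rw [hc, norm_pow]
          have := norm_chi (p := l) σ
          rw [show ‖(((chiK l ℚ_[l] σ : ℤ_[l]ˣ) : ℤ_[l]) : ℚ_[l])‖ = 1 from this, one_pow]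
        rw [h0, norm_zero] at h2
        exact zero_ne_one h2
      show (c⁻¹ • z)⁻¹ = c • z⁻¹
      rw [Algebra.smul_def, Algebra.smul_def, mul_inv, map_inv₀, inv_inv]
    exact hz0 (inv_eq_zero.mp h1)
  · obtain ⟨n, hn⟩ := Int.eq_ofNat_of_zero_le h.le
    have hn0 : n ≠ 0 := by omega
    apply tate_pos n hn0
    intro σ
    rw [hz σ, hn, zpow_natCast]
    rfl

/-- There is no nonzero `z` in `ℂ_[l]` with `ρ(σ) χ(σ)^i σ(z) = z` for all `σ`. -/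
theorem no_period (hl2 : l ≠ 2) (i : ℤ) (z : PadicComplex l)
    (hz : ∀ σ : GK ℚ_[l],
      (((rho0 l hl2 ℚ_[l] σ * (chiK l ℚ_[l] σ) ^ i : ℤ_[l]ˣ) : ℤ_[l]) : ℚ_[l]) • galC l σ z = z) :
    z = 0 := by
  have hl1 : 2 ≤ l := hl.out.two_le
  set M := 2 * (l - 1) with hM
  have hM0 : M ≠ 0 := by omega
  set e : ℤ := ((l : ℤ) - 1) * (1 - 2 * i) with he
  have he0 : e ≠ 0 := by
    rw [he]
    apply mul_ne_zero
    · omega
    · omega
  have key : ∀ σ : GK ℚ_[l], galC l σ (z ^ M) =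
      ((((chiK l ℚ_[l] σ : ℤ_[l]ˣ) : ℤ_[l]) : ℚ_[l]) ^ e) • z ^ M := by
    intro σ
    set u : ℤ_[l]ˣ := rho0 l hl2 ℚ_[l] σ * (chiK l ℚ_[l] σ) ^ i with hu
    have h1 := hz σ
    have hum : (u⁻¹) ^ M = (chiK l ℚ_[l] σ) ^ e := by
      rw [hu, inv_pow, mul_pow, rho0_pow, mul_inv, inv_inv]
      rw [← zpow_natCast (chiK l ℚ_[l] σ) (l - 1), ← zpow_natCast ((chiK l ℚ_[l] σ) ^ i) M,
        ← zpow_mul, ← zpow_neg, ← zpow_add]
      congr 1
      rw [he, hM]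
      push_cast [Nat.cast_sub (show 1 ≤ l by omega)]
      ring
    have h2 : galC l σ z = (((u⁻¹ : ℤ_[l]ˣ) : ℤ_[l]) : ℚ_[l]) • z := by
      have h3 : (((u⁻¹ : ℤ_[l]ˣ) : ℤ_[l]) : ℚ_[l]) • z = (((u⁻¹ : ℤ_[l]ˣ) : ℤ_[l]) : ℚ_[l]) •
          ((((u : ℤ_[l]ˣ) : ℤ_[l]) : ℚ_[l]) • galC l σ z) := by rw [h1]
      rw [h3, smul_smul, ← PadicInt.coe_mul, Units.inv_mul, PadicInt.coe_one, one_smul]
    have h4 := coe_zpow_unit l (chiK l ℚ_[l] σ) e
    rw [← h4, ← hum, map_pow, h2, smul_pow]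
    congr 1
  have h1 := tate l e he0 (z ^ M) key
  exact pow_eq_zero_iff hM0 |>.mp h1

end Pool.Agent.H356R3.FM
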