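import Pool.Agent.H356R3.FM.BdR7
import Pool.Agent.H356R3.FM.NoPeriod

set_option autoImplicit false

/-!
The cocycle `σ(ξ)/ξ` is, up to a coboundary in `ℂ_[p]`, the cyclotomic character (`p` odd).
-/

namespace Pool.Agent.H356R3.FM

open WittVector

variable {p : ℕ} [hp : Fact p.Prime]

theorem norm_b1 {b : Flat p} (hb : PreTilt.untilt b = (p : OC p)) (β : Perfection (OC p) p)
    (hβ : flatEquiv p β = b) :
    ‖((Perfection.coeffMonoidHom (OC p) p 1 β : OC p) : PadicComplex p)‖ ^ p = (p : ℝ)⁻¹ := by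
  have h1 := norm_coeff_pow p β 1
  rw [pow_one] at h1
  rw [h1]
  have h2 : Perfection.coeffMonoidHom (OC p) p 0 β = (p : OC p) := by
    rw [← flat_untilt, hβ, hb]
  rw [h2]
  exact norm_pC p

theorem Lam_ne_zero (hp2 : p ≠ 2) {b : Flat p} (hb : PreTilt.untilt b = (p : OC p))
    {τ : ℕ → PadicAlgCl p} (h : IsSys p τ) (h1 : IsPrimitiveRoot (τ 1) p) (y : OC p)
    (hy : Lam p b h.flat y) : y ≠ 0 := by
  have hp3 : 3 ≤ p := by
    have := hp.out.two_le
    omega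
  obtain ⟨w, hw, rfl⟩ := hy
  intro h0
  obtain ⟨w', hw'⟩ := ker_theta p b hb w h0
  obtain ⟨β, hβ⟩ := (flatEquiv p).surjective b
  obtain ⟨ω, hω⟩ := (flatEquiv p).surjective (w'.coeff 0)
  have e1 : h.flat - 1 = b * (b * w'.coeff 0) := by
    have h2 : (constantCoeff (teichmuller p h.flat - 1) : Flat p) =
        constantCoeff (xiA p b * ((teichmuller p b - (p : Ainf p)) * w')) := by
      rw [hw, hw']
    have hx : (constantCoeff (xiA p b) : Flat p) = b := by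
      unfold xiA
      rw [map_sub, map_natCast, CharP.cast_eq_zero, sub_zero]
      exact teichmuller_coeff_zero p b
    have hx' : (constantCoeff (teichmuller p b - (p : Ainf p)) : Flat p) = b := hx
    have ht : (constantCoeff (teichmuller p h.flat) : Flat p) = h.flat :=
      teichmuller_coeff_zero p _
    rw [map_sub, map_one, map_mul, map_mul, hx, hx', ht] at h2
    exact h2
  have e2 := congrArg (PreTilt.coeff (O := OC p) (p := p) 1) e1
  rw [map_sub, map_one, map_mul, map_mul, ← hβ, ← hω] at e2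
  have f1 : PreTilt.coeff 1 h.flat = Ideal.Quotient.mk (Ideal.span {(p : OC p)})
    (Perfection.coeffMonoidHom (OC p) p 1 h.perf) := flat_coeff p h.perf 1
  rw [f1, flat_coeff, flat_coeff] at e2
  set B1 := Perfection.coeffMonoidHom (OC p) p 1 β with hB1
  set O1 := Perfection.coeffMonoidHom (OC p) p 1 ω with hO1
  set T1 := Perfection.coeffMonoidHom (OC p) p 1 h.perf with hT1
  have e3 : T1 - 1 - B1 * (B1 * O1) ∈ Ideal.span {(p : OC p)} := by
    rw [← Ideal.Quotient.eq_zero_iff_mem, map_sub, map_sub, map_one, map_mul, map_mul]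
    exact sub_eq_zero.mpr e2
  have e4 : ‖((T1 - 1 - B1 * (B1 * O1) : OC p) : PadicComplex p)‖ ≤ (p : ℝ)⁻¹ := by
    have := (mem_span_pow_p p 1 _).mp (by rw [pow_one]; exact e3)
    rwa [pow_one] at this
  have hBn : ‖(B1 : PadicComplex p)‖ ^ p = (p : ℝ)⁻¹ := norm_b1 hb β hβ
  have hTn : ‖((T1 - 1 : OC p) : PadicComplex p)‖ ^ (p - 1) = (p : ℝ)⁻¹ := by
    have h3 := norm_zeta_sub_one (p := p) 0 (τ 1) (by rw [zero_add, pow_one]; exact h1)
    rw [zero_add, pow_one, Nat.totient_prime hp.out] at h3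
    rw [← h3]
    congr 1
    have h4 : ((T1 - 1 : OC p) : PadicComplex p) = ((τ 1 - 1 : PadicAlgCl p) : PadicComplex p) := by
      have h5 : ((T1 - 1 : OC p) : PadicComplex p) = ((τ 1 : PadicAlgCl p) : PadicComplex p) - 1 :=
        rfl
      rw [h5, UniformSpace.Completion.coe_sub]
      rfl
    rw [h4, PadicComplex.norm_extends]
  have hr1 : (p : ℝ)⁻¹ < 1 := by
    apply inv_lt_one_of_one_lt₀
    exact_mod_cast hp.out.one_lt
  have hr0 : (0 : ℝ) < (p : ℝ)⁻¹ := by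
    have : (0 : ℝ) < p := by exact_mod_cast hp.out.pos
    positivity
  have e5 : ‖((T1 - 1 : OC p) : PadicComplex p)‖ ≤
      max ((p : ℝ)⁻¹) (‖(B1 : PadicComplex p)‖ ^ 2) := by
    have e : ((T1 - 1 : OC p) : PadicComplex p) = ((T1 - 1 - B1 * (B1 * O1) : OC p) : PadicComplex p)
        + (B1 : PadicComplex p) * ((B1 : PadicComplex p) * (O1 : PadicComplex p)) := by
      push_cast
      ring
    rw [e]
    refine (IsUltrametricDist.norm_add_le_max _ _).trans (max_le_max e4 ?_)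
    rw [norm_mul, norm_mul, ← mul_assoc, ← pow_two]
    calc ‖(B1 : PadicComplex p)‖ ^ 2 * ‖(O1 : PadicComplex p)‖ ≤ ‖(B1 : PadicComplex p)‖ ^ 2 * 1 :=
          mul_le_mul_of_nonneg_left (norm_OC_le p _) (by positivity)
      _ = _ := mul_one _
  set A := ‖((T1 - 1 : OC p) : PadicComplex p)‖ with hA
  have hA0 : 0 ≤ A := norm_nonneg _
  rcases le_max_iff.mp e5 with h6 | h6
  · have h7 : A ^ (p - 1) ≤ ((p : ℝ)⁻¹) ^ (p - 1) := pow_le_pow_left₀ hA0 h6 _
    rw [hTn] at h7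
    have h8 : ((p : ℝ)⁻¹) ^ (p - 1) < ((p : ℝ)⁻¹) ^ 1 :=
      pow_lt_pow_right_of_lt_one₀ hr0 hr1 (by omega)
    rw [pow_one] at h8
    linarith
  · have h7 : (A ^ (p - 1)) ^ p ≤ ((‖(B1 : PadicComplex p)‖ ^ p)) ^ (2 * (p - 1)) := by
      rw [← pow_mul, ← pow_mul]
      have : ‖(B1 : PadicComplex p)‖ ^ (p * (2 * (p - 1))) =
          (‖(B1 : PadicComplex p)‖ ^ 2) ^ ((p - 1) * p) := by
        rw [← pow_mul]
        congr 1
        ring
      rw [this]
      exact pow_le_pow_left₀ hA0 h6 _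
    rw [hTn, hBn] at h7
    have h8 : ((p : ℝ)⁻¹) ^ (2 * (p - 1)) < ((p : ℝ)⁻¹) ^ p :=
      pow_lt_pow_right_of_lt_one₀ hr0 hr1 (by omega)
    linarith

/-- compatible system of `p`-power roots of unity -/
theorem exists_system (p : ℕ) [hp : Fact p.Prime] :
    ∃ τ : ℕ → PadicAlgCl p, IsSys p τ ∧ IsPrimitiveRoot (τ 1) p := by
  obtain ⟨ζ, hζ⟩ := exists_primitive (p := p) 1
  rw [pow_one] at hζ
  have hroot : ∀ x : PadicAlgCl p, ∃ y : PadicAlgCl p, y ^ p = x := fun x =>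
    IsAlgClosed.exists_pow_nat_eq x hp.out.pos
  choose f hf using hroot
  refine ⟨fun k => Nat.casesOn k 1 (fun k => f^[k] ζ), ⟨rfl, ?_⟩, ?_⟩
  · intro k
    cases k with
    | zero =>
      show ζ ^ p = 1
      exact hζ.pow_eq_one
    | succ k =>
      show (f^[k + 1] ζ) ^ p = f^[k] ζ
      rw [Function.iterate_succ_apply', hf]
  · exact hζ

theorem norm_chi_sub (σ : PadicAlgCl p ≃ₐ[ℚ_[p]] PadicAlgCl p) (n : ℕ) :
    ‖(((PadicInt.toZModPow n ((chi p ℚ_[p] (PadicAlgCl p) σ : ℤ_[p]ˣ) : ℤ_[p])).val : ℕ) : ℚ_[p]) -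
      (((chi p ℚ_[p] (PadicAlgCl p) σ : ℤ_[p]ˣ) : ℤ_[p]) : ℚ_[p])‖ ≤ ((p : ℝ)⁻¹) ^ n := by
  set c : ℤ_[p] := ((chi p ℚ_[p] (PadicAlgCl p) σ : ℤ_[p]ˣ) : ℤ_[p]) with hc
  have hn0 : NeZero (p ^ n) := ⟨(pow_pos hp.out.pos n).ne'⟩
  have h1 : PadicInt.toZModPow n ((((PadicInt.toZModPow n c).val : ℕ) : ℤ_[p]) - c) = 0 := by
    rw [map_sub, map_natCast, ZMod.natCast_val, ZMod.cast_id', id, sub_self]
  rw [← RingHom.mem_ker, PadicInt.ker_toZModPow, ← PadicInt.norm_le_pow_iff_mem_span_pow] at h1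
  rw [inv_pow, ← zpow_natCast, ← zpow_neg]
  have h2 : ((((((PadicInt.toZModPow n c).val : ℕ) : ℤ_[p]) - c : ℤ_[p])) : ℚ_[p]) =
      (((PadicInt.toZModPow n c).val : ℕ) : ℚ_[p]) - (c : ℚ_[p]) := by
    push_cast
    rfl
  rw [← h2]
  exact h1

/-- The cocycle of `ξ = [b] - p` is cohomologous in `ℂ_[p]` to the cyclotomic character. -/
theorem cocycle (hp2 : p ≠ 2) {b : Flat p} (hb : PreTilt.untilt b = (p : OC p)) :
    ∃ y : PadicComplex p, y ≠ 0 ∧ ∀ (σ : PadicAlgCl p ≃ₐ[ℚ_[p]] PadicAlgCl p) (u : Ainf p),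
      galA p σ (xiA p b) = xiA p b * u →
      ((fontaineTheta (OC p) p u : OC p) : PadicComplex p) * galC p σ y =
        (((chi p ℚ_[p] (PadicAlgCl p) σ : ℤ_[p]ˣ) : ℤ_[p]) : ℚ_[p]) • y := by
  obtain ⟨τ, hτ, hτ1⟩ := exists_system p
  obtain ⟨y, hy⟩ := Lam_exists hb hτ.flat_untilt
  have hy0 := Lam_ne_zero hp2 hb hτ hτ1 y hy
  refine ⟨(y : PadicComplex p), ?_, ?_⟩
  · intro h
    exact hy0 (Subtype.ext h)
  intro σ u hu
  have hg := Lam_gal σ u hu hy
  rw [← hτ.flat_gal σ] at hg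
  have key : ∀ n : ℕ, ‖((fontaineTheta (OC p) p u : OC p) : PadicComplex p) *
      galC p σ (y : PadicComplex p) -
        (((chi p ℚ_[p] (PadicAlgCl p) σ : ℤ_[p]ˣ) : ℤ_[p]) : ℚ_[p]) • (y : PadicComplex p)‖ ≤
      ((p : ℝ)⁻¹) ^ n := by
    intro n
    set a : ℕ := (PadicInt.toZModPow n ((chi p ℚ_[p] (PadicAlgCl p) σ : ℤ_[p]ˣ) : ℤ_[p])).val
      with ha
    have hq : IsSys p (fun k => σ (τ k) * ((τ k)⁻¹) ^ a) := (hτ.gal σ).mul (hτ.inv.pow a)
    have hqn : (fun k => σ (τ k) * ((τ k)⁻¹) ^ a) n = 1 := by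
      show σ (τ n) * ((τ n)⁻¹) ^ a = 1
      rw [chi_spec σ n (τ n) (hτ.pow_one n), ← mul_pow, mul_inv_cancel₀ (hτ.ne_zero n), one_pow]
    obtain ⟨z, hz⟩ := Lam_exists hb hq.flat_untilt
    have hzn := hq.Lam_norm hb n hqn z hz
    have h2 := Lam_mul hb (Lam_pow hb hy a) hz
    rw [← hτ.flat_pow a, ← (hτ.pow a).flat_mul hq] at h2
    have h3 : ((hτ.pow a).mul hq).flat = (hτ.gal σ).flat := by
      apply IsSys.flat_congr
      intro k
      rw [mul_comm (σ (τ k)), ← mul_assoc, ← mul_pow, mul_inv_cancel₀ (hτ.ne_zero k), one_pow,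
        one_mul]
    rw [h3] at h2
    have h4 := Lam_unique hg h2
    have h5 := congrArg (fun x : OC p => (x : PadicComplex p)) h4
    have h6 : ((fontaineTheta (OC p) p u : OC p) : PadicComplex p) *
      galC p σ (y : PadicComplex p) = (a : PadicComplex p) * (y : PadicComplex p) +
        (z : PadicComplex p) := h5
    rw [h6]
    have h7 : (a : PadicComplex p) * (y : PadicComplex p) + (z : PadicComplex p) -
        (((chi p ℚ_[p] (PadicAlgCl p) σ : ℤ_[p]ˣ) : ℤ_[p]) : ℚ_[p]) • (y : PadicComplex p) =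
        ((a : ℚ_[p]) - (((chi p ℚ_[p] (PadicAlgCl p) σ : ℤ_[p]ˣ) : ℤ_[p]) : ℚ_[p])) •
          (y : PadicComplex p) + (z : PadicComplex p) := by
      rw [sub_smul, Nat.cast_smul_eq_nsmul, nsmul_eq_mul]
      ring
    rw [h7]
    refine (IsUltrametricDist.norm_add_le_max _ _).trans (max_le ?_ hzn)
    rw [norm_smul]
    calc _ ≤ ((p : ℝ)⁻¹) ^ n * 1 :=
          mul_le_mul (norm_chi_sub σ n) (norm_OC_le p y) (norm_nonneg _) (by positivity)
      _ = _ := mul_one _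
  have h2 : Filter.Tendsto (fun n : ℕ => ((p : ℝ)⁻¹) ^ n) Filter.atTop (nhds 0) := by
    apply tendsto_pow_atTop_nhds_zero_of_lt_one
    · positivity
    · apply inv_lt_one_of_one_lt₀
      exact_mod_cast hp.out.one_lt
  have h3 := ge_of_tendsto' h2 key
  exact sub_eq_zero.mp (norm_le_zero_iff.mp h3)

end Pool.Agent.H356R3.FM
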