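import Pool.Agent.H356R3.FM.BdR8

set_option autoImplicit false

/-!
The character `<χ>^{-1/2}` has no invariants in `B_dR`.
-/

namespace Pool.Agent.H356R3.FM

open WittVector

variable (l : ℕ) [hl : Fact l.Prime]

/-- Algebraic heart: an equation between leading coefficients. -/
theorem leading (b : Flat l) (hb : PreTilt.untilt b = (l : OC l)) (σ : GK ℚ_[l]) (c0 : Ap l)
    (hc0 : galAp l σ (xi l b) = xi l b * c0) (c : ℚ_[l]) (B : BPlus l) (j k m : ℕ)
    (u u' : (Ap l)ˣ) (a d : Ap l)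
    (ha : evalB l (j + k + m + 1) B = Ideal.Quotient.mk _ a) (had : a = (xi l b) ^ m * d)
    (heq : ofB l ((xi l b) ^ j * u') * (ofB l ((xi l b) ^ k * u) * (ofB l (jQ l c) * galBp l σ B)) =
      ofB l ((xi l b) ^ j * u') * (galBp l σ (ofB l ((xi l b) ^ k * u)) * B)) :
    ThC l (u : Ap l) * ThC l (jQ l c) * (ThC l c0) ^ m * galC l σ (ThC l d) =
      (ThC l c0) ^ k * galC l σ (ThC l (u : Ap l)) * ThC l d := by
  have h1 := congrArg (evalB l (j + k + m + 1)) heq
  rw [galBp_ofB] at h1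
  simp only [map_mul, evalB_ofB, evalB_gal, ha] at h1
  have h2 : galQ l σ (j + k + m + 1) (Ideal.Quotient.mk _ a) =
      Ideal.Quotient.mk _ (galAp l σ a) := rfl
  rw [h2] at h1
  simp only [← map_mul] at h1
  rw [Ideal.Quotient.eq, IdR_eq l b hb, Ideal.span_singleton_pow, Ideal.mem_span_singleton] at h1
  obtain ⟨e, he⟩ := h1
  rw [had] at he
  simp only [map_mul, map_pow, hc0] at he
  have h3 : (xi l b) ^ (j + k + m) * ((u' : Ap l) * ((u : Ap l) * jQ l c * c0 ^ m * galAp l σ d -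
      c0 ^ k * galAp l σ (u : Ap l) * d)) = (xi l b) ^ (j + k + m) * (xi l b * e) := by
    have e1 : (xi l b) ^ (j + k + m) * (xi l b * e) = (xi l b) ^ (j + k + m + 1) * e := by ring
    rw [e1, ← he]
    ring
  have h4 := mul_left_cancel₀ (pow_ne_zero _ (xi_ne_zero l b)) h3
  have h5 := congrArg (ThC l) h4
  rw [map_mul, map_mul (ThC l) (xi l b) e, ThC_xi l b hb, zero_mul] at h5
  have hu' : ThC l (u' : Ap l) ≠ 0 := (u'.isUnit.map (ThC l)).ne_zero
  have h6 := (mul_eq_zero.mp h5).resolve_left hu'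
  simp only [map_sub, map_mul, map_pow, ThC_gal] at h6
  exact sub_eq_zero.mp h6

theorem no_inv_BdR (hl2 : l ≠ 2) (x : BdR l)
    (hx : ∀ σ : GK ℚ_[l],
      (((rho0 l hl2 ℚ_[l] σ : ℤ_[l]ˣ) : ℤ_[l]) : ℚ_[l]) • galBAlg l σ x = x) : x = 0 := by
  obtain ⟨b, hb⟩ := exists_untilt l (l : OC l)
  obtain ⟨y, hy0, hy⟩ := cocycle hl2 hb
  obtain ⟨⟨B, s⟩, hxs⟩ := IsLocalization.surj (SB l) x
  have hxs : x * algebraMap (BPlus l) (BdR l) s = algebraMap (BPlus l) (BdR l) B := hxs
  by_contra hx0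
  obtain ⟨k, u, hs⟩ := SB_form l b hb s.1 s.2
  have hB0 : B ≠ 0 := by
    intro h
    apply hx0
    rw [h, map_zero] at hxs
    exact (IsLocalization.map_units (BdR l) s).mul_left_eq_zero.mp hxs
  have hex : ∃ n, evalB l n B ≠ 0 := by
    by_contra h
    push Not at h
    apply hB0
    apply evalB_ext l
    intro n
    rw [h n, map_zero]
  classical
  set n := Nat.find hex with hn
  have hn1 : evalB l n B ≠ 0 := Nat.find_spec hex
  have hn2 : ∀ i < n, evalB l i B = 0 := fun i hi => by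
    have := Nat.find_min hex hi
    push Not at this
    exact this
  have hnpos : n ≠ 0 := by
    intro h
    rw [h] at hn1
    apply hn1
    have hsub : Subsingleton (Ap l ⧸ (IdR l) ^ 0) := by
      rw [pow_zero, Ideal.one_eq_top]
      exact Ideal.Quotient.subsingleton_iff.mpr rfl
    exact Subsingleton.elim _ _
  obtain ⟨m, hm⟩ := Nat.exists_eq_succ_of_ne_zero hnpos
  have hspan := IdR_eq l b hb
  -- lifts at every level are divisible by `ξ ^ m`, with a well defined leading coefficient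
  have hlift : ∀ N, m + 1 ≤ N → ∀ a : Ap l, evalB l N B = Ideal.Quotient.mk _ a →
      ∃ d, a = (xi l b) ^ m * d := by
    intro N hN a ha
    have h1 : evalB l m B = 0 := hn2 m (by omega)
    rw [← evalB_factor l (show m ≤ N by omega) B, ha, Ideal.Quotient.factor_mk,
      Ideal.Quotient.eq_zero_iff_mem, hspan, Ideal.span_singleton_pow,
      Ideal.mem_span_singleton] at h1
    exact h1
  obtain ⟨a0, ha0⟩ := Ideal.Quotient.mk_surjective (evalB l (m + 1) B)
  obtain ⟨d0, hd0⟩ := hlift (m + 1) le_rfl a0 ha0.symm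
  set D : PadicComplex l := ThC l d0 with hD
  have hD0 : D ≠ 0 := by
    intro h
    obtain ⟨e, he⟩ := xi_dvd l b hb d0 h
    apply hn1
    have h1 : n = m + 1 := hm
    rw [h1, ← ha0, Ideal.Quotient.eq_zero_iff_mem, hspan, Ideal.span_singleton_pow,
      Ideal.mem_span_singleton]
    exact ⟨e, by rw [hd0, he]; ring⟩
  have hDeq : ∀ N, m + 1 ≤ N → ∀ a d : Ap l, evalB l N B = Ideal.Quotient.mk _ a →
      a = (xi l b) ^ m * d → ThC l d = D := by
    intro N hN a d ha had
    have h1 := evalB_factor l hN B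
    rw [ha, Ideal.Quotient.factor_mk, ← ha0, Ideal.Quotient.eq, hspan, Ideal.span_singleton_pow,
      Ideal.mem_span_singleton] at h1
    obtain ⟨e, he⟩ := h1
    rw [had, hd0] at he
    have h2 : (xi l b) ^ m * (d - d0) = (xi l b) ^ m * (xi l b * e) := by
      have e1 : (xi l b) ^ m * (xi l b * e) = (xi l b) ^ (m + 1) * e := by ring
      rw [e1, ← he]
      ring
    have h3 := mul_left_cancel₀ (pow_ne_zero _ (xi_ne_zero l b)) h2
    have h4 := congrArg (ThC l) h3
    rw [map_sub, map_mul, ThC_xi l b hb, zero_mul] at h4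
    exact sub_eq_zero.mp h4
  set U : PadicComplex l := ThC l (u : Ap l) with hU
  have hU0 : U ≠ 0 := (u.isUnit.map (ThC l)).ne_zero
  apply hD0
  have hz : D * y ^ k / (y ^ m * U) = 0 := by
    apply no_period l hl2 ((m : ℤ) - k)
    intro σ
    obtain ⟨v, hv⟩ := exists_cocycle hb σ
    have hyσ := hy σ v hv
    set c0 : Ap l := algebraMap (Ainf l) (Ap l) v with hc0
    have hc0' : galAp l σ (xi l b) = xi l b * c0 := by
      have h1 : xi l b = algebraMap (Ainf l) (Ap l) (xiA l b) := rfl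
      rw [h1, galAp_alg, hv, map_mul]
    have hTc0 : ThC l c0 = ((fontaineTheta (OC l) l v : OC l) : PadicComplex l) := ThC_alg l v
    rw [← hTc0] at hyσ
    set c : ℚ_[l] := (((rho0 l hl2 ℚ_[l] σ : ℤ_[l]ˣ) : ℤ_[l]) : ℚ_[l]) with hc
    -- the equation in the localization
    have h1 := hx σ
    rw [Algebra.smul_def, galBAlg_apply, algebraMap_BdR] at h1
    have h2 : galB l σ x * algebraMap (BPlus l) (BdR l) (galBp l σ s) =
        algebraMap (BPlus l) (BdR l) (galBp l σ B) := by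
      rw [← galB_alg, ← galB_alg, ← map_mul, hxs]
    have h3 : algebraMap (BPlus l) (BdR l) ((s : BPlus l) * (ofB l (jQ l c) * galBp l σ B)) =
        algebraMap (BPlus l) (BdR l) (galBp l σ s * B) := by
      rw [map_mul, map_mul, map_mul, ← h2, ← hxs]
      conv_rhs => rw [← h1]
      ring
    obtain ⟨t, ht⟩ := (IsLocalization.eq_iff_exists (SB l) (BdR l)).mp h3
    obtain ⟨j, u', hj⟩ := SB_form l b hb t.1 t.2
    rw [hj, hs] at ht
    obtain ⟨a, ha⟩ := Ideal.Quotient.mk_surjective (evalB l (j + k + m + 1) B)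
    obtain ⟨d, hd⟩ := hlift (j + k + m + 1) (by omega) a ha.symm
    have hDd := hDeq (j + k + m + 1) (by omega) a d ha.symm hd
    have h4 := leading l b hb σ c0 hc0' c B j k m u u' a d ha.symm hd ht
    rw [hDd, hc, ThC_jQ_int, ← hc, ← hU] at h4
    set C0 : PadicComplex l := ThC l c0 with hC0
    set χ : ℚ_[l] := (((chi l ℚ_[l] (PadicAlgCl l) σ : ℤ_[l]ˣ) : ℤ_[l]) : ℚ_[l]) with hχ
    set X : PadicComplex l := algebraMap ℚ_[l] (PadicComplex l) χ with hX
    have hX0 : X ≠ 0 := by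
      rw [hX, map_ne_zero]
      intro h0
      have h5 : ‖χ‖ = 1 := norm_chi (p := l) σ
      rw [h0, norm_zero] at h5
      exact zero_ne_one h5
    rw [Algebra.smul_def, ← hX] at hyσ
    have hσy0 : galC l σ y ≠ 0 := by
      intro h
      exact hy0 ((map_eq_zero _).mp h)
    have hσU0 : galC l σ U ≠ 0 := by
      intro h
      exact hU0 ((map_eq_zero _).mp h)
    have hC0e : C0 = X * y / galC l σ y := by
      rw [eq_div_iff hσy0]
      exact hyσ
    have hcoe : ((((rho0 l hl2 ℚ_[l] σ * (chiK l ℚ_[l] σ) ^ ((m : ℤ) - k) : ℤ_[l]ˣ) : ℤ_[l])) :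
        ℚ_[l]) = c * χ ^ ((m : ℤ) - k) := by
      rw [Units.val_mul, PadicInt.coe_mul, coe_zpow_unit]
      rfl
    rw [hcoe, Algebra.smul_def, map_mul, map_zpow₀, ← hX, map_div₀, map_mul, map_mul, map_pow,
      map_pow, zpow_sub₀ hX0, zpow_natCast, zpow_natCast]
    rw [hC0e] at h4
    generalize hσD : galC l σ D = D' at h4 ⊢
    generalize hσU : galC l σ U = U' at h4 hσU0 ⊢
    generalize hσy : galC l σ y = y' at h4 hσy0 ⊢
    generalize hcc : algebraMap ℚ_[l] (PadicComplex l) c = c' at h4 ⊢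
    field_simp
    rw [div_pow, div_pow, mul_pow, mul_pow] at h4
    have e1 : U * c' * (X ^ m * y ^ m / y' ^ m) * D' * (y' ^ m * y' ^ k) =
        c' * X ^ m * D' * y' ^ k * y ^ m * U := by field_simp
    have e2 : X ^ k * y ^ k / y' ^ k * U' * D * (y' ^ m * y' ^ k) =
        X ^ k * y' ^ m * U' * D * y ^ k := by field_simp
    rw [← e1, ← e2, h4]
  rw [div_eq_zero_iff] at hz
  rcases hz with hz | hz
  · rcases mul_eq_zero.mp hz with hz | hz
    · exact hz
    · exact absurd hz (pow_ne_zero _ hy0)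
  · rcases mul_eq_zero.mp hz with hz | hz
    · exact absurd hz (pow_ne_zero _ hy0)
    · exact absurd hz hU0

end Pool.Agent.H356R3.FM
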