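import Pool.Agent.H356R3.FM.Tate2

set_option autoImplicit false

/-!
The character `x ↦ <x>^{1/2}` of `ℤ_[l]ˣ`.
-/

namespace Pool.Agent.H356R3.FM

/-- In a nonarchimedean normed field, `‖w ^ N - 1‖ = ‖w - 1‖` when `w` is close to `1` and
`N` is a unit. -/
theorem norm_pow_sub_one {K : Type} [NormedField K] [IsUltrametricDist K] (w : K) (N : ℕ)
    (hw : ‖w - 1‖ < 1) (hN : ‖(N : K)‖ = 1) : ‖w ^ N - 1‖ = ‖w - 1‖ := by
  have hw1 : ‖w‖ ≤ 1 := by
    have e : w = (w - 1) + 1 := by ring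
    rw [e]
    refine (IsUltrametricDist.norm_add_le_max _ _).trans (max_le hw.le ?_)
    rw [norm_one]
  have h0 : ∀ i : ℕ, ‖w ^ i - 1‖ < 1 := by
    intro i
    induction i with
    | zero => rw [pow_zero, sub_self, norm_zero]; exact one_pos
    | succ i ih =>
      have e : w ^ (i + 1) - 1 = w * (w ^ i - 1) + (w - 1) := by ring
      rw [e]
      refine lt_of_le_of_lt (IsUltrametricDist.norm_add_le_max _ _) (max_lt ?_ hw)
      rw [norm_mul]
      calc ‖w‖ * ‖w ^ i - 1‖ ≤ 1 * ‖w ^ i - 1‖ :=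
            mul_le_mul_of_nonneg_right hw1 (norm_nonneg _)
        _ < 1 := by rw [one_mul]; exact ih
  have h1 : ‖∑ i ∈ Finset.range N, (w ^ i - 1)‖ < 1 := by
    rcases Nat.eq_zero_or_pos N with hN0 | hN0
    · subst hN0; simp
    · obtain ⟨i, hi, hle⟩ := IsUltrametricDist.exists_norm_finsetSum_le_of_nonempty
        (Finset.nonempty_range_iff.mpr hN0.ne') (fun i => w ^ i - 1)
      exact lt_of_le_of_lt hle (h0 i)
  have h2 : ∑ i ∈ Finset.range N, w ^ i = N + ∑ i ∈ Finset.range N, (w ^ i - 1) := by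
    rw [Finset.sum_sub_distrib]
    simp
  have h3 : ‖∑ i ∈ Finset.range N, w ^ i‖ = 1 := by
    rw [h2, IsUltrametricDist.norm_add_eq_max_of_norm_ne_norm, hN]
    · exact max_eq_left h1.le
    · rw [hN]; exact h1.ne'
  have h4 : w ^ N - 1 = (∑ i ∈ Finset.range N, w ^ i) * (w - 1) := (geom_sum_mul w N).symm
  rw [h4, norm_mul, h3, one_mul]

variable (l : ℕ) [hl : Fact l.Prime]

/-- the exponent `2 (l - 1)` is a unit for odd `l` -/
theorem norm_exponent (hl2 : l ≠ 2) : ‖((2 * (l - 1) : ℕ) : ℚ_[l])‖ = 1 := by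
  rw [Padic.norm_natCast_eq_one_iff, Nat.Prime.coprime_iff_not_dvd hl.out]
  intro h
  rcases (Nat.Prime.dvd_mul hl.out).mp h with h1 | h1
  · have := Nat.le_of_dvd (by norm_num) h1
    have := hl.out.two_le
    omega
  · have h2 := hl.out.two_le
    have := Nat.le_of_dvd (by omega) h1
    omega

theorem norm_exponent' (hl2 : l ≠ 2) : ‖((2 * (l - 1) : ℕ) : ℤ_[l])‖ = 1 := by
  have := norm_exponent l hl2
  rw [PadicInt.norm_def]
  exact_mod_cast this

/-- version in `ℤ_[l]` -/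
theorem norm_pow_sub_one_int (hl2 : l ≠ 2) (w : ℤ_[l]) (hw : ‖w - 1‖ < 1) :
    ‖w ^ (2 * (l - 1)) - 1‖ = ‖w - 1‖ := by
  have h := norm_pow_sub_one (K := ℚ_[l]) (w : ℚ_[l]) (2 * (l - 1)) (by
    have : ‖((w - 1 : ℤ_[l]) : ℚ_[l])‖ < 1 := hw
    push_cast at this
    exact this) (norm_exponent l hl2)
  have e1 : ‖w ^ (2 * (l - 1)) - 1‖ = ‖((w ^ (2 * (l - 1)) - 1 : ℤ_[l]) : ℚ_[l])‖ := rfl
  have e2 : ‖w - 1‖ = ‖((w - 1 : ℤ_[l]) : ℚ_[l])‖ := rfl
  rw [e1, e2]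
  push_cast
  exact h

/-- existence of the root -/
theorem exists_root (hl2 : l ≠ 2) (a : ℤ_[l]) (ha : ‖a - 1‖ < 1) :
    ∃ y : ℤ_[l], ‖y - 1‖ < 1 ∧ y ^ (2 * (l - 1)) = a := by
  open Polynomial in
  set F : ℤ_[l][X] := X ^ (2 * (l - 1)) - C a with hF
  have hd : F.derivative.eval 1 = ((2 * (l - 1) : ℕ) : ℤ_[l]) := by
    rw [hF]
    simp [derivative_X_pow]
  have he : F.eval 1 = 1 - a := by
    rw [hF]
    simp
  have h := hensels_lemma (F := F) (a := (1 : ℤ_[l])) (by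
    simp only [Polynomial.coe_aeval_eq_eval]
    rw [he, hd, norm_exponent' l hl2, one_pow, norm_sub_rev]
    exact ha)
  obtain ⟨z, hz, hz1, _⟩ := h
  simp only [Polynomial.coe_aeval_eq_eval] at hz hz1
  refine ⟨z, ?_, ?_⟩
  · rw [hd, norm_exponent' l hl2] at hz1
    exact hz1
  · rw [hF] at hz
    simp only [eval_sub, eval_pow, eval_X, eval_C] at hz
    exact sub_eq_zero.mp hz

end Pool.Agent.H356R3.FM
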