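import Pool.Agent.H356R3.FM.Char

set_option autoImplicit false

/-!
The character `x ↦ <x>^{1/2}` of `ℤ_[l]ˣ`, continued.
-/

namespace Pool.Agent.H356R3.FM

variable (l : ℕ) [hl : Fact l.Prime]

theorem unique_root (hl2 : l ≠ 2) (y y' : ℤ_[l]) (hy : ‖y - 1‖ < 1) (hy' : ‖y' - 1‖ < 1)
    (h : y ^ (2 * (l - 1)) = y' ^ (2 * (l - 1))) : y = y' := by
  have hn : ‖y'‖ = 1 := by
    have e : y' = 1 + (y' - 1) := by ring
    rw [e, IsUltrametricDist.norm_add_eq_max_of_norm_ne_norm, norm_one]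
    · exact max_eq_left hy'.le
    · rw [norm_one]; exact hy'.ne'
  have hu : IsUnit y' := PadicInt.isUnit_iff.mpr hn
  obtain ⟨u, rfl⟩ := hu
  set w : ℤ_[l] := y * ((u⁻¹ : ℤ_[l]ˣ) : ℤ_[l]) with hw
  have hw1 : ‖w - 1‖ < 1 := by
    have e : w - 1 = ((y - 1) - ((u : ℤ_[l]) - 1)) * ((u⁻¹ : ℤ_[l]ˣ) : ℤ_[l]) := by
      rw [hw]
      have : (u : ℤ_[l]) * ((u⁻¹ : ℤ_[l]ˣ) : ℤ_[l]) = 1 := Units.mul_inv u
      linear_combination this
    rw [e, norm_mul, PadicInt.norm_units, mul_one, sub_eq_add_neg (y - 1)]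
    refine lt_of_le_of_lt (IsUltrametricDist.norm_add_le_max _ _) (max_lt hy ?_)
    rw [norm_neg]
    exact hy'
  have hwN : w ^ (2 * (l - 1)) = 1 := by
    rw [hw, mul_pow, h, ← mul_pow, Units.mul_inv, one_pow]
  have h2 := norm_pow_sub_one_int l hl2 w hw1
  rw [hwN, sub_self, norm_zero] at h2
  have h3 : w = 1 := sub_eq_zero.mp (norm_eq_zero.mp h2.symm)
  have h4 : y = w * (u : ℤ_[l]) := by
    rw [hw, mul_assoc, Units.inv_mul, mul_one]
  rw [h4, h3, one_mul]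

theorem norm_fermat (x : ℤ_[l]ˣ) : ‖((x : ℤ_[l]) ^ (l - 1)) - 1‖ < 1 := by
  have h1 : PadicInt.toZMod (((x : ℤ_[l]) ^ (l - 1)) - 1) = 0 := by
    rw [map_sub, map_pow, map_one]
    have h2 : (PadicInt.toZMod (x : ℤ_[l])) ≠ 0 := by
      have : IsUnit (PadicInt.toZMod (x : ℤ_[l])) := x.isUnit.map PadicInt.toZMod
      exact this.ne_zero
    rw [ZMod.pow_card_sub_one_eq_one h2, sub_self]
  have h3 : ((x : ℤ_[l]) ^ (l - 1)) - 1 ∈ RingHom.ker (PadicInt.toZMod (p := l)) := h1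
  rw [PadicInt.ker_toZMod, IsLocalRing.mem_maximalIdeal] at h3
  exact PadicInt.mem_nonunits.mp h3

theorem exists_sq (hl2 : l ≠ 2) (x : ℤ_[l]ˣ) :
    ∃ y : ℤ_[l], ‖y - 1‖ < 1 ∧ y ^ (2 * (l - 1)) = (x : ℤ_[l]) ^ (l - 1) :=
  exists_root l hl2 _ (norm_fermat l x)

/-- `<x>^{1/2}` -/
noncomputable def sq (hl2 : l ≠ 2) (x : ℤ_[l]ˣ) : ℤ_[l] := (exists_sq l hl2 x).choose

theorem sq_spec (hl2 : l ≠ 2) (x : ℤ_[l]ˣ) :
    ‖sq l hl2 x - 1‖ < 1 ∧ (sq l hl2 x) ^ (2 * (l - 1)) = (x : ℤ_[l]) ^ (l - 1) :=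
  (exists_sq l hl2 x).choose_spec

/-- `x ↦ <x>^{1/2}` as a homomorphism. -/
noncomputable def psi (hl2 : l ≠ 2) : ℤ_[l]ˣ →* ℤ_[l]ˣ := MonoidHom.toHomUnits
  { toFun := sq l hl2
    map_one' := by
      apply unique_root l hl2
      · exact (sq_spec l hl2 1).1
      · rw [sub_self, norm_zero]; exact one_pos
      · rw [(sq_spec l hl2 1).2]; simp
    map_mul' := by
      intro x y
      apply unique_root l hl2
      · exact (sq_spec l hl2 _).1
      · have e : sq l hl2 x * sq l hl2 y - 1 =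
          (sq l hl2 x - 1) * sq l hl2 y + (sq l hl2 y - 1) := by ring
        rw [e]
        refine lt_of_le_of_lt (IsUltrametricDist.norm_add_le_max _ _)
          (max_lt ?_ (sq_spec l hl2 y).1)
        rw [norm_mul]
        calc ‖sq l hl2 x - 1‖ * ‖sq l hl2 y‖ ≤ ‖sq l hl2 x - 1‖ * 1 :=
              mul_le_mul_of_nonneg_left (PadicInt.norm_le_one _) (norm_nonneg _)
          _ < 1 := by rw [mul_one]; exact (sq_spec l hl2 x).1
      · rw [(sq_spec l hl2 _).2, mul_pow, (sq_spec l hl2 x).2, (sq_spec l hl2 y).2, ← mul_pow]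
        rfl }

theorem psi_val (hl2 : l ≠ 2) (x : ℤ_[l]ˣ) : ((psi l hl2 x : ℤ_[l]ˣ) : ℤ_[l]) = sq l hl2 x := rfl

theorem psi_pow (hl2 : l ≠ 2) (x : ℤ_[l]ˣ) : (psi l hl2 x) ^ (2 * (l - 1)) = x ^ (l - 1) := by
  apply Units.ext
  rw [Units.val_pow_eq_pow_val, Units.val_pow_eq_pow_val, psi_val]
  exact (sq_spec l hl2 x).2

theorem psi_continuous (hl2 : l ≠ 2) : Continuous (psi l hl2) := by
  refine Continuous.of_coeHom_comp ?_
  apply continuous_of_continuousAt_one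
  rw [ContinuousAt, map_one, Metric.tendsto_nhds]
  intro ε hε
  have h1 : Filter.Tendsto (fun x : ℤ_[l]ˣ => (x : ℤ_[l]) ^ (l - 1)) (nhds 1) (nhds 1) := by
    have : Continuous (fun x : ℤ_[l]ˣ => (x : ℤ_[l]) ^ (l - 1)) :=
      (Units.continuous_val).pow _
    have h := this.tendsto 1
    simpa using h
  filter_upwards [(Metric.tendsto_nhds.mp h1) ε hε] with x hx
  show dist (sq l hl2 x) 1 < ε
  rw [dist_eq_norm] at hx ⊢
  rw [← norm_pow_sub_one_int l hl2 _ (sq_spec l hl2 x).1, (sq_spec l hl2 x).2]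
  exact hx

end Pool.Agent.H356R3.FM
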