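import Pool.Agent.H356R3.FM.Ax2

set_option autoImplicit false

/-!
Cyclotomic facts over `ℚ_[p]`: irreducibility of the prime power cyclotomic polynomials,
Galois action on roots of unity, norm of `ζ - 1`, integral expansions.
-/

namespace Pool.Agent.H356R3.FM

open Polynomial

variable {p : ℕ} [hp : Fact p.Prime]

theorem irred_cyclotomic (n : ℕ) : Irreducible (cyclotomic (p ^ (n + 1)) ℚ_[p]) := by
  have hE := cyclotomic_prime_pow_comp_X_add_one_isEisensteinAt p n
  set f := (cyclotomic (p ^ (n + 1)) ℤ).comp (X + 1) with hf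
  have hfm : f.Monic := by
    rw [hf, show (X + 1 : ℤ[X]) = X + C 1 by simp]
    refine (cyclotomic.monic _ ℤ).comp (monic_X_add_C 1) fun h => ?_
    rw [natDegree_X_add_C] at h
    exact zero_ne_one h.symm
  set g := f.map (Int.castRingHom ℤ_[p]) with hg
  have hgm : g.Monic := hfm.map _
  have hgd : g.natDegree = f.natDegree := hfm.natDegree_map _
  have hpp : Prime ((p : ℤ_[p])) := PadicInt.prime_p
  have hprime : (Ideal.span {(p : ℤ_[p])}).IsPrime :=
    (Ideal.span_singleton_prime hpp.ne_zero).mpr hpp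
  have hgE : g.IsEisensteinAt (Ideal.span {(p : ℤ_[p])}) := by
    refine Monic.isEisensteinAt_of_mem_of_notMem hgm hprime.ne_top ?_ ?_
    · intro i hi
      rw [hgd] at hi
      have h1 := hE.mem hi
      rw [Ideal.submodule_span_eq, Ideal.mem_span_singleton] at h1
      rw [hg, coeff_map, Ideal.mem_span_singleton]
      obtain ⟨c, hc⟩ := h1
      rw [hc]
      simp
    · have h1 : f.coeff 0 = p := by
        rw [hf, coeff_zero_eq_eval_zero, eval_comp]
        simp only [eval_add, eval_X, eval_one, zero_add]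
        exact eval_one_cyclotomic_prime_pow n
      rw [hg, coeff_map, h1, Ideal.span_singleton_pow, Ideal.mem_span_singleton]
      simp only [eq_intCast, Int.cast_natCast]
      intro h
      have h2 : (p : ℤ_[p]) ^ 2 ∣ (p : ℤ_[p]) ^ 1 := by rw [pow_one]; exact h
      have h3 := (pow_dvd_pow_iff hpp.ne_zero hpp.not_unit).mp h2
      omega
  have hfd : 0 < g.natDegree := by
    rw [hgd, hf, show (X + 1 : ℤ[X]) = X + C 1 by simp, natDegree_comp, natDegree_X_add_C,
      mul_one, natDegree_cyclotomic]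
    exact Nat.totient_pos.mpr (pow_pos hp.out.pos _)
  have hirr : Irreducible g := hgE.irreducible hprime hgm.isPrimitive hfd
  have hirr2 : Irreducible (g.map (algebraMap ℤ_[p] ℚ_[p])) :=
    (hgm.irreducible_iff_irreducible_map_fraction_map (K := ℚ_[p])).mp hirr
  have heq : g.map (algebraMap ℤ_[p] ℚ_[p]) =
      taylor 1 (cyclotomic (p ^ (n + 1)) ℚ_[p]) := by
    rw [hg, hf, taylor_apply]
    simp [Polynomial.map_comp, Polynomial.map_map]
  rw [heq] at hirr2
  have := (MulEquiv.irreducible_iff (taylorEquiv (1 : ℚ_[p]))).mp hirr2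
  exact this

theorem minpoly_zeta (n : ℕ) (ζ : PadicAlgCl p) (hζ : IsPrimitiveRoot ζ (p ^ (n + 1))) :
    minpoly ℚ_[p] ζ = cyclotomic (p ^ (n + 1)) ℚ_[p] := by
  symm
  apply minpoly.eq_of_irreducible_of_monic (irred_cyclotomic n)
  · rw [aeval_def, ← eval_map, map_cyclotomic]
    exact hζ.isRoot_cyclotomic (pow_pos hp.out.pos _)
  · exact cyclotomic.monic _ _

/-- The Galois group acts transitively on primitive `p ^ (n+1)`-th roots of unity. -/
theorem exists_gal_of_primitive (n : ℕ) (ζ μ : PadicAlgCl p)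
    (hζ : IsPrimitiveRoot ζ (p ^ (n + 1))) (hμ : IsPrimitiveRoot μ (p ^ (n + 1))) :
    ∃ σ : PadicAlgCl p ≃ₐ[ℚ_[p]] PadicAlgCl p, σ ζ = μ := by
  apply minpoly.exists_algEquiv_of_root'
  · exact Algebra.IsAlgebraic.isAlgebraic ζ
  · rw [minpoly_zeta n ζ hζ, aeval_def, ← eval_map, map_cyclotomic]
    exact hμ.isRoot_cyclotomic (pow_pos hp.out.pos _)

/-- The norm of `ζ - 1`. -/
theorem norm_zeta_sub_one (n : ℕ) (ζ : PadicAlgCl p) (hζ : IsPrimitiveRoot ζ (p ^ (n + 1))) :
    ‖ζ - 1‖ ^ (Nat.totient (p ^ (n + 1))) = (p : ℝ)⁻¹ := by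
  have h1 : eval 1 (cyclotomic (p ^ (n + 1)) (PadicAlgCl p)) = (p : PadicAlgCl p) :=
    eval_one_cyclotomic_prime_pow n
  rw [cyclotomic_eq_prod_X_sub_primitiveRoots hζ, eval_prod] at h1
  have h2 : ‖∏ μ ∈ primitiveRoots (p ^ (n + 1)) (PadicAlgCl p), eval 1 (X - C μ)‖ =
      ‖(p : PadicAlgCl p)‖ := by rw [h1]
  rw [norm_prod] at h2
  have h3 : ∀ μ ∈ primitiveRoots (p ^ (n + 1)) (PadicAlgCl p),
      ‖eval 1 (X - C μ)‖ = ‖ζ - 1‖ := by
    intro μ hμ
    have hμ' := isPrimitiveRoot_of_mem_primitiveRoots hμ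
    obtain ⟨σ, hσ⟩ := exists_gal_of_primitive n ζ μ hζ hμ'
    rw [eval_sub, eval_X, eval_C, norm_sub_rev]
    have : μ - 1 = σ (ζ - 1) := by rw [map_sub, hσ, map_one]
    rw [this, norm_gal]
  rw [Finset.prod_congr rfl h3, Finset.prod_const, hζ.card_primitiveRoots] at h2
  rw [h2, norm_nat, Padic.norm_p]

end Pool.Agent.H356R3.FM
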