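import Pool.Agent.H356R3.FM.Cyc

set_option autoImplicit false

/-!
Integral expansions in powers of `ζ - 1`.
-/

namespace Pool.Agent.H356R3.FM

open Polynomial

variable {p : ℕ} [hp : Fact p.Prime]

theorem norm_term_pow (N : ℕ) (π : PadicAlgCl p) (hπ : ‖π‖ ^ N = (p : ℝ)⁻¹) (c : ℚ_[p])
    (hc : c ≠ 0) (i : ℕ) :
    (‖c‖ * ‖π‖ ^ i) ^ N = (p : ℝ) ^ (-(N * c.valuation + i) : ℤ) := by
  have hp0 : (p : ℝ) ≠ 0 := by exact_mod_cast hp.out.ne_zero
  rw [mul_pow, ← pow_mul, mul_comm i N, pow_mul, hπ, Padic.norm_eq_zpow_neg_valuation hc]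
  rw [← zpow_natCast, ← zpow_mul, inv_pow, ← zpow_natCast (p : ℝ) i, ← zpow_neg, ← zpow_add₀ hp0]
  congr 1
  ring

/-- expansion of integral elements of `ℚ_p(ζ)` in powers of `ζ - 1`. -/
theorem expansion (n : ℕ) (ζ : PadicAlgCl p) (hζ : IsPrimitiveRoot ζ (p ^ (n + 1)))
    (x : PadicAlgCl p) (hx : x ∈ IntermediateField.adjoin ℚ_[p] {ζ}) (hx1 : ‖x‖ ≤ 1) :
    ∃ (N : ℕ) (c : ℕ → ℚ_[p]), (∀ i, ‖c i‖ ≤ 1) ∧
      x = ∑ i ∈ Finset.range N, c i • (ζ - 1) ^ i := by
  have hp1 : (1 : ℝ) < p := by exact_mod_cast hp.out.one_lt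
  have hp0 : (0 : ℝ) < p := by linarith
  set N := Nat.totient (p ^ (n + 1)) with hN
  have hN0 : 0 < N := Nat.totient_pos.mpr (pow_pos hp.out.pos _)
  set π := ζ - 1 with hπdef
  have hπ : ‖π‖ ^ N = (p : ℝ)⁻¹ := norm_zeta_sub_one n ζ hζ
  have hπ0 : 0 < ‖π‖ := by
    rcases (norm_nonneg π).lt_or_eq with h | h
    · exact h
    · exfalso
      rw [← h, zero_pow hN0.ne'] at hπ
      have : (0 : ℝ) < (p : ℝ)⁻¹ := by positivity
      linarith
  have hζi : IsIntegral ℚ_[p] ζ := (Algebra.IsAlgebraic.isAlgebraic ζ).isIntegral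
  have hπi : IsIntegral ℚ_[p] π := (Algebra.IsAlgebraic.isAlgebraic π).isIntegral
  -- x is a polynomial in π
  obtain ⟨Q, hQ⟩ : ∃ Q : ℚ_[p][X], aeval ζ Q = x := by
    have h1 : x ∈ (IntermediateField.adjoin ℚ_[p] {ζ}).toSubalgebra := hx
    rw [IntermediateField.adjoin_simple_toSubalgebra_of_isAlgebraic
      (Algebra.IsAlgebraic.isAlgebraic ζ), Algebra.adjoin_singleton_eq_range_aeval] at h1
    exact h1
  have hmin : (minpoly ℚ_[p] π).natDegree = N := by
    have h1 : π = ζ - algebraMap ℚ_[p] (PadicAlgCl p) 1 := by rw [map_one]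
    rw [h1, minpoly.sub_algebraMap, natDegree_comp, natDegree_X_add_C, mul_one,
      minpoly_zeta n ζ hζ, natDegree_cyclotomic]
  set P := (Q.comp (X + C 1)) %ₘ (minpoly ℚ_[p] π) with hP
  have hPx : aeval π P = x := by
    rw [hP, modByMonic_eq_sub_mul_div, map_sub, map_mul, minpoly.aeval, zero_mul, sub_zero,
      aeval_comp]
    simp only [map_add, aeval_X, aeval_C, map_one]
    rw [hπdef, sub_add_cancel, hQ]
  have hPd : P.natDegree < N := by
    rw [← hmin]
    apply natDegree_modByMonic_lt _ (minpoly.monic hπi)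
    intro h1
    have := hmin
    rw [h1, natDegree_one] at this
    omega
  have hsum : x = ∑ i ∈ Finset.range N, P.coeff i • π ^ i := by
    rw [← hPx]
    exact aeval_eq_sum_range' hPd π
  -- terms
  set t : ℕ → PadicAlgCl p := fun i => P.coeff i • π ^ i with ht
  have htn : ∀ i, ‖t i‖ = ‖P.coeff i‖ * ‖π‖ ^ i := by
    intro i
    rw [ht]
    simp only
    rw [norm_smul, norm_pow]
  have hdist : ∀ i ∈ Finset.range N, ∀ j ∈ Finset.range N, t i ≠ 0 → ‖t i‖ = ‖t j‖ → i = j := by
    intro i hi j hj hi0 hij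
    have hci : P.coeff i ≠ 0 := by
      intro h0
      apply hi0
      rw [ht]
      simp only
      rw [h0, zero_smul]
    have hcj : P.coeff j ≠ 0 := by
      intro h0
      have : t j = 0 := by
        rw [ht]
        simp only
        rw [h0, zero_smul]
      rw [this, norm_zero] at hij
      exact hi0 (norm_eq_zero.mp hij)
    have h1 : ‖t i‖ ^ N = ‖t j‖ ^ N := by rw [hij]
    rw [htn, htn, norm_term_pow N π hπ _ hci, norm_term_pow N π hπ _ hcj] at h1
    have h2 := zpow_right_injective₀ hp0 hp1.ne' h1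
    rw [Finset.mem_range] at hi hj
    have h3 : (N : ℤ) * ((P.coeff i).valuation - (P.coeff j).valuation) = (j : ℤ) - i := by
      have h2' : -((N : ℤ) * (P.coeff i).valuation + i) =
        -((N : ℤ) * (P.coeff j).valuation + j) := h2
      linarith
    set w := (P.coeff i).valuation - (P.coeff j).valuation with hw
    have h4 : w = 0 := by
      by_contra hw0
      rcases lt_or_gt_of_ne hw0 with h | h
      · have h5 : w ≤ -1 := by omega
        nlinarith
      · have h5 : 1 ≤ w := by omega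
        nlinarith
    rw [h4, mul_zero] at h3
    omega
  have hbound : ∀ i ∈ Finset.range N, ‖t i‖ ≤ 1 := by
    obtain ⟨k, hk, hmax⟩ := Finset.exists_max_image (Finset.range N) (fun i => ‖t i‖)
      ⟨0, Finset.mem_range.mpr hN0⟩
    intro i hi
    refine (hmax i hi).trans ?_
    by_cases hk0 : t k = 0
    · rw [hk0, norm_zero]; exact zero_le_one
    · have h1 : ‖∑ i ∈ Finset.range N, t i‖ = ‖t k‖ := by
        apply IsNonarchimedean.apply_sum_eq_of_lt (PadicAlgCl.isNonarchimedean p)
          (fun a => (norm_neg a).symm) hk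
        intro j hj hjk
        rcases (hmax j hj).lt_or_eq with h | h
        · exact h
        · exfalso
          exact hjk (hdist k hk j hj hk0 h.symm).symm
      rw [← h1, ← hsum]
      exact hx1
  refine ⟨N, fun i => if i < N then P.coeff i else 0, ?_, ?_⟩
  · intro i
    show ‖if i < N then P.coeff i else 0‖ ≤ 1
    split_ifs with hi
    · by_cases hc : P.coeff i = 0
      · rw [hc, norm_zero]; exact zero_le_one
      · have h1 := hbound i (Finset.mem_range.mpr hi)
        have h2 : ‖t i‖ ^ N ≤ 1 := pow_le_one₀ (norm_nonneg _) h1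
        rw [htn, norm_term_pow N π hπ _ hc] at h2
        have h3 : (-(N * (P.coeff i).valuation + i) : ℤ) ≤ 0 := by
          by_contra hcon
          push Not at hcon
          have := one_lt_zpow₀ hp1 hcon
          linarith
        rw [Padic.norm_le_one_iff_val_nonneg]
        by_contra hneg
        push Not at hneg
        have h5 : (P.coeff i).valuation ≤ -1 := by omega
        have h6 : (i : ℤ) < N := by exact_mod_cast hi
        nlinarith
    · rw [norm_zero]; exact zero_le_one
  · rw [hsum]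
    apply Finset.sum_congr rfl
    intro i hi
    show P.coeff i • π ^ i = (if i < N then P.coeff i else 0) • π ^ i
    rw [if_pos (Finset.mem_range.mp hi)]

end Pool.Agent.H356R3.FM
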