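import Mathlib

set_option autoImplicit false
set_option warn.classDefReducibility false

/-!
Functoriality of Mathlib's period rings `BDeRhamPlus R p` and `BDeRham R p` for automorphisms of
`R`, and the `ℚ_[p]`-algebra structure.
-/

namespace Pool.Agent.H356R3.FM

open WittVector

section generic

variable (R : Type) [CommRing R] (p : ℕ) [hp : Fact p.Prime] [hu : Fact (¬ IsUnit (p : R))]

/-- `A_inf(R) = W(R♭)` -/
def AI : Type := WittVector p (PreTilt R p)

noncomputable def AI.commRing : CommRing (AI R p) :=
  (inferInstance : CommRing (WittVector p (PreTilt R p)))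

attribute [instance] AI.commRing

/-- `A_inf(R)[1/p]` -/
def AP : Type := Localization.Away (p : WittVector p (PreTilt R p))

noncomputable def AP.commRing : CommRing (AP R p) :=
  (inferInstance : CommRing (Localization.Away (p : WittVector p (PreTilt R p))))

attribute [instance] AP.commRing

/-- `A_inf(R) → A_inf(R)[1/p]` -/
noncomputable def toAP : AI R p →+* AP R p :=
  algebraMap (WittVector p (PreTilt R p)) (Localization.Away (p : WittVector p (PreTilt R p)))

variable {R}

/-- The map of the tilt induced by `f`. -/
noncomputable def mapPre (f : R →+* R) : PreTilt R p →+* PreTilt R p :=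
  Perfection.map p (Ideal.quotientMap (Ideal.span {(p : R)}) f (by
    rw [Ideal.span_le, Set.singleton_subset_iff]
    show f (p : R) ∈ Ideal.span {(p : R)}
    rw [map_natCast]
    exact Ideal.mem_span_singleton_self _))

/-- The map of `A_inf` induced by `f`. -/
noncomputable def mapAI (f : R →+* R) : AI R p →+* AI R p :=
  (WittVector.map (mapPre p f) : WittVector p (PreTilt R p) →+* WittVector p (PreTilt R p))

theorem mapAP_unit (f : R →+* R) :
    IsUnit ((toAP R p).comp (mapAI p f) (p : WittVector p (PreTilt R p))) := by
  have h1 : (toAP R p).comp (mapAI p f) (p : WittVector p (PreTilt R p)) = (p : AP R p) :=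
    map_natCast ((toAP R p).comp (mapAI p f)) p
  rw [h1]
  have h2 : IsUnit (algebraMap (WittVector p (PreTilt R p))
    (Localization.Away (p : WittVector p (PreTilt R p))) (p : WittVector p (PreTilt R p))) :=
    IsLocalization.Away.algebraMap_isUnit _
  rw [map_natCast] at h2
  exact h2

/-- The map of `A_inf[1/p]` induced by `f`. -/
noncomputable def mapAP (f : R →+* R) : AP R p →+* AP R p :=
  IsLocalization.Away.lift (S := Localization.Away (p : WittVector p (PreTilt R p)))
    (p : WittVector p (PreTilt R p)) (mapAP_unit p f)

variable (R)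
variable [hc : IsAdicComplete (Ideal.span {(p : R)}) R]

/-- The kernel of Fontaine's map `θ` on `A_inf[1/p]`. -/
noncomputable def kerTheta : Ideal (AP R p) := RingHom.ker (fontaineThetaInvertP R p)

/-- `A_inf(R)[1/p] → B_dR^+(R)` -/
noncomputable def toBP : AP R p →+* BDeRhamPlus R p :=
  (algebraMap (AP R p) (AdicCompletion (kerTheta R p) (AP R p)) :
    AP R p →+* AdicCompletion (kerTheta R p) (AP R p))

/-- `A_inf(R)[1/p] / (ker θ) ^ n` -/
def QK (n : ℕ) : Type := AP R p ⧸ (kerTheta R p) ^ n

noncomputable def QK.commRing (n : ℕ) : CommRing (QK R p n) :=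
  (inferInstance : CommRing (AP R p ⧸ (kerTheta R p) ^ n))

attribute [instance] QK.commRing

/-- `B_dR^+(R) → A_inf(R)[1/p] / (ker θ) ^ n` -/
noncomputable def modK (n : ℕ) : BDeRhamPlus R p →+* QK R p n :=
  (AdicCompletion.evalₐ (kerTheta R p) n :
    AdicCompletion (kerTheta R p) (AP R p) →+* AP R p ⧸ (kerTheta R p) ^ n)

/-- The submonoid inverted in the definition of `BDeRham`: it is generated by the images of the
generators of the ideal `ker θ`. -/
noncomputable def invSub : Submonoid (BDeRhamPlus R p) :=
  Submonoid.closure (toBP R p '' {a | kerTheta R p = Ideal.span {a}})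

noncomputable def BDeRham.commRing' : CommRing (BDeRham R p) :=
  (inferInstance : CommRing (Localization (invSub R p)))

attribute [instance] BDeRham.commRing'

/-- `B_dR^+(R) → B_dR(R)` -/
noncomputable def toBD : BDeRhamPlus R p →+* BDeRham R p :=
  algebraMap (BDeRhamPlus R p) (Localization (invSub R p))

end generic

end Pool.Agent.H356R3.FM
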