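import Pool.Agent.H356R3.FM.DR1

set_option autoImplicit false

/-!
Naturality of Fontaine's map `θ` and functoriality of the period rings.
-/

namespace Pool.Agent.H356R3.FM

open WittVector

section generic

variable {R : Type} [CommRing R] (p : ℕ) [hp : Fact p.Prime] [hu : Fact (¬ IsUnit (p : R))]

theorem toAP_eq (x : AI R p) : toAP R p x =
    algebraMap (WittVector p (PreTilt R p)) (Localization.Away (p : WittVector p (PreTilt R p))) x :=
  rfl

theorem mapAP_toAP (f : R →+* R) (x : AI R p) :
    mapAP p f (toAP R p x) = toAP R p (mapAI p f x) :=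
  IsLocalization.Away.lift_eq (S := Localization.Away (p : WittVector p (PreTilt R p)))
    (p : WittVector p (PreTilt R p)) (mapAP_unit p f) x

theorem AP_hom_ext {S : Type} [CommRing S] (g h : AP R p →+* S)
    (hgh : ∀ x, g (toAP R p x) = h (toAP R p x)) : g = h := by
  refine IsLocalization.ringHom_ext (S := Localization.Away (p : WittVector p (PreTilt R p)))
    (Submonoid.powers (p : WittVector p (PreTilt R p))) (j := g) (k := h) ?_
  ext x
  exact hgh x

theorem mapPre_coeff (f : R →+* R) (a : PreTilt R p) (n : ℕ) :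
    PreTilt.coeff n (mapPre p f a) = Ideal.quotientMap (Ideal.span {(p : R)}) f (by
      rw [Ideal.span_le, Set.singleton_subset_iff]
      show f (p : R) ∈ Ideal.span {(p : R)}
      rw [map_natCast]
      exact Ideal.mem_span_singleton_self _) (PreTilt.coeff n a) := rfl

theorem mapPre_comp (f g : R →+* R) (a : PreTilt R p) :
    mapPre p f (mapPre p g a) = mapPre p (f.comp g) a := by
  apply Perfection.ext
  intro n
  obtain ⟨x, hx⟩ := Ideal.Quotient.mk_surjective (Perfection.coeff (ModP R p) p n a)
  have h1 : ∀ (h : R →+* R) (b : PreTilt R p), Perfection.coeff (ModP R p) p n (mapPre p h b) =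
      Ideal.quotientMap (Ideal.span {(p : R)}) h (by
        rw [Ideal.span_le, Set.singleton_subset_iff]
        show h (p : R) ∈ Ideal.span {(p : R)}
        rw [map_natCast]
        exact Ideal.mem_span_singleton_self _) (Perfection.coeff (ModP R p) p n b) :=
    fun h b => rfl
  rw [h1, h1, h1, ← hx]
  rfl

theorem mapPre_id (a : PreTilt R p) : mapPre p (RingHom.id R) a = a := by
  apply Perfection.ext
  intro n
  obtain ⟨x, hx⟩ := Ideal.Quotient.mk_surjective (Perfection.coeff (ModP R p) p n a)
  have h1 : ∀ (h : R →+* R) (b : PreTilt R p), Perfection.coeff (ModP R p) p n (mapPre p h b) =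
      Ideal.quotientMap (Ideal.span {(p : R)}) h (by
        rw [Ideal.span_le, Set.singleton_subset_iff]
        show h (p : R) ∈ Ideal.span {(p : R)}
        rw [map_natCast]
        exact Ideal.mem_span_singleton_self _) (Perfection.coeff (ModP R p) p n b) :=
    fun h b => rfl
  rw [h1, ← hx]
  rfl

theorem mapAI_comp (f g : R →+* R) (x : AI R p) :
    mapAI p f (mapAI p g x) = mapAI p (f.comp g) x := by
  apply WittVector.ext
  intro n
  have h1 : ∀ (h : R →+* R) (b : AI R p), WittVector.coeff (mapAI p h b) n =
      mapPre p h (WittVector.coeff b n) := fun h b => WittVector.map_coeff _ _ _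
  rw [h1, h1, h1, mapPre_comp]

theorem mapAI_id (x : AI R p) : mapAI p (RingHom.id R) x = x := by
  apply WittVector.ext
  intro n
  have h1 : ∀ (h : R →+* R) (b : AI R p), WittVector.coeff (mapAI p h b) n =
      mapPre p h (WittVector.coeff b n) := fun h b => WittVector.map_coeff _ _ _
  rw [h1, mapPre_id]

theorem mapAP_comp (f g : R →+* R) (x : AP R p) :
    mapAP p f (mapAP p g x) = mapAP p (f.comp g) x := by
  have key : (mapAP p f).comp (mapAP p g) = mapAP p (f.comp g) := by
    apply AP_hom_ext
    intro x
    rw [RingHom.comp_apply, mapAP_toAP, mapAP_toAP, mapAP_toAP, mapAI_comp]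
  exact RingHom.congr_fun key x

theorem mapAP_id (x : AP R p) : mapAP p (RingHom.id R) x = x := by
  have key : mapAP p (RingHom.id R) = RingHom.id (AP R p) := by
    apply AP_hom_ext
    intro x
    rw [mapAP_toAP, mapAI_id]
    rfl
  exact RingHom.congr_fun key x

variable [hc : IsAdicComplete (Ideal.span {(p : R)}) R]

/-- Elements of the tilt as compatible systems of `p`-power roots. -/
noncomputable def pfEquiv : Perfection R p ≃* PreTilt R p :=
  Perfection.quotientMulEquiv p (Ideal.span {(p : R)})

theorem pf_untilt (t : Perfection R p) :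
    PreTilt.untilt (pfEquiv p t) = Perfection.coeffMonoidHom R p 0 t := by
  have h := Perfection.coeff_zero_symm_quotientMulEquiv (p := p)
    (I := Ideal.span {(p : R)}) (pfEquiv p t)
  have h2 : (Perfection.quotientMulEquiv p (Ideal.span {(p : R)})).symm (pfEquiv p t) = t :=
    (Perfection.quotientMulEquiv p (Ideal.span {(p : R)})).symm_apply_apply t
  rw [h2] at h
  exact h.symm

theorem untilt_map (f : R →+* R) (a : PreTilt R p) :
    PreTilt.untilt (mapPre p f a) = f (PreTilt.untilt a) := by
  obtain ⟨t, rfl⟩ := (pfEquiv p).surjective a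
  let t' : Perfection R p := Perfection.mapMonoidHom p (f : R →* R) t
  have h1 : mapPre p f (pfEquiv p t) = pfEquiv p t' := by
    apply Perfection.ext
    intro n
    rfl
  rw [h1, pf_untilt, pf_untilt]
  rfl

theorem theta_map (f : R →+* R) (x : WittVector p (PreTilt R p)) :
    fontaineTheta R p (mapAI p f x) = f (fontaineTheta R p x) := by
  have hH : IsHausdorff (Ideal.span {(p : R)}) R := hc.toIsHausdorff
  rw [← sub_eq_zero]
  apply hH.haus
  intro n
  rw [smul_eq_mul, Ideal.mul_top, SModEq.zero, ← Ideal.Quotient.eq_zero_iff_mem]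
  have key : (Ideal.Quotient.mk ((Ideal.span {(p : R)}) ^ n)).comp
      ((fontaineTheta R p).comp (WittVector.map (mapPre p f))) =
      (Ideal.Quotient.mk ((Ideal.span {(p : R)}) ^ n)).comp
      (f.comp (fontaineTheta R p)) := by
    apply eq_of_apply_teichmuller_eq
    · refine ⟨n, ?_⟩
      have h1 : ((p : R ⧸ (Ideal.span {(p : R)}) ^ n)) =
          Ideal.Quotient.mk ((Ideal.span {(p : R)}) ^ n) (p : R) := by
        rw [map_natCast]
      rw [h1, ← map_pow, Ideal.Quotient.eq_zero_iff_mem]
      exact Ideal.pow_mem_pow (Ideal.mem_span_singleton_self _) n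
    · intro a
      simp only [RingHom.comp_apply]
      rw [WittVector.map_teichmuller, fontaineTheta_teichmuller, fontaineTheta_teichmuller,
        untilt_map]
  have h2 := RingHom.congr_fun key x
  simp only [RingHom.comp_apply] at h2
  have h3 : mapAI p f x = WittVector.map (mapPre p f) x := rfl
  rw [map_sub, h3, h2, sub_self]

/-- `θ` on `A_inf[1/p]` -/
noncomputable def thR : AP R p →+* Localization.Away (p : R) := fontaineThetaInvertP R p

theorem kerTheta_map (f : R →+* R) : kerTheta R p ≤ (kerTheta R p).comap (mapAP p f) := by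
  intro x hx
  have hp' : IsUnit (((algebraMap R (Localization.Away (p : R))).comp f) (p : R)) := by
    rw [RingHom.comp_apply, map_natCast]
    exact IsLocalization.Away.algebraMap_isUnit (p : R)
  let F : Localization.Away (p : R) →+* Localization.Away (p : R) :=
    IsLocalization.Away.lift (S := Localization.Away (p : R)) (p : R) hp'
  have hF : ∀ r : R, F (algebraMap R (Localization.Away (p : R)) r) =
      algebraMap R (Localization.Away (p : R)) (f r) := fun r =>
    IsLocalization.Away.lift_eq (S := Localization.Away (p : R)) (p : R) hp' r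
  have hp'' : IsUnit (((algebraMap R (Localization.Away (p : R))).comp (fontaineTheta R p))
      (p : WittVector p (PreTilt R p))) := by
    rw [RingHom.comp_apply, map_natCast]
    exact IsLocalization.Away.algebraMap_isUnit (p : R)
  have hT : ∀ y : AI R p, thR p (toAP R p y) =
      algebraMap R (Localization.Away (p : R))
        (fontaineTheta R p (y : WittVector p (PreTilt R p))) := fun y =>
    IsLocalization.Away.lift_eq
      (S := Localization.Away (p : WittVector p (PreTilt R p))) (p : WittVector p (PreTilt R p))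
      hp'' y
  have key : (thR p).comp (mapAP p f) = F.comp (thR p) := by
    apply AP_hom_ext
    intro y
    rw [RingHom.comp_apply, RingHom.comp_apply, mapAP_toAP, hT, hT, hF]
    exact congrArg _ (theta_map p f y)
  have h2 := RingHom.congr_fun key x
  rw [RingHom.comp_apply, RingHom.comp_apply] at h2
  have h3 : thR p x = 0 := hx
  show thR p (mapAP p f x) = 0
  rw [h2, h3, map_zero]

theorem kerTheta_map_pow (f : R →+* R) (n : ℕ) :
    (kerTheta R p) ^ n ≤ ((kerTheta R p) ^ n).comap (mapAP p f) := by
  refine le_trans ?_ (Ideal.le_comap_pow (mapAP p f) n)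
  exact Ideal.pow_right_mono (kerTheta_map p f) n

/-- `A_inf[1/p] → A_inf[1/p] / (ker θ) ^ n` -/
noncomputable def mkQK (R : Type) [CommRing R] (p : ℕ) [hp : Fact p.Prime]
    [hu : Fact (¬ IsUnit (p : R))] [hc : IsAdicComplete (Ideal.span {(p : R)}) R] (n : ℕ) :
    AP R p →+* QK R p n := (Ideal.Quotient.mk ((kerTheta R p) ^ n) :
    AP R p →+* AP R p ⧸ (kerTheta R p) ^ n)

theorem mkQK_surjective (n : ℕ) : Function.Surjective (mkQK R p n) :=
  Ideal.Quotient.mk_surjective (I := (kerTheta R p) ^ n)

/-- The map of `A_inf[1/p] / (ker θ) ^ n` induced by `f`. -/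
noncomputable def mapQR (f : R →+* R) (n : ℕ) : QK R p n →+* QK R p n :=
  (Ideal.quotientMap ((kerTheta R p) ^ n) (mapAP p f) (kerTheta_map_pow p f n) :
    AP R p ⧸ (kerTheta R p) ^ n →+* AP R p ⧸ (kerTheta R p) ^ n)

theorem mapQR_mk (f : R →+* R) (n : ℕ) (a : AP R p) :
    mapQR p f n (mkQK R p n a) = mkQK R p n (mapAP p f a) := rfl

theorem modK_toBP (n : ℕ) (a : AP R p) : modK R p n (toBP R p a) = mkQK R p n a :=
  AdicCompletion.evalₐ_of (kerTheta R p) n a

theorem modK_ext {x y : BDeRhamPlus R p} (h : ∀ n, modK R p n x = modK R p n y) : x = y :=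
  AdicCompletion.ext_evalₐ (I := kerTheta R p) (R := AP R p) h

theorem modK_factor {m n : ℕ} (h : m ≤ n) (x : AdicCompletion (kerTheta R p) (AP R p)) :
    Ideal.Quotient.factor (Ideal.pow_le_pow_right h) (AdicCompletion.evalₐ (kerTheta R p) n x) =
      AdicCompletion.evalₐ (kerTheta R p) m x := by
  induction x using AdicCompletion.induction_on with
  | _ f =>
    rw [AdicCompletion.evalₐ_mk, AdicCompletion.evalₐ_mk, Ideal.Quotient.factor_mk]
    exact AdicCompletion.Ideal.mk_eq_mk (kerTheta R p) h f

theorem exists_mapBP (f : R →+* R) : ∃ g : BDeRhamPlus R p →+* BDeRhamPlus R p,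
    ∀ n x, modK R p n (g x) = mapQR p f n (modK R p n x) := by
  let F : ∀ n : ℕ, AdicCompletion (kerTheta R p) (AP R p) →+* AP R p ⧸ (kerTheta R p) ^ n :=
    fun n => ((Ideal.quotientMap ((kerTheta R p) ^ n) (mapAP p f) (kerTheta_map_pow p f n) :
      AP R p ⧸ (kerTheta R p) ^ n →+* AP R p ⧸ (kerTheta R p) ^ n)).comp
      (AdicCompletion.evalₐ (kerTheta R p) n :
        AdicCompletion (kerTheta R p) (AP R p) →+* AP R p ⧸ (kerTheta R p) ^ n)
  have hF : ∀ {m n : ℕ} (h : m ≤ n),
      (Ideal.Quotient.factorPow (kerTheta R p) h).comp (F n) = F m := by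
    intro m n h
    apply RingHom.ext
    intro x
    show Ideal.Quotient.factor (Ideal.pow_le_pow_right h)
      (Ideal.quotientMap ((kerTheta R p) ^ n) (mapAP p f) (kerTheta_map_pow p f n)
        (AdicCompletion.evalₐ (kerTheta R p) n x)) =
      Ideal.quotientMap ((kerTheta R p) ^ m) (mapAP p f) (kerTheta_map_pow p f m)
        (AdicCompletion.evalₐ (kerTheta R p) m x)
    rw [← modK_factor p h x]
    obtain ⟨a, ha⟩ := Ideal.Quotient.mk_surjective (AdicCompletion.evalₐ (kerTheta R p) n x)
    rw [← ha]
    rfl
  refine ⟨(AdicCompletion.liftRingHom (kerTheta R p) F hF :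
    AdicCompletion (kerTheta R p) (AP R p) →+* AdicCompletion (kerTheta R p) (AP R p)), ?_⟩
  intro n x
  exact AdicCompletion.evalₐ_liftRingHom (kerTheta R p) F hF n x

end generic

end Pool.Agent.H356R3.FM
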