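import Pool.Agent.H356R3.FM.Defs

set_option autoImplicit false

/-!
Definitions: absolute Galois groups, decomposition maps, inertia, Frobenius, Weil integers.
-/

namespace Pool.Agent.H356R3.FM

/-- The absolute Galois group of `K`, with the Krull topology. -/
abbrev GK (K : Type) [Field K] : Type := AlgebraicClosure K ≃ₐ[K] AlgebraicClosure K

/-- Embeddings over `K` of the algebraic closure of `K` into the algebraic closure of the extension
`L` of `K`. For `K` a number field and `L` its completion at a place `v` such an embedding is the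
choice of a place of the algebraic closure above `v`. -/
abbrev Emb (K L : Type) [Field K] [Field L] [Algebra K L] : Type :=
  AlgebraicClosure K →ₐ[K] AlgebraicClosure L

/-- The homomorphism `G_L → G_K` attached to a `K`-embedding `ι` of the algebraic closure of `K`
into the algebraic closure of the extension `L` of `K`: it sends `σ` to its restriction, see
`toGlobal_spec`. For `L` a completion of `K` this is the inclusion of a decomposition group. -/
noncomputable def toGlobal {K L : Type} [Field K] [Field L] [Algebra K L]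
    (ι : Emb K L) : GK L →* GK K :=
  letI : Algebra (AlgebraicClosure K) (AlgebraicClosure L) := ι.toRingHom.toAlgebra
  haveI : IsScalarTower K (AlgebraicClosure K) (AlgebraicClosure L) :=
    IsScalarTower.of_algebraMap_eq fun x => (ι.commutes x).symm
  (AlgEquiv.restrictNormalHom (AlgebraicClosure K)).comp
    (AlgEquiv.restrictScalarsHom K : (AlgebraicClosure L ≃ₐ[L] AlgebraicClosure L) →*
      (AlgebraicClosure L ≃ₐ[K] AlgebraicClosure L))

theorem toGlobal_spec {K L : Type} [Field K] [Field L] [Algebra K L]
    (ι : Emb K L) (σ : GK L) (x : AlgebraicClosure K) :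
    ι (toGlobal ι σ x) = σ (ι x) := by
  let _ : Algebra (AlgebraicClosure K) (AlgebraicClosure L) := ι.toRingHom.toAlgebra
  have _ : IsScalarTower K (AlgebraicClosure K) (AlgebraicClosure L) :=
    IsScalarTower.of_algebraMap_eq fun x => (ι.commutes x).symm
  exact AlgEquiv.restrictNormal_commutes
    ((AlgEquiv.restrictScalarsHom K : (AlgebraicClosure L ≃ₐ[L] AlgebraicClosure L) →*
      (AlgebraicClosure L ≃ₐ[K] AlgebraicClosure L)) σ) (AlgebraicClosure K) x

/-- `σ` lies in the inertia group of `ℚ_[q]`: it acts trivially on the residue field of the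
algebraic closure of `ℚ_[q]`. -/
def IsInertia (q : ℕ) [Fact q.Prime] (σ : GK ℚ_[q]) : Prop :=
  ∀ x : PadicAlgCl q, ‖x‖ ≤ 1 → ‖σ x - x‖ < 1

/-- `σ` is a lift of the arithmetic Frobenius: it acts as `x ↦ x ^ q` on the residue field. -/
def IsArithFrob (q : ℕ) [Fact q.Prime] (σ : GK ℚ_[q]) : Prop :=
  ∀ x : PadicAlgCl q, ‖x‖ ≤ 1 → ‖σ x - x ^ q‖ < 1

/-- `x` is an algebraic integer all of whose complex conjugates have absolute value
`q ^ (w / 2)`. -/
def IsWeilInteger {K : Type} [Field K] [CharZero K] (q : ℕ) (w : ℤ) (x : K) : Prop :=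
  IsIntegral ℤ x ∧ ∀ z : ℂ, Polynomial.aeval z (minpoly ℚ x) = 0 → ‖z‖ = (q : ℝ) ^ ((w : ℝ) / 2)

end Pool.Agent.H356R3.FM
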