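import Pool.Agent.H356R3.FM.BdR1
import Pool.Agent.H356R3.FM.DR3
import Pool.Agent.H356R3.FM.Defs2

set_option autoImplicit false
set_option warn.classDefReducibility false

/-!
Fontaine's functor `D_dR` for one-dimensional representations of the absolute Galois group of
`ℚ_[p]` over the algebraic closure of `ℚ_[p]`, and the de Rham condition.
-/

namespace Pool.Agent.H356R3.FM

open TensorProduct

/-- The ring of integers of `ℂ_[p]` (Mathlib's `PadicComplexInt p`), as a type. -/
def OCp (p : ℕ) [hp : Fact p.Prime] : Type := PadicComplexInt p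

noncomputable def OCp.commRing (p : ℕ) [hp : Fact p.Prime] : CommRing (OCp p) :=
  (inferInstance : CommRing (PadicComplexInt p))

attribute [instance] OCp.commRing

/-- The inclusion of the ring of integers in `ℂ_[p]`. -/
noncomputable def OCp.incl (p : ℕ) [hp : Fact p.Prime] : OCp p →+* PadicComplex p :=
  (PadicComplexInt p).subtype

instance OCp.fact (p : ℕ) [hp : Fact p.Prime] : Fact (¬ IsUnit (p : OCp p)) := fact_not_unit p

instance OCp.complete (p : ℕ) [hp : Fact p.Prime] :
    IsAdicComplete (Ideal.span {(p : OCp p)}) (OCp p) := complete_OC p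

theorem galC_symm (p : ℕ) [hp : Fact p.Prime] (σ : PadicAlgCl p ≃ₐ[ℚ_[p]] PadicAlgCl p)
    (z : PadicComplex p) : galC p σ.symm (galC p σ z) = z := by
  refine UniformSpace.Completion.induction_on z ?_ ?_
  · exact isClosed_eq ((galC_continuous σ.symm).comp (galC_continuous σ)) continuous_id
  · intro x
    rw [galC_coe, galC_coe, AlgEquiv.symm_apply_apply]

/-- `σ` restricts to an automorphism of the ring of integers of `ℂ_[p]`. -/
theorem exists_galOE (p : ℕ) [hp : Fact p.Prime] (σ : GK ℚ_[p]) :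
    ∃ g : OCp p ≃+* OCp p, ∀ x, OCp.incl p (g x) = galC p σ (OCp.incl p x) := by
  refine ⟨(RingEquiv.ofRingHom (galO p σ) (galO p σ.symm) ?_ ?_ : OC p ≃+* OC p), fun x => rfl⟩
  · apply RingHom.ext
    intro x
    apply Subtype.ext
    exact galC_symm p σ.symm x
  · apply RingHom.ext
    intro x
    apply Subtype.ext
    exact galC_symm p σ x

/-- The automorphism of the ring of integers of `ℂ_[p]` given by `σ`. -/
noncomputable def galOE (p : ℕ) [hp : Fact p.Prime] (σ : GK ℚ_[p]) : OCp p ≃+* OCp p :=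
  (exists_galOE p σ).choose

theorem galOE_coe (p : ℕ) [hp : Fact p.Prime] (σ : GK ℚ_[p]) (x : OCp p) :
    OCp.incl p (galOE p σ x) = galC p σ (OCp.incl p x) :=
  (exists_galOE p σ).choose_spec x

/-- Fontaine's field `B_dR`: Mathlib's `BDeRham` for the ring of integers of `ℂ_[p]`. -/
abbrev BD (p : ℕ) [hp : Fact p.Prime] : Type := BDeRham (OCp p) p

/-- The Galois action on `B_dR`, by functoriality. -/
noncomputable def galBD (p : ℕ) [hp : Fact p.Prime] (σ : GK ℚ_[p]) : BD p →ₗ[ℚ_[p]] BD p :=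
  (mapBDAlg p (galOE p σ)).toLinearMap

/-- The action of `σ` on `E ⊗ B_dR`, for `E` the algebraic closure of `ℚ_[p]` on which the Galois
group acts `E`-linearly through the character `ρ`: multiplication by `ρ(σ)` on `E` and the
Galois action on `B_dR`. It is `E`-linear. -/
noncomputable def actDR (p : ℕ) [hp : Fact p.Prime] (ρ : GK ℚ_[p] →* (PadicAlgCl p)ˣ)
    (σ : GK ℚ_[p]) : PadicAlgCl p ⊗[ℚ_[p]] BD p →ₗ[PadicAlgCl p] PadicAlgCl p ⊗[ℚ_[p]] BD p :=
  TensorProduct.AlgebraTensorModule.map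
    (LinearMap.lsmul (PadicAlgCl p) (PadicAlgCl p) ((ρ σ : (PadicAlgCl p)ˣ) : PadicAlgCl p))
    (galBD p σ)

/-- `D_dR(ρ) = (E(ρ) ⊗ B_dR)^G`, an `E`-vector space. -/
noncomputable def DdR (p : ℕ) [hp : Fact p.Prime] (ρ : GK ℚ_[p] →* (PadicAlgCl p)ˣ) :
    Submodule (PadicAlgCl p) (PadicAlgCl p ⊗[ℚ_[p]] BD p) :=
  ⨅ σ : GK ℚ_[p], LinearMap.eqLocus (actDR p ρ σ) LinearMap.id

/-- The one-dimensional representation given by `ρ` is de Rham: `D_dR(ρ)` has dimension `1`, the
dimension of the representation. -/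
def IsDeRham (p : ℕ) [hp : Fact p.Prime] (ρ : GK ℚ_[p] →* (PadicAlgCl p)ˣ) : Prop :=
  Module.finrank (PadicAlgCl p) (DdR p ρ) = 1

end Pool.Agent.H356R3.FM
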