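import Pool.Agent.H356R3.FM.NoPeriod

set_option autoImplicit false

/-!
The global character `ρ = <χ>^{-1/2}` with values in `GL_1` of the algebraic closure of `ℚ_[l]`.
-/

namespace Pool.Agent.H356R3.FM

variable (l : ℕ) [hl : Fact l.Prime]

/-- The inclusion of `ℤ_[l]ˣ` in the multiplicative group of the algebraic closure. -/
noncomputable def unitIncl : ℤ_[l]ˣ →* (PadicAlgCl l)ˣ :=
  Units.map (((algebraMap ℚ_[l] (PadicAlgCl l)).comp (algebraMap ℤ_[l] ℚ_[l])) :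
    ℤ_[l] →* PadicAlgCl l)

theorem unitIncl_val (u : ℤ_[l]ˣ) : ((unitIncl l u : (PadicAlgCl l)ˣ) : PadicAlgCl l) =
    algebraMap ℚ_[l] (PadicAlgCl l) ((u : ℤ_[l]) : ℚ_[l]) := rfl

theorem unitIncl_continuous : Continuous (unitIncl l) := by
  apply Continuous.units_map
  have h1 : Continuous (algebraMap ℚ_[l] (PadicAlgCl l)) := continuous_algebraMap _ _
  have h2 : Continuous (fun x : ℤ_[l] => (x : ℚ_[l])) := continuous_subtype_val
  exact h1.comp h2

theorem chiK_continuous (K : Type) [Field K] : Continuous (chiK l K) := by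
  have := cyclotomicCharacter.continuous l K (AlgebraicClosure K)
  exact this

theorem rho0_continuous (hl2 : l ≠ 2) (K : Type) [Field K] : Continuous (rho0 l hl2 K) := by
  have h1 : Continuous (fun σ : GK K => (psi l hl2 (chiK l K σ))⁻¹) :=
    ((psi_continuous l hl2).comp (chiK_continuous l K)).inv
  exact h1

/-- The character `ρ`. -/
noncomputable def rho (hl2 : l ≠ 2) : GK ℚ →* (PadicAlgCl l)ˣ :=
  (unitIncl l).comp (rho0 l hl2 ℚ)

theorem rho_continuous (hl2 : l ≠ 2) : Continuous (rho l hl2) :=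
  (unitIncl_continuous l).comp (rho0_continuous l hl2 ℚ)

theorem sq_eq_one (hl2 : l ≠ 2) : psi l hl2 1 = 1 := map_one _

/-- `ρ` is unramified outside `l`. -/
theorem rho_unramified (hl2 : l ≠ 2) (q : ℕ) [hq : Fact q.Prime] (hql : q ≠ l)
    (ι : Emb ℚ ℚ_[q]) (σ : GK ℚ_[q]) (hσ : IsInertia q σ) :
    rho l hl2 (toGlobal ι σ) = 1 := by
  unfold rho
  rw [MonoidHom.comp_apply]
  have h1 : rho0 l hl2 ℚ (toGlobal ι σ) = 1 := by
    unfold rho0
    rw [MonoidHom.inv_apply, MonoidHom.comp_apply, chi_toGlobal, chi_inertia q l hql σ hσ,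
      map_one, inv_one]
  rw [h1, map_one]

/-- Frobenius elements. -/
theorem rho_frob (hl2 : l ≠ 2) (q : ℕ) [hq : Fact q.Prime] (hql : q ≠ l)
    (ι : Emb ℚ ℚ_[q]) (σ : GK ℚ_[q]) (hσ : IsArithFrob q σ) :
    IsWeilInteger q 1 ((rho l hl2 (toGlobal ι σ⁻¹) : (PadicAlgCl l)ˣ) : PadicAlgCl l) := by
  have hl1 : 2 ≤ l := hl.out.two_le
  set x : PadicAlgCl l := ((rho l hl2 (toGlobal ι σ⁻¹) : (PadicAlgCl l)ˣ) : PadicAlgCl l) with hx
  set M := 2 * (l - 1) with hM
  have hM0 : M ≠ 0 := by omega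
  have h1 : (rho0 l hl2 ℚ (toGlobal ι σ⁻¹)) ^ M = (chiK l ℚ_[q] σ) ^ (l - 1) := by
    rw [rho0_pow, map_inv, map_inv, inv_pow, inv_inv, chi_toGlobal]
  have h2 : x ^ M = (q : PadicAlgCl l) ^ (l - 1) := by
    rw [hx]
    unfold rho
    rw [MonoidHom.comp_apply, ← Units.val_pow_eq_pow_val, ← map_pow, h1, map_pow,
      Units.val_pow_eq_pow_val, unitIncl_val, chi_frob q l hql σ hσ]
    congr 1
  open Polynomial in
  refine ⟨?_, ?_⟩
  · refine ⟨X ^ M - C ((q : ℤ) ^ (l - 1)), monic_X_pow_sub_C _ hM0, ?_⟩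
    rw [eval₂_sub, eval₂_pow, eval₂_X, eval₂_C, h2]
    simp
  · intro z hz
    have h3 : minpoly ℚ x ∣ X ^ M - C ((q : ℚ) ^ (l - 1)) := by
      apply minpoly.dvd
      rw [map_sub, map_pow, aeval_X, h2, aeval_C]
      simp
    obtain ⟨g, hg⟩ := h3
    have h4 : aeval z (X ^ M - C ((q : ℚ) ^ (l - 1)) : ℚ[X]) = 0 := by
      rw [hg, map_mul, hz, zero_mul]
    rw [map_sub, map_pow, aeval_X, aeval_C] at h4
    have h5 : z ^ M = (q : ℂ) ^ (l - 1) := by
      have := sub_eq_zero.mp h4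
      rw [this]
      simp
    have h6 : ‖z‖ ^ M = (q : ℝ) ^ (l - 1) := by
      rw [← norm_pow, h5, norm_pow]
      simp
    have hq0 : (0 : ℝ) ≤ q := by positivity
    have h7 : (‖z‖ ^ 2) ^ (l - 1) = (q : ℝ) ^ (l - 1) := by
      rw [← pow_mul]
      exact h6
    have h8 : ‖z‖ ^ 2 = q := by
      have hne : l - 1 ≠ 0 := by omega
      exact (pow_left_inj₀ (by positivity) hq0 hne).mp h7
    have h9 : ‖z‖ = Real.sqrt q := by
      rw [← h8, Real.sqrt_sq (norm_nonneg _)]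
    rw [h9, Real.sqrt_eq_rpow]
    norm_num

end Pool.Agent.H356R3.FM
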