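import Mathlib

set_option autoImplicit false

/-!
Invariants in a tensor product.
-/

namespace Pool.Agent.H356R3.FM

open TensorProduct

/-- If `c σ • f σ b = b` for all `σ` forces `b = 0` in `B`, then the same holds in `E ⊗ B`. -/
theorem tensor_invariants {k E B G : Type} [Field k] [Field E] [Algebra k E] [AddCommGroup B]
    [Module k B] (f : G → B →ₗ[k] B) (c : G → k)
    (h : ∀ b : B, (∀ σ, c σ • f σ b = b) → b = 0) (g : G → E →ₗ[k] E)
    (hg : ∀ σ x, g σ x = c σ • x) (x : E ⊗[k] B)
    (hx : ∀ σ, TensorProduct.map (g σ) (f σ) x = x) : x = 0 := by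
  classical
  let bs := Module.Basis.ofVectorSpace k E
  let e := TensorProduct.equivFinsuppOfBasisLeft (R := k) (N := B) bs
  have hcoord : ∀ (σ : G) (y : E ⊗[k] B) (i), e (TensorProduct.map (g σ) (f σ) y) i
      = c σ • f σ (e y i) := by
    intro σ y i
    induction y using TensorProduct.induction_on with
    | zero => simp
    | tmul a b =>
      rw [TensorProduct.map_tmul, hg]
      simp only [e, TensorProduct.equivFinsuppOfBasisLeft_apply_tmul_apply, map_smul,
        Finsupp.smul_apply, smul_assoc]
    | add a b ha hb =>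
      simp only [map_add, Finsupp.add_apply, ha, hb, smul_add]
  have h0 : e x = 0 := by
    ext i
    rw [Finsupp.zero_apply]
    apply h
    intro σ
    rw [← hcoord, hx]
  exact (LinearEquiv.map_eq_zero_iff e).mp h0

end Pool.Agent.H356R3.FM
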