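import Pool.Agent.H356R3.FM.BdR9
import Pool.Agent.H356R3.FM.DR4
import Pool.Agent.H356R3.FM.GlobalChar
import Pool.Agent.H356R3.FM.Tensor

set_option autoImplicit false

/-!
The character `<χ>^{-1/2}` is not de Rham.
-/

namespace Pool.Agent.H356R3.FM

open TensorProduct

theorem galOE_eq (p : ℕ) [hp : Fact p.Prime] (σ : GK ℚ_[p]) :
    (galOE p σ : OCp p →+* OCp p) = (galO p σ : OC p →+* OC p) := by
  apply RingHom.ext
  intro x
  apply Subtype.ext
  exact galOE_coe p σ x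

theorem mapBP_galO (p : ℕ) [hp : Fact p.Prime] (σ : GK ℚ_[p]) (x : BDeRhamPlus (OCp p) p) :
    mapBP p (galOE p σ : OCp p →+* OCp p) x = galBp p σ x := by
  apply evalB_ext
  intro n
  have h1 : evalB p n (mapBP p (galOE p σ : OCp p →+* OCp p) x) = galQ p σ n (evalB p n x) := by
    have h2 := modK_mapBP (R := OCp p) p (galOE p σ : OCp p →+* OCp p) n x
    rw [galOE_eq] at h2 ⊢
    exact h2
  exact h1.trans (evalB_gal p σ n x).symm

theorem galBD_eq (p : ℕ) [hp : Fact p.Prime] (σ : GK ℚ_[p]) (x : BdR p) :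
    galBD p σ x = galBAlg p σ x := by
  have key : (mapBD p (galOE p σ)) = galB p σ := by
    refine IsLocalization.ringHom_ext (S := BdR p) (SB p)
      (j := (mapBD p (galOE p σ))) (k := galB p σ) ?_
    apply RingHom.ext
    intro y
    have h1 : mapBD p (galOE p σ) (toBD (OCp p) p y) =
        toBD (OCp p) p (mapBP p (galOE p σ : OCp p →+* OCp p) y) := mapBD_toBD _ _ _
    have h2 : toBD (OCp p) p (mapBP p (galOE p σ : OCp p →+* OCp p) y) =
        toBD (OCp p) p (galBp p σ y) := congrArg (toBD (OCp p) p) (mapBP_galO p σ y)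
    exact (h1.trans h2).trans (galB_alg p σ y).symm
  exact RingHom.congr_fun key x

theorem DdR_rho (l : ℕ) [hl : Fact l.Prime] (hl2 : l ≠ 2) (ι : Emb ℚ ℚ_[l]) :
    DdR l ((rho l hl2).comp (toGlobal ι)) = ⊥ := by
  rw [Submodule.eq_bot_iff]
  intro x hx
  have hx' : ∀ σ, actDR l ((rho l hl2).comp (toGlobal ι)) σ x = x := by
    intro σ
    have h1 := (Submodule.mem_iInf _).mp hx σ
    exact h1
  refine tensor_invariants (fun σ => galBD l σ)
    (fun σ => (((rho0 l hl2 ℚ_[l] σ : ℤ_[l]ˣ) : ℤ_[l]) : ℚ_[l]))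
    (fun b hb => no_inv_BdR l hl2 b (fun σ => (congrArg
      (fun z : BD l => (((rho0 l hl2 ℚ_[l] σ : ℤ_[l]ˣ) : ℤ_[l]) : ℚ_[l]) • z)
      (galBD_eq l σ b)).symm.trans (hb σ)))
    (fun σ => LinearMap.mulLeft ℚ_[l]
      ((((rho l hl2).comp (toGlobal ι)) σ : (PadicAlgCl l)ˣ) : PadicAlgCl l)) ?_ x ?_
  · intro σ y
    rw [LinearMap.mulLeft_apply, MonoidHom.comp_apply]
    unfold rho
    rw [MonoidHom.comp_apply, rho0_toGlobal, unitIncl_val, ← Algebra.smul_def]
  · intro σ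
    exact hx' σ

theorem not_isDeRham (l : ℕ) [hl : Fact l.Prime] (hl2 : l ≠ 2) (ι : Emb ℚ ℚ_[l]) :
    ¬ IsDeRham l ((rho l hl2).comp (toGlobal ι)) := by
  unfold IsDeRham
  rw [DdR_rho l hl2 ι, finrank_bot]
  exact zero_ne_one

/-- `B_dR` is not the zero ring. -/
instance nontrivial_BdR (p : ℕ) [hp : Fact p.Prime] : Nontrivial (BdR p) := by
  obtain ⟨b, hb⟩ := exists_untilt p (p : OC p)
  by_contra h
  rw [not_nontrivial_iff_subsingleton] at h
  have h1 : (0 : BPlus p) ∈ SB p :=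
    (IsLocalization.subsingleton_iff (R := BPlus p) (M := SB p) (S := BdR p)).mp h
  obtain ⟨k, u, hs⟩ := SB_form p b hb 0 h1
  have h2 := congrArg (evalB p (k + 1)) hs
  rw [map_zero, evalB_ofB] at h2
  have h3 := Ideal.Quotient.eq_zero_iff_mem.mp h2.symm
  rw [IdR_eq p b hb, Ideal.span_singleton_pow, Ideal.mem_span_singleton] at h3
  obtain ⟨e, he⟩ := h3
  have h4 : (xi p b) ^ k * (u : Ap p) = (xi p b) ^ k * (xi p b * e) := by
    rw [he]
    ring
  have h5 := mul_left_cancel₀ (pow_ne_zero _ (xi_ne_zero p b)) h4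
  have h6 := congrArg (ThC p) h5
  rw [map_mul, ThC_xi p b hb, zero_mul] at h6
  exact (u.isUnit.map (ThC p)).ne_zero h6

end Pool.Agent.H356R3.FM
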