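import Mathlib

set_option autoImplicit false

/-!
Definitions for the local Galois theory of `ℚ_[p]`: the action of the Galois group on
`ℂ_[p]`, and the cyclotomic character.
-/

namespace Pool.Agent.H356R3.FM

/-- The action of `σ` in the absolute Galois group of `ℚ_[p]` on `ℂ_[p]`, extended by
continuity from the algebraic closure. -/
noncomputable def galC (p : ℕ) [hp : Fact p.Prime]
    (σ : PadicAlgCl p ≃ₐ[ℚ_[p]] PadicAlgCl p) : PadicComplex p →+* PadicComplex p :=
  UniformSpace.Completion.mapRingHom (σ : PadicAlgCl p →+* PadicAlgCl p)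
    (AddMonoidHomClass.isometry_of_norm (σ : PadicAlgCl p →+* PadicAlgCl p) (fun x => by
      show ‖σ x‖ = ‖x‖
      rw [← PadicAlgCl.spectralNorm_eq, ← PadicAlgCl.spectralNorm_eq]
      exact (spectralNorm_eq_of_equiv σ x).symm)).continuous

/-- The `l`-adic cyclotomic character of the group of `K`-automorphisms of `L`. -/
noncomputable def chi (l : ℕ) [Fact l.Prime] (K L : Type) [Field K] [Field L] [Algebra K L] :
    (L ≃ₐ[K] L) →* ℤ_[l]ˣ :=
  (cyclotomicCharacter L l).comp (MulSemiringAction.toRingAut (L ≃ₐ[K] L) L)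

end Pool.Agent.H356R3.FM
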