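import Pool.Agent.H356R3.FM.Char2
import Pool.Agent.H356R3.FM.Defs2

set_option autoImplicit false

/-!
The cyclotomic character and decomposition groups.
-/

namespace Pool.Agent.H356R3.FM

/-- the cyclotomic character on `GK K` -/
noncomputable def chiK (l : ℕ) [Fact l.Prime] (K : Type) [Field K] : GK K →* ℤ_[l]ˣ :=
  chi l K (AlgebraicClosure K)

section general

variable (l : ℕ) [hl : Fact l.Prime] (K L : Type) [Field K] [Field L] [Algebra K L]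
  [∀ i, HasEnoughRootsOfUnity L (l ^ i)]

theorem chi_spec' (σ : L ≃ₐ[K] L) (n : ℕ) (t : L) (ht : t ^ l ^ n = 1) :
    σ t = t ^ (PadicInt.toZModPow n ((chi l K L σ : ℤ_[l]ˣ) : ℤ_[l])).val := by
  have h := cyclotomicCharacter.spec (L := L) l (n := n)
    (MulSemiringAction.toRingAut (L ≃ₐ[K] L) L σ) t ht
  exact h

theorem chi_eq_of' (σ : L ≃ₐ[K] L) (n a : ℕ) (ζ : L)
    (hζ : IsPrimitiveRoot ζ (l ^ n)) (h : σ ζ = ζ ^ a) :
    PadicInt.toZModPow n ((chi l K L σ : ℤ_[l]ˣ) : ℤ_[l]) = (a : ZMod (l ^ n)) := by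
  have h1 := chi_spec' l K L σ n ζ hζ.pow_eq_one
  rw [h] at h1
  have hn0 : l ^ n ≠ 0 := (pow_pos hl.out.pos n).ne'
  have h2 := hζ.isUnit_unit hn0
  have h3 : a ≡ (PadicInt.toZModPow n ((chi l K L σ : ℤ_[l]ˣ) : ℤ_[l])).val
      [MOD l ^ n] := by
    have h5 : (hζ.isUnit hn0).unit ^ a = (hζ.isUnit hn0).unit ^ (PadicInt.toZModPow n
        ((chi l K L σ : ℤ_[l]ˣ) : ℤ_[l])).val := by
      apply Units.ext
      rw [Units.val_pow_eq_pow_val, Units.val_pow_eq_pow_val, IsUnit.unit_spec]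
      exact h1
    rw [pow_eq_pow_iff_modEq, ← h2.eq_orderOf] at h5
    exact h5
  have h4 := (ZMod.natCast_eq_natCast_iff _ _ _).mpr h3
  rw [h4, ZMod.natCast_val, ZMod.cast_id', id]

end general

instance (l : ℕ) [hl : Fact l.Prime] (K : Type) [Field K] [CharZero K] (i : ℕ) :
    HasEnoughRootsOfUnity (AlgebraicClosure K) (l ^ i) := by
  have : NeZero ((l ^ i : ℕ) : K) := ⟨by
    rw [Nat.cast_ne_zero]; exact (pow_pos hl.out.pos i).ne'⟩
  infer_instance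

/-- The cyclotomic characters are compatible with decomposition maps. -/
theorem chi_toGlobal (l : ℕ) [hl : Fact l.Prime] (K L : Type) [Field K] [Field L] [Algebra K L]
    [CharZero K] [CharZero L] (ι : Emb K L) (σ : GK L) :
    chiK l K (toGlobal ι σ) = chiK l L σ := by
  apply Units.ext
  apply PadicInt.ext_of_toZModPow.mp
  intro n
  obtain ⟨ζ, hζ⟩ := HasEnoughRootsOfUnity.exists_primitiveRoot (AlgebraicClosure K) (l ^ n)
  set v := (PadicInt.toZModPow n ((chiK l L σ : ℤ_[l]ˣ) : ℤ_[l])).val with hv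
  have h1 : σ (ι ζ) = (ι ζ) ^ v := by
    apply chi_spec' l L (AlgebraicClosure L) σ n (ι ζ)
    rw [← map_pow, hζ.pow_eq_one, map_one]
  have h2 : toGlobal ι σ ζ = ζ ^ v := by
    apply ι.toRingHom.injective
    show ι (toGlobal ι σ ζ) = ι (ζ ^ v)
    rw [toGlobal_spec, h1, map_pow]
  have h3 := chi_eq_of' l K (AlgebraicClosure K) (toGlobal ι σ) n v ζ hζ h2
  rw [show ((chiK l K (toGlobal ι σ) : ℤ_[l]ˣ) : ℤ_[l]) =
    ((chi l K (AlgebraicClosure K) (toGlobal ι σ) : ℤ_[l]ˣ) : ℤ_[l]) from rfl, h3, hv,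
    ZMod.natCast_val, ZMod.cast_id', id]

/-- roots of unity of order prime to `q` are determined by their residues. -/
theorem root_eq_of_close (q l : ℕ) [hq : Fact q.Prime] [hl : Fact l.Prime] (hql : q ≠ l) (n : ℕ)
    (μ ν : PadicAlgCl q) (hμ : μ ^ l ^ n = 1) (hν : ν ^ l ^ n = 1) (h : ‖μ - ν‖ < 1) : μ = ν := by
  have hn0 : l ^ n ≠ 0 := (pow_pos hl.out.pos n).ne'
  have hνn : ‖ν‖ = 1 := by
    have h1 : ‖ν‖ ^ (l ^ n) = 1 := by rw [← norm_pow, hν, norm_one]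
    exact (pow_eq_one_iff_of_nonneg (norm_nonneg _) hn0).mp h1
  have hν0 : ν ≠ 0 := by
    intro h0
    rw [h0, norm_zero] at hνn
    exact zero_ne_one hνn
  set w := μ / ν with hw
  have hw1 : ‖w - 1‖ < 1 := by
    have e : w - 1 = (μ - ν) / ν := by rw [hw]; field_simp
    rw [e, norm_div, hνn, div_one]
    exact h
  have hwN : w ^ (l ^ n) = 1 := by rw [hw, div_pow, hμ, hν, div_one]
  have hN : ‖((l ^ n : ℕ) : PadicAlgCl q)‖ = 1 := by
    rw [norm_nat, Padic.norm_natCast_eq_one_iff]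
    apply Nat.Coprime.pow_right
    rw [Nat.coprime_primes hq.out hl.out]
    exact hql
  have h2 := norm_pow_sub_one w (l ^ n) hw1 hN
  rw [hwN, sub_self, norm_zero] at h2
  have h3 : w = 1 := sub_eq_zero.mp (norm_eq_zero.mp h2.symm)
  rw [hw, div_eq_one_iff_eq hν0] at h3
  exact h3

theorem norm_root_le (q l : ℕ) [hq : Fact q.Prime] [hl : Fact l.Prime] (n : ℕ)
    (μ : PadicAlgCl q) (hμ : μ ^ l ^ n = 1) : ‖μ‖ ≤ 1 := by
  have hn0 : l ^ n ≠ 0 := (pow_pos hl.out.pos n).ne'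
  have h1 : ‖μ‖ ^ (l ^ n) = 1 := by rw [← norm_pow, hμ, norm_one]
  exact ((pow_eq_one_iff_of_nonneg (norm_nonneg _) hn0).mp h1).le

/-- the cyclotomic character is trivial on inertia -/
theorem chi_inertia (q l : ℕ) [hq : Fact q.Prime] [hl : Fact l.Prime] (hql : q ≠ l)
    (σ : GK ℚ_[q]) (hσ : IsInertia q σ) : chiK l ℚ_[q] σ = 1 := by
  apply Units.ext
  apply PadicInt.ext_of_toZModPow.mp
  intro n
  obtain ⟨ζ, hζ⟩ := HasEnoughRootsOfUnity.exists_primitiveRoot (AlgebraicClosure ℚ_[q]) (l ^ n)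
  have h1 : σ ζ = ζ ^ 1 := by
    rw [pow_one]
    apply root_eq_of_close q l hql n
    · rw [← map_pow, hζ.pow_eq_one, map_one]
    · exact hζ.pow_eq_one
    · exact hσ ζ (norm_root_le q l n ζ hζ.pow_eq_one)
  have h3 := chi_eq_of' l ℚ_[q] (AlgebraicClosure ℚ_[q]) σ n 1 ζ hζ h1
  rw [show ((chiK l ℚ_[q] σ : ℤ_[l]ˣ) : ℤ_[l]) =
    ((chi l ℚ_[q] (AlgebraicClosure ℚ_[q]) σ : ℤ_[l]ˣ) : ℤ_[l]) from rfl, h3]
  simp

/-- the cyclotomic character of an arithmetic Frobenius at `q` is `q`. -/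
theorem chi_frob (q l : ℕ) [hq : Fact q.Prime] [hl : Fact l.Prime] (hql : q ≠ l)
    (σ : GK ℚ_[q]) (hσ : IsArithFrob q σ) : ((chiK l ℚ_[q] σ : ℤ_[l]ˣ) : ℤ_[l]) = q := by
  apply PadicInt.ext_of_toZModPow.mp
  intro n
  obtain ⟨ζ, hζ⟩ := HasEnoughRootsOfUnity.exists_primitiveRoot (AlgebraicClosure ℚ_[q]) (l ^ n)
  have h1 : σ ζ = ζ ^ q := by
    apply root_eq_of_close q l hql n
    · rw [← map_pow, hζ.pow_eq_one, map_one]
    · rw [← pow_mul, mul_comm, pow_mul, hζ.pow_eq_one, one_pow]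
    · exact hσ ζ (norm_root_le q l n ζ hζ.pow_eq_one)
  have h3 := chi_eq_of' l ℚ_[q] (AlgebraicClosure ℚ_[q]) σ n q ζ hζ h1
  rw [show ((chiK l ℚ_[q] σ : ℤ_[l]ˣ) : ℤ_[l]) =
    ((chi l ℚ_[q] (AlgebraicClosure ℚ_[q]) σ : ℤ_[l]ˣ) : ℤ_[l]) from rfl, h3]
  simp

end Pool.Agent.H356R3.FM
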