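import Pool.Agent.H356R3.FM.GlobalChar
import Pool.Agent.H356R3.FM.Tensor

set_option autoImplicit false

/-!
Period modules of de Rham type and admissibility.
-/

namespace Pool.Agent.H356R3.FM

open TensorProduct

/-- A period module of de Rham type for the Galois group of `ℚ_[p]`: a `ℚ_[p]`-vector space `B`
with a linear Galois action and a decreasing, exhaustive, separated, Galois stable filtration
whose `i`-th graded piece is `ℂ_[p](i)`, for every integer `i`. Fontaine's field `B_dR` with its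
usual filtration is one; so is the Hodge-Tate ring. -/
structure DeRhamPeriods (p : ℕ) [Fact p.Prime] (B : Type) [AddCommGroup B] [Module ℚ_[p] B] where
  /-- the Galois action -/
  act : GK ℚ_[p] → B →ₗ[ℚ_[p]] B
  act_one : act 1 = LinearMap.id
  act_mul : ∀ σ τ, act (σ * τ) = (act σ).comp (act τ)
  /-- the filtration -/
  fil : ℤ → Submodule ℚ_[p] B
  anti : Antitone fil
  exhaustive : ∀ b : B, ∃ i, b ∈ fil i
  separated : ∀ b : B, (∀ i, b ∈ fil i) → b = 0
  stable : ∀ i σ b, b ∈ fil i → act σ b ∈ fil i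
  /-- the `i`-th graded piece -/
  gr : ∀ i, fil i →ₗ[ℚ_[p]] PadicComplex p
  gr_surjective : ∀ i, Function.Surjective (gr i)
  gr_ker : ∀ i (b : fil i), gr i b = 0 ↔ (b : B) ∈ fil (i + 1)
  gr_act : ∀ i σ (b : fil i), gr i ⟨act σ b, stable i σ b b.2⟩ =
    (((chiK p ℚ_[p] σ ^ i : ℤ_[p]ˣ) : ℤ_[p]) : ℚ_[p]) • galC p σ (gr i b)

/-- The space `(E ⊗ B)^G` of invariants of the one-dimensional representation of the Galois group
of `ℚ_[p]` over `E`, the algebraic closure of `ℚ_[p]`, given by the character `ρ`. -/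
def periodInvariants (p : ℕ) [Fact p.Prime] (B : Type) [AddCommGroup B] [Module ℚ_[p] B]
    (act : GK ℚ_[p] → B →ₗ[ℚ_[p]] B) (ρ : GK ℚ_[p] →* (PadicAlgCl p)ˣ) :
    Set (PadicAlgCl p ⊗[ℚ_[p]] B) :=
  {x | ∀ σ, TensorProduct.map (LinearMap.mulLeft ℚ_[p] ((ρ σ : (PadicAlgCl p)ˣ) : PadicAlgCl p))
    (act σ) x = x}

theorem exists_jump {B : Type} [AddCommGroup B] (fil : ℤ → Set B) (b : B)
    (h1 : ∃ i, b ∈ fil i) (h2 : ∃ i, b ∉ fil i) (anti : Antitone fil) :
    ∃ m, b ∈ fil m ∧ b ∉ fil (m + 1) := by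
  obtain ⟨i, hi⟩ := h1
  obtain ⟨j, hj⟩ := h2
  have hij : i ≤ j := by
    by_contra h
    push Not at h
    exact hj (anti h.le hi)
  obtain ⟨m, hm1, hm2⟩ := Int.exists_greatest_of_bdd (P := fun z => b ∈ fil z)
    ⟨j, fun z hz => by
      by_contra h
      push Not at h
      exact hj (anti h.le hz)⟩ ⟨i, hi⟩
  refine ⟨m, hm1, ?_⟩
  intro h
  have := hm2 _ h
  omega

/-- The local character has no invariants in a period module of de Rham type. -/
theorem no_invariant (l : ℕ) [hl : Fact l.Prime] (hl2 : l ≠ 2) (B : Type) [AddCommGroup B]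
    [Module ℚ_[l] B] (D : DeRhamPeriods l B) (b : B)
    (hb : ∀ σ : GK ℚ_[l], (((rho0 l hl2 ℚ_[l] σ : ℤ_[l]ˣ) : ℤ_[l]) : ℚ_[l]) • D.act σ b = b) :
    b = 0 := by
  by_contra hb0
  obtain ⟨m, hm1, hm2⟩ := exists_jump (fun i => (D.fil i : Set B)) b (D.exhaustive b) (by
    by_contra h
    push Not at h
    exact hb0 (D.separated b h)) (fun i j hij => D.anti hij)
  apply hm2
  have h1 := (D.gr_ker m ⟨b, hm1⟩).mp (by
    apply no_period l hl2 m
    intro σ
    have h3 : (⟨b, hm1⟩ : D.fil m) = (((rho0 l hl2 ℚ_[l] σ : ℤ_[l]ˣ) : ℤ_[l]) : ℚ_[l]) •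
        ⟨D.act σ b, D.stable m σ b hm1⟩ := by
      apply Subtype.ext
      show b = _ • D.act σ b
      exact (hb σ).symm
    conv_rhs => rw [h3, map_smul]
    rw [D.gr_act m σ ⟨b, hm1⟩, Units.val_mul, PadicInt.coe_mul, mul_smul])
  exact h1

theorem invariants_zero (l : ℕ) [hl : Fact l.Prime] (hl2 : l ≠ 2) (B : Type) [AddCommGroup B]
    [Module ℚ_[l] B] (D : DeRhamPeriods l B) (ι : Emb ℚ ℚ_[l]) :
    periodInvariants l B D.act ((rho l hl2).comp (toGlobal ι)) = {0} := by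
  apply Set.eq_singleton_iff_unique_mem.mpr
  constructor
  · intro σ
    rw [map_zero]
  · intro x hx
    refine tensor_invariants D.act
      (fun σ => (((rho0 l hl2 ℚ_[l] σ : ℤ_[l]ˣ) : ℤ_[l]) : ℚ_[l]))
      (fun b hb => no_invariant l hl2 B D b hb)
      (fun σ => LinearMap.mulLeft ℚ_[l]
        ((((rho l hl2).comp (toGlobal ι)) σ : (PadicAlgCl l)ˣ) : PadicAlgCl l)) ?_ x hx
    intro σ y
    rw [LinearMap.mulLeft_apply, MonoidHom.comp_apply]
    unfold rho
    rw [MonoidHom.comp_apply, rho0_toGlobal, unitIncl_val, ← Algebra.smul_def]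

end Pool.Agent.H356R3.FM
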