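import Pool.Agent.H356R3.FM.Trace
import Pool.Agent.H356R3.FM.Defs

set_option autoImplicit false

/-!
Tate's theorem: there is no nonzero element of `ℂ_[p]` on which the Galois group of `ℚ_[p]`
acts through a nonzero power of the cyclotomic character.
-/

namespace Pool.Agent.H356R3.FM

open Polynomial

variable {p : ℕ} [hp : Fact p.Prime]

theorem galC_coe (σ : PadicAlgCl p ≃ₐ[ℚ_[p]] PadicAlgCl p) (x : PadicAlgCl p) :
    galC p σ (x : PadicComplex p) = ((σ x : PadicAlgCl p) : PadicComplex p) := by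
  unfold galC
  rw [UniformSpace.Completion.mapRingHom_coe]
  rfl

theorem galC_continuous (σ : PadicAlgCl p ≃ₐ[ℚ_[p]] PadicAlgCl p) : Continuous (galC p σ) := by
  unfold galC
  rw [UniformSpace.Completion.coe_mapRingHom]
  exact UniformSpace.Completion.continuous_map

theorem norm_galC (σ : PadicAlgCl p ≃ₐ[ℚ_[p]] PadicAlgCl p) (z : PadicComplex p) :
    ‖galC p σ z‖ = ‖z‖ := by
  refine UniformSpace.Completion.induction_on z ?_ ?_
  · exact isClosed_eq (continuous_norm.comp (galC_continuous σ)) continuous_norm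
  · intro x
    rw [galC_coe, UniformSpace.Completion.norm_coe, UniformSpace.Completion.norm_coe, norm_gal]

theorem galC_smul (σ : PadicAlgCl p ≃ₐ[ℚ_[p]] PadicAlgCl p) (c : ℚ_[p]) (z : PadicComplex p) :
    galC p σ (c • z) = c • galC p σ z := by
  have h1 : ∀ w : PadicComplex p, c • w =
      (((algebraMap ℚ_[p] (PadicAlgCl p) c : PadicAlgCl p)) : PadicComplex p) * w := by
    intro w
    rw [PadicComplex.coe_eq, ← IsScalarTower.algebraMap_apply, ← Algebra.smul_def]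
  rw [h1, h1, map_mul, galC_coe, AlgEquiv.commutes]

theorem chi_spec (σ : PadicAlgCl p ≃ₐ[ℚ_[p]] PadicAlgCl p) (n : ℕ) (t : PadicAlgCl p)
    (ht : t ^ p ^ n = 1) :
    σ t = t ^ (PadicInt.toZModPow n ((chi p ℚ_[p] (PadicAlgCl p) σ : ℤ_[p]ˣ) : ℤ_[p])).val := by
  have h := cyclotomicCharacter.spec (L := PadicAlgCl p) p (n := n)
    (MulSemiringAction.toRingAut (PadicAlgCl p ≃ₐ[ℚ_[p]] PadicAlgCl p) (PadicAlgCl p) σ) t ht
  exact h

theorem exists_primitive (n : ℕ) : ∃ ζ : PadicAlgCl p, IsPrimitiveRoot ζ (p ^ n) :=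
  HasEnoughRootsOfUnity.exists_primitiveRoot _ _

/-- If `σ ζ = ζ ^ a` for a primitive root `ζ`, then `χ(σ) = a` modulo `p ^ n`. -/
theorem chi_eq_of (σ : PadicAlgCl p ≃ₐ[ℚ_[p]] PadicAlgCl p) (n a : ℕ) (ζ : PadicAlgCl p)
    (hζ : IsPrimitiveRoot ζ (p ^ n)) (h : σ ζ = ζ ^ a) :
    PadicInt.toZModPow n ((chi p ℚ_[p] (PadicAlgCl p) σ : ℤ_[p]ˣ) : ℤ_[p]) = (a : ZMod (p ^ n)) := by
  have h1 := chi_spec σ n ζ hζ.pow_eq_one
  rw [h] at h1
  have hn0 : p ^ n ≠ 0 := (pow_pos hp.out.pos n).ne'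
  have h2 := hζ.isUnit_unit hn0
  have h3 : a ≡ (PadicInt.toZModPow n ((chi p ℚ_[p] (PadicAlgCl p) σ : ℤ_[p]ˣ) : ℤ_[p])).val
      [MOD p ^ n] := by
    have h5 : (hζ.isUnit hn0).unit ^ a = (hζ.isUnit hn0).unit ^ (PadicInt.toZModPow n
        ((chi p ℚ_[p] (PadicAlgCl p) σ : ℤ_[p]ˣ) : ℤ_[p])).val := by
      apply Units.ext
      rw [Units.val_pow_eq_pow_val, Units.val_pow_eq_pow_val, IsUnit.unit_spec]
      exact h1
    rw [pow_eq_pow_iff_modEq, ← h2.eq_orderOf] at h5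
    exact h5
  have h4 := (ZMod.natCast_eq_natCast_iff _ _ _).mpr h3
  rw [h4, ZMod.natCast_val, ZMod.cast_id', id]

/-- the field generated by the `p ^ n`-th roots of unity. -/
noncomputable def Kn (p : ℕ) [Fact p.Prime] (n : ℕ) : IntermediateField ℚ_[p] (PadicAlgCl p) :=
  IntermediateField.adjoin ℚ_[p] {x | x ^ (p ^ n) = 1}

theorem Kn_eq (n : ℕ) (ζ : PadicAlgCl p) (hζ : IsPrimitiveRoot ζ (p ^ n)) :
    Kn p n = IntermediateField.adjoin ℚ_[p] {ζ} := by
  apply le_antisymm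
  · unfold Kn
    rw [IntermediateField.adjoin_le_iff]
    intro x hx
    have : NeZero (p ^ n) := ⟨(pow_pos hp.out.pos n).ne'⟩
    obtain ⟨i, _, rfl⟩ := hζ.eq_pow_of_pow_eq_one hx
    exact pow_mem (IntermediateField.mem_adjoin_simple_self ℚ_[p] ζ) i
  · rw [IntermediateField.adjoin_le_iff]
    intro x hx
    rw [Set.mem_singleton_iff] at hx
    subst hx
    exact IntermediateField.subset_adjoin _ _ hζ.pow_eq_one

theorem Kn_mono {m n : ℕ} (h : m ≤ n) : Kn p m ≤ Kn p n := by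
  unfold Kn
  apply IntermediateField.adjoin.mono
  intro x hx
  obtain ⟨k, rfl⟩ := Nat.exists_eq_add_of_le h
  show x ^ (p ^ (m + k)) = 1
  rw [pow_add, pow_mul]
  rw [show x ^ p ^ m = 1 from hx, one_pow]

/-- an automorphism with prescribed action. -/
theorem exists_gal_pow (n : ℕ) (ζ : PadicAlgCl p) (hζ : IsPrimitiveRoot ζ (p ^ n)) (a : ℕ)
    (ha : ¬ p ∣ a) : ∃ σ : PadicAlgCl p ≃ₐ[ℚ_[p]] PadicAlgCl p, σ ζ = ζ ^ a := by
  cases n with
  | zero =>
    rw [pow_zero, IsPrimitiveRoot.one_right_iff] at hζ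
    subst hζ
    exact ⟨AlgEquiv.refl, by simp⟩
  | succ n =>
    apply exists_gal_of_primitive n ζ _ hζ
    apply hζ.pow_of_coprime
    exact Nat.Coprime.pow_right _ ((Nat.Prime.coprime_iff_not_dvd hp.out).mpr ha).symm

theorem norm_chi (σ : PadicAlgCl p ≃ₐ[ℚ_[p]] PadicAlgCl p) :
    ‖(((chi p ℚ_[p] (PadicAlgCl p) σ : ℤ_[p]ˣ) : ℤ_[p]) : ℚ_[p])‖ = 1 := by
  have := PadicInt.norm_units (chi p ℚ_[p] (PadicAlgCl p) σ)
  exact this

/-- Approximation by the cyclotomic tower. -/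
theorem approx (k : ℕ) (z : PadicComplex p)
    (hz : ∀ σ : PadicAlgCl p ≃ₐ[ℚ_[p]] PadicAlgCl p,
      galC p σ z = ((((chi p ℚ_[p] (PadicAlgCl p) σ : ℤ_[p]ˣ) : ℤ_[p]) : ℚ_[p]) ^ k) • z)
    (ε : ℝ) (hε : 0 < ε) :
    ∃ n : ℕ, ∃ b : PadicAlgCl p, b ∈ Kn p n ∧ ‖z - (b : PadicComplex p)‖ ≤ (p : ℝ) ^ 2 * ε := by
  have hp1 : (1 : ℝ) < p := by exact_mod_cast hp.out.one_lt
  -- approximate by an algebraic element
  obtain ⟨a, ha⟩ : ∃ a : PadicAlgCl p, ‖z - (a : PadicComplex p)‖ ≤ ε := by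
    have hd := UniformSpace.Completion.denseRange_coe (α := PadicAlgCl p)
    obtain ⟨a, ha⟩ := Metric.denseRange_iff.mp hd z ε hε
    refine ⟨a, ?_⟩
    rw [← dist_eq_norm]
    exact ha.le
  set F : IntermediateField ℚ_[p] (PadicAlgCl p) := ⨆ n : ℕ, Kn p n with hF
  have hdir : Directed (· ≤ ·) (fun n : ℕ => Kn p n) := by
    intro m n
    exact ⟨max m n, Kn_mono (le_max_left _ _), Kn_mono (le_max_right _ _)⟩
  have hfix : ∀ σ : PadicAlgCl p ≃ₐ[F] PadicAlgCl p, ‖σ a - a‖ ≤ ε := by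
    intro σ
    set τ : PadicAlgCl p ≃ₐ[ℚ_[p]] PadicAlgCl p := σ.restrictScalars ℚ_[p] with hτ
    have hτσ : ∀ x, τ x = σ x := fun x => rfl
    have hchi : (((chi p ℚ_[p] (PadicAlgCl p) τ : ℤ_[p]ˣ) : ℤ_[p])) = 1 := by
      apply PadicInt.ext_of_toZModPow.mp
      intro n
      obtain ⟨ζ, hζ⟩ := exists_primitive (p := p) n
      rw [chi_eq_of τ n 1 ζ hζ]
      · simp
      · rw [pow_one, hτσ]
        have hmem : ζ ∈ F := by
          rw [hF]
          exact (le_iSup (fun n : ℕ => Kn p n) n)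
            (IntermediateField.subset_adjoin _ _ hζ.pow_eq_one)
        exact σ.commutes ⟨ζ, hmem⟩
    have hzz : galC p τ z = z := by
      rw [hz τ, hchi]
      simp
    have e1 : ‖((τ a - a : PadicAlgCl p) : PadicComplex p)‖ ≤ ε := by
      have e2 : ((τ a - a : PadicAlgCl p) : PadicComplex p) =
          galC p τ ((a : PadicComplex p) - z) + (z - (a : PadicComplex p)) := by
        rw [map_sub, hzz, galC_coe, UniformSpace.Completion.coe_sub]
        ring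
      rw [e2]
      refine (IsUltrametricDist.norm_add_le_max _ _).trans (max_le ?_ ha)
      rw [norm_galC, norm_sub_rev]
      exact ha
    rw [UniformSpace.Completion.norm_coe] at e1
    exact e1
  obtain ⟨⟨b, hbF⟩, hb⟩ := ax F a ε hε hfix
  have hb' : ‖a - b‖ ≤ (p : ℝ) ^ 2 * ε := hb
  rw [hF, ← SetLike.mem_coe, IntermediateField.coe_iSup_of_directed hdir, Set.mem_iUnion] at hbF
  obtain ⟨n, hn⟩ := hbF
  refine ⟨n, b, hn, ?_⟩
  have e : z - ((b : PadicAlgCl p) : PadicComplex p) =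
      (z - (a : PadicComplex p)) + ((a - b : PadicAlgCl p) : PadicComplex p) := by
    rw [UniformSpace.Completion.coe_sub]
    ring
  rw [e]
  refine (IsUltrametricDist.norm_add_le_max _ _).trans (max_le ?_ ?_)
  · refine ha.trans ?_
    have h2 : (1 : ℝ) ≤ (p : ℝ) ^ 2 := one_le_pow₀ hp1.le
    calc ε = 1 * ε := (one_mul ε).symm
      _ ≤ (p : ℝ) ^ 2 * ε := mul_le_mul_of_nonneg_right h2 hε.le
  · rw [UniformSpace.Completion.norm_coe]
    exact hb'

end Pool.Agent.H356R3.FM
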