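import Pool.Agent.H356R3.FM.Tate

set_option autoImplicit false

/-!
Tate's theorem, conclusion.
-/

namespace Pool.Agent.H356R3.FM

open Polynomial

variable {p : ℕ} [hp : Fact p.Prime]

theorem not_dvd_one_add (m j : ℕ) (hm : m ≠ 0) : ¬ p ∣ 1 + p ^ m * j := by
  intro h
  have h1 : p ∣ p ^ m * j := Dvd.dvd.mul_right (dvd_pow_self p hm) j
  have h2 : p ∣ 1 := (Nat.dvd_add_left h1).mp h
  exact hp.out.one_lt.ne' (Nat.dvd_one.mp h2)

/-- An automorphism whose cyclotomic character is `1` modulo `p ^ m` but whose `k`-th power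
is not `1`. -/
theorem exists_tau (m : ℕ) (hm : m ≠ 0) (k : ℕ) (hk : k ≠ 0) :
    ∃ τ : PadicAlgCl p ≃ₐ[ℚ_[p]] PadicAlgCl p,
      PadicInt.toZModPow m ((chi p ℚ_[p] (PadicAlgCl p) τ : ℤ_[p]ˣ) : ℤ_[p]) = 1 ∧
      ((chi p ℚ_[p] (PadicAlgCl p) τ : ℤ_[p]ˣ) : ℤ_[p]) ^ k ≠ 1 := by
  set u := 1 + p ^ m with hu
  set N := u ^ k + m with hN
  obtain ⟨ζ, hζ⟩ := exists_primitive (p := p) N
  obtain ⟨τ, hτ⟩ := exists_gal_pow N ζ hζ u (by
    have := not_dvd_one_add (p := p) m 1 hm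
    rwa [mul_one] at this)
  refine ⟨τ, ?_, ?_⟩
  · have hζ' : IsPrimitiveRoot (ζ ^ (p ^ (u ^ k))) (p ^ m) := by
      apply hζ.pow (pow_pos hp.out.pos N)
      rw [hN, pow_add]
    rw [chi_eq_of τ m u (ζ ^ (p ^ (u ^ k))) hζ']
    · rw [hu]
      push_cast
      have : ((p : ZMod (p ^ m)) ^ m) = 0 := by
        have := ZMod.natCast_self (p ^ m)
        push_cast at this
        exact this
      rw [this, add_zero]
    · rw [map_pow, hτ, ← pow_mul, ← pow_mul, mul_comm]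
  · intro h
    have h1 : PadicInt.toZModPow N
        (((chi p ℚ_[p] (PadicAlgCl p) τ : ℤ_[p]ˣ) : ℤ_[p]) ^ k) = 1 := by
      rw [h, map_one]
    rw [map_pow, chi_eq_of τ N u ζ hζ hτ] at h1
    have h2 : ((u ^ k : ℕ) : ZMod (p ^ N)) = ((1 : ℕ) : ZMod (p ^ N)) := by
      push_cast
      exact h1
    rw [ZMod.natCast_eq_natCast_iff] at h2
    have hu1 : 1 < u := by
      have : 0 < p ^ m := pow_pos hp.out.pos m
      omega
    have hu2 : 1 < u ^ k := Nat.one_lt_pow hk hu1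
    have h3 : u ^ k < p ^ N := by
      calc u ^ k < p ^ (u ^ k) := Nat.lt_pow_self hp.out.one_lt
        _ ≤ p ^ N := Nat.pow_le_pow_right hp.out.pos (by omega)
    have h4 : 1 < p ^ N := lt_trans hu2 h3
    have h5 := Nat.ModEq.eq_of_lt_of_lt h2 h3 h4
    omega

/-- **Tate's theorem** for positive powers. -/
theorem tate_pos (k : ℕ) (hk : k ≠ 0) (z : PadicComplex p)
    (hz : ∀ σ : PadicAlgCl p ≃ₐ[ℚ_[p]] PadicAlgCl p,
      galC p σ z = ((((chi p ℚ_[p] (PadicAlgCl p) σ : ℤ_[p]ˣ) : ℤ_[p]) : ℚ_[p]) ^ k) • z) :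
    z = 0 := by
  by_contra hz0
  have hp1 : (1 : ℝ) < p := by exact_mod_cast hp.out.one_lt
  have hp0 : (0 : ℝ) < p := by linarith
  have hzn : 0 < ‖z‖ := norm_pos_iff.mpr hz0
  set C : ℝ := (p : ℝ) ^ 2 with hC
  have hC0 : 0 < C := by positivity
  set r : ℝ := ‖z‖ / (2 * p) with hr
  have hr0 : 0 < r := by positivity
  have hrz : p * r < ‖z‖ := by
    rw [hr]
    have : p * (‖z‖ / (2 * p)) = ‖z‖ / 2 := by field_simp
    rw [this]
    linarith
  have hrz' : r < ‖z‖ := by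
    have : r ≤ p * r := by nlinarith
    linarith
  -- first approximation
  obtain ⟨m0, b0, hb0, hb0z⟩ := approx k z hz (r / C) (by positivity)
  rw [← hC, mul_div_cancel₀ _ hC0.ne'] at hb0z
  set m := m0 + 1 with hm
  have hm0 : m ≠ 0 := by omega
  have hb0m : b0 ∈ Kn p m := Kn_mono (Nat.le_succ m0) hb0
  obtain ⟨τ, hτ1, hτ2⟩ := exists_tau (p := p) m hm0 k hk
  set c : ℚ_[p] := (((chi p ℚ_[p] (PadicAlgCl p) τ : ℤ_[p]ˣ) : ℤ_[p]) : ℚ_[p]) with hc
  have hcn : ‖c‖ = 1 := norm_chi τ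
  have hck : c ^ k ≠ 1 := by
    intro h
    apply hτ2
    apply PadicInt.ext
    push_cast
    exact h
  set δ : ℝ := ‖1 - c ^ k‖ with hδ
  have hδ0 : 0 < δ := norm_pos_iff.mpr (sub_ne_zero.mpr (Ne.symm hck))
  -- second approximation
  set ε : ℝ := min r (δ * ‖z‖ / (2 * p)) / C with hε
  have hε0 : 0 < ε := by positivity
  have hCε : C * ε = min r (δ * ‖z‖ / (2 * p)) := by
    rw [hε, mul_div_cancel₀ _ hC0.ne']
  obtain ⟨n, b, hb, hbz⟩ := approx k z hz ε hε0
  rw [← hC] at hbz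
  obtain ⟨ζ, hζ⟩ := exists_primitive (p := p) (n + m)
  have hbK : b ∈ IntermediateField.adjoin ℚ_[p] {ζ} := by
    rw [← Kn_eq (n + m) ζ hζ]
    exact Kn_mono (Nat.le_add_right n m) hb
  have hζm : IsPrimitiveRoot (ζ ^ (p ^ n)) (p ^ m) := by
    apply hζ.pow (pow_pos hp.out.pos (n + m))
    rw [pow_add]
  have hb0K : b0 ∈ IntermediateField.adjoin ℚ_[p] {ζ ^ (p ^ n)} := by
    rw [← Kn_eq m _ hζm]
    exact hb0m
  have hb0K' : b0 ∈ IntermediateField.adjoin ℚ_[p] {ζ} := by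
    rw [← Kn_eq (n + m) ζ hζ]
    exact Kn_mono (Nat.le_add_left m n) hb0m
  have hex : ∀ j : ℕ, ∃ σ : PadicAlgCl p ≃ₐ[ℚ_[p]] PadicAlgCl p, σ ζ = ζ ^ (1 + p ^ m * j) :=
    fun j => exists_gal_pow (n + m) ζ hζ _ (not_dvd_one_add m j hm0)
  choose s hs using hex
  have hnm : n + m ≠ 0 := by omega
  -- action of τ on ζ
  obtain ⟨a, ha⟩ : ∃ a : ℕ, τ ζ = ζ ^ (1 + p ^ m * a) := by
    have h1 := chi_spec τ (n + m) ζ hζ.pow_eq_one
    set v := (PadicInt.toZModPow (n + m)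
      ((chi p ℚ_[p] (PadicAlgCl p) τ : ℤ_[p]ˣ) : ℤ_[p])).val with hv
    have h2 := chi_eq_of τ m v (ζ ^ (p ^ n)) hζm (by
      rw [map_pow, h1, ← pow_mul, ← pow_mul, mul_comm])
    rw [hτ1] at h2
    have h3 : ((1 : ℕ) : ZMod (p ^ m)) = (v : ZMod (p ^ m)) := by
      rw [Nat.cast_one]; exact h2
    rw [ZMod.natCast_eq_natCast_iff] at h3
    have hpm : 1 < p ^ m := Nat.one_lt_pow hm0 hp.out.one_lt
    have hv1 : 1 ≤ v := by
      by_contra hv0
      have : v = 0 := by omega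
      rw [this] at h3
      have := (Nat.modEq_zero_iff_dvd.mp h3)
      have := Nat.le_of_dvd one_pos this
      omega
    obtain ⟨a, ha⟩ := (Nat.modEq_iff_dvd' hv1).mp h3
    refine ⟨a, ?_⟩
    rw [h1]
    congr 1
    omega
  -- estimates
  set R := avg s (p ^ n) with hR
  have hbb0 : ‖b - b0‖ ≤ r := by
    rw [← UniformSpace.Completion.norm_coe, UniformSpace.Completion.coe_sub]
    have e : (b : PadicComplex p) - (b0 : PadicComplex p) =
      -(z - (b : PadicComplex p)) + (z - (b0 : PadicComplex p)) := by ring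
    rw [e]
    refine (IsUltrametricDist.norm_add_le_max _ _).trans (max_le ?_ hb0z)
    rw [norm_neg]
    refine hbz.trans ?_
    rw [hCε]
    exact min_le_left _ _
  have hRb : ‖R b - b0‖ < ‖z‖ := by
    have h1 : R b - b0 = R (b - b0) := by
      rw [map_sub]
      congr 1
      exact (avg_fix n m ζ hζ s hs b0 hb0K).symm
    rw [h1]
    have h2 := avg_bound n m ζ hζ hnm s hs (b - b0) (sub_mem hbK hb0K')
    have h3 : (p : ℝ) * ‖b - b0‖ ≤ p * r := mul_le_mul_of_nonneg_left hbb0 hp0.le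
    exact lt_of_le_of_lt (h2.trans h3) hrz
  have hb0n : ‖b0‖ = ‖z‖ := by
    rw [← UniformSpace.Completion.norm_coe]
    have h1 : ‖z - (b0 : PadicComplex p)‖ < ‖z‖ := lt_of_le_of_lt hb0z hrz'
    have e : (b0 : PadicComplex p) = z + -(z - (b0 : PadicComplex p)) := by ring
    rw [e]
    rw [IsUltrametricDist.norm_add_eq_max_of_norm_ne_norm]
    · rw [norm_neg]
      exact max_eq_left h1.le
    · rw [norm_neg]
      exact h1.ne'
  have hRbn : ‖R b‖ = ‖z‖ := by
    have e : R b = b0 + (R b - b0) := by ring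
    rw [e, IsUltrametricDist.norm_add_eq_max_of_norm_ne_norm, hb0n]
    · exact max_eq_left hRb.le
    · rw [hb0n]
      exact hRb.ne'
  have hw : ‖τ b - c ^ k • b‖ ≤ C * ε := by
    rw [← UniformSpace.Completion.norm_coe, UniformSpace.Completion.coe_sub]
    have e1 : ((c ^ k • b : PadicAlgCl p) : PadicComplex p) = c ^ k • (b : PadicComplex p) :=
      UniformSpace.Completion.coe_smul (c ^ k) b
    have e : ((τ b : PadicAlgCl p) : PadicComplex p) - ((c ^ k • b : PadicAlgCl p) : PadicComplex p)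
        = -(galC p τ (z - (b : PadicComplex p))) + c ^ k • (z - (b : PadicComplex p)) := by
      rw [e1, map_sub, galC_coe, hz τ, smul_sub]
      ring
    rw [e]
    refine (IsUltrametricDist.norm_add_le_max _ _).trans (max_le ?_ ?_)
    · rw [norm_neg, norm_galC]
      exact hbz
    · rw [norm_smul, norm_pow, hcn, one_pow, one_mul]
      exact hbz
  have hRw : R (τ b - c ^ k • b) = (1 - c ^ k) • R b := by
    rw [map_sub, map_smul, sub_smul, one_smul]
    congr 1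
    exact avg_inv n m ζ hζ s hs τ a ha b hbK
  have hwK : τ b - c ^ k • b ∈ IntermediateField.adjoin ℚ_[p] {ζ} := by
    apply sub_mem
    · -- stability under τ
      have h1 : IntermediateField.adjoin ℚ_[p] {ζ} ≤
          (IntermediateField.adjoin ℚ_[p] {ζ}).comap τ.toAlgHom := by
        rw [IntermediateField.adjoin_le_iff]
        intro x hx
        rw [Set.mem_singleton_iff] at hx
        subst hx
        show τ x ∈ IntermediateField.adjoin ℚ_[p] {x}
        rw [ha]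
        exact pow_mem (IntermediateField.mem_adjoin_simple_self ℚ_[p] x) _
      exact h1 hbK
    · exact IntermediateField.smul_mem _ hbK
  have hfin := avg_bound n m ζ hζ hnm s hs _ hwK
  rw [← hR, hRw, norm_smul, hRbn, ← hδ] at hfin
  have h1 : (p : ℝ) * ‖τ b - c ^ k • b‖ ≤ p * (C * ε) := mul_le_mul_of_nonneg_left hw hp0.le
  have h2 : C * ε ≤ δ * ‖z‖ / (2 * p) := by rw [hCε]; exact min_le_right _ _
  have h3 : (p : ℝ) * (C * ε) ≤ p * (δ * ‖z‖ / (2 * p)) := mul_le_mul_of_nonneg_left h2 hp0.le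
  have h4 : (p : ℝ) * (δ * ‖z‖ / (2 * p)) = δ * ‖z‖ / 2 := by field_simp
  have h5 : 0 < δ * ‖z‖ := mul_pos hδ0 hzn
  linarith

end Pool.Agent.H356R3.FM
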