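import Pool.Agent.H356R3.FM.Cyc2

set_option autoImplicit false

/-!
Tate's normalised trace on the cyclotomic tower over `ℚ_[p]`.
-/

namespace Pool.Agent.H356R3.FM

open Polynomial

variable {p : ℕ} [hp : Fact p.Prime]

/-- the averaging operator attached to a sequence of automorphisms. -/
noncomputable def avg (s : ℕ → (PadicAlgCl p ≃ₐ[ℚ_[p]] PadicAlgCl p)) (M : ℕ) :
    PadicAlgCl p →ₗ[ℚ_[p]] PadicAlgCl p :=
  ((M : ℚ_[p])⁻¹) • ∑ j ∈ Finset.range M, ((s j).toLinearMap : PadicAlgCl p →ₗ[ℚ_[p]] PadicAlgCl p)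

theorem avg_apply (s : ℕ → (PadicAlgCl p ≃ₐ[ℚ_[p]] PadicAlgCl p)) (M : ℕ) (x : PadicAlgCl p) :
    avg s M x = ((M : ℚ_[p])⁻¹) • ∑ j ∈ Finset.range M, s j x := by
  simp [avg, LinearMap.sum_apply]

variable (n m : ℕ) (ζ : PadicAlgCl p)

open Classical in
/-- The value of the operator on powers of `ζ`. -/
theorem avg_zeta_pow (hζ : IsPrimitiveRoot ζ (p ^ (n + m)))
    (s : ℕ → (PadicAlgCl p ≃ₐ[ℚ_[p]] PadicAlgCl p)) (hs : ∀ j, s j ζ = ζ ^ (1 + p ^ m * j))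
    (i : ℕ) :
    avg s (p ^ n) (ζ ^ i) = if (ζ ^ i) ^ (p ^ m) = 1 then ζ ^ i else 0 := by
  have hp0 : ((p ^ n : ℕ) : ℚ_[p]) ≠ 0 := by
    exact_mod_cast (pow_pos hp.out.pos n).ne'
  rw [avg_apply]
  have h1 : ∀ j, s j (ζ ^ i) = ζ ^ i * ((ζ ^ i) ^ (p ^ m)) ^ j := by
    intro j
    rw [map_pow, hs, ← pow_mul, ← pow_mul, ← pow_mul, ← pow_add]
    congr 1
    ring
  simp_rw [h1]
  rw [← Finset.mul_sum]
  split_ifs with h
  · rw [h]
    simp only [one_pow, Finset.sum_const, Finset.card_range, smul_eq_mul, nsmul_eq_mul, mul_one]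
    have h2 : ((p ^ n : ℕ) : PadicAlgCl p) = algebraMap ℚ_[p] (PadicAlgCl p) ((p ^ n : ℕ) : ℚ_[p]) := by
      rw [map_natCast]
    rw [h2, mul_comm, ← Algebra.smul_def, smul_smul, inv_mul_cancel₀ hp0, one_smul]
  · have h3 : ∑ j ∈ Finset.range (p ^ n), ((ζ ^ i) ^ (p ^ m)) ^ j = 0 := by
      have h4 : (((ζ ^ i) ^ (p ^ m)) - 1) * ∑ j ∈ Finset.range (p ^ n), ((ζ ^ i) ^ (p ^ m)) ^ j
          = ((ζ ^ i) ^ (p ^ m)) ^ (p ^ n) - 1 := by
        rw [mul_comm]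
        exact geom_sum_mul _ _
      have h5 : ((ζ ^ i) ^ (p ^ m)) ^ (p ^ n) = 1 := by
        rw [← pow_mul, ← pow_add, add_comm m n, ← pow_mul, mul_comm, pow_mul, hζ.pow_eq_one,
          one_pow]
      rw [h5, sub_self] at h4
      rcases mul_eq_zero.mp h4 with h6 | h6
      · exact absurd (sub_eq_zero.mp h6) h
      · exact h6
    rw [h3, mul_zero, smul_zero]

theorem norm_zeta (k : ℕ) (hζ : IsPrimitiveRoot ζ (p ^ k)) : ‖ζ‖ = 1 := by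
  have h1 : ‖ζ‖ ^ (p ^ k) = 1 := by
    rw [← norm_pow, hζ.pow_eq_one, norm_one]
  exact (pow_eq_one_iff_of_nonneg (norm_nonneg _) (pow_pos hp.out.pos k).ne').mp h1

/-- The operator does not increase the norm beyond `1` on integral elements. -/
theorem avg_integral (hζ : IsPrimitiveRoot ζ (p ^ (n + m))) (hnm : n + m ≠ 0)
    (s : ℕ → (PadicAlgCl p ≃ₐ[ℚ_[p]] PadicAlgCl p)) (hs : ∀ j, s j ζ = ζ ^ (1 + p ^ m * j))
    (x : PadicAlgCl p) (hx : x ∈ IntermediateField.adjoin ℚ_[p] {ζ}) (hx1 : ‖x‖ ≤ 1) :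
    ‖avg s (p ^ n) x‖ ≤ 1 := by
  have hz : ∀ i : ℕ, ‖avg s (p ^ n) (ζ ^ i)‖ ≤ 1 := by
    intro i
    rw [avg_zeta_pow n m ζ hζ s hs]
    split_ifs
    · rw [norm_pow, norm_zeta ζ _ hζ, one_pow]
    · rw [norm_zero]; exact zero_le_one
  have hπ : ∀ i j : ℕ, ‖avg s (p ^ n) ((ζ - 1) ^ i * ζ ^ j)‖ ≤ 1 := by
    intro i
    induction i with
    | zero => intro j; rw [pow_zero, one_mul]; exact hz j
    | succ i ih =>
      intro j
      have e : (ζ - 1) ^ (i + 1) * ζ ^ j = (ζ - 1) ^ i * ζ ^ (j + 1) - (ζ - 1) ^ i * ζ ^ j := by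
        ring
      rw [e, map_sub, sub_eq_add_neg]
      refine (IsUltrametricDist.norm_add_le_max _ _).trans (max_le (ih (j + 1)) ?_)
      rw [norm_neg]
      exact ih j
  obtain ⟨k, hk⟩ := Nat.exists_eq_succ_of_ne_zero hnm
  have hζ' : IsPrimitiveRoot ζ (p ^ (k + 1)) := by rw [← Nat.succ_eq_add_one, ← hk]; exact hζ
  obtain ⟨N, c, hc, hxc⟩ := expansion k ζ hζ' x hx hx1
  rw [hxc, map_sum]
  apply IsUltrametricDist.norm_sum_le_of_forall_le_of_nonneg zero_le_one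
  intro i _
  rw [map_smul, norm_smul]
  have h1 := hπ i 0
  rw [pow_zero, mul_one] at h1
  calc ‖c i‖ * ‖avg s (p ^ n) ((ζ - 1) ^ i)‖ ≤ 1 * 1 :=
        mul_le_mul (hc i) h1 (norm_nonneg _) zero_le_one
    _ = 1 := one_mul 1

/-- Boundedness of the operator. -/
theorem avg_bound (hζ : IsPrimitiveRoot ζ (p ^ (n + m))) (hnm : n + m ≠ 0)
    (s : ℕ → (PadicAlgCl p ≃ₐ[ℚ_[p]] PadicAlgCl p)) (hs : ∀ j, s j ζ = ζ ^ (1 + p ^ m * j))
    (x : PadicAlgCl p) (hx : x ∈ IntermediateField.adjoin ℚ_[p] {ζ}) :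
    ‖avg s (p ^ n) x‖ ≤ p * ‖x‖ := by
  have hp1 : (1 : ℝ) < p := by exact_mod_cast hp.out.one_lt
  have hp0 : (0 : ℝ) < p := by linarith
  by_cases hx0 : x = 0
  · rw [hx0, map_zero, norm_zero, mul_zero]
  have hxn : 0 < ‖x‖ := norm_pos_iff.mpr hx0
  obtain ⟨k, hk1, hk2⟩ := exists_mem_Ioc_zpow hxn hp1
  -- ‖x‖ ∈ (p^k, p^(k+1)]
  set a : ℚ_[p] := (p : ℚ_[p]) ^ (k + 1) with ha
  have han : ‖a‖ = (p : ℝ) ^ (-(k + 1)) := by
    rw [ha]; exact Padic.norm_p_zpow (k + 1)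
  have hax : ‖a • x‖ ≤ 1 := by
    rw [norm_smul, han]
    calc (p : ℝ) ^ (-(k + 1)) * ‖x‖ ≤ (p : ℝ) ^ (-(k + 1)) * (p : ℝ) ^ (k + 1) :=
          mul_le_mul_of_nonneg_left hk2 (by positivity)
      _ = 1 := by rw [← zpow_add₀ hp0.ne']; simp
  have h1 := avg_integral n m ζ hζ hnm s hs (a • x) (IntermediateField.smul_mem _ hx) hax
  rw [map_smul, norm_smul, han] at h1
  have h2 : ‖avg s (p ^ n) x‖ ≤ (p : ℝ) ^ (k + 1) := by
    have h3 := mul_le_mul_of_nonneg_left h1 (zpow_pos hp0 (k + 1)).le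
    rw [mul_one, ← mul_assoc, ← zpow_add₀ hp0.ne'] at h3
    simpa using h3
  refine h2.trans ?_
  rw [zpow_add_one₀ hp0.ne', mul_comm]
  exact mul_le_mul_of_nonneg_left hk1.le hp0.le

/-- The powers of `ζ` span `ℚ_p(ζ)`. -/
theorem mem_span_pow
    (x : PadicAlgCl p) (hx : x ∈ IntermediateField.adjoin ℚ_[p] {ζ}) :
    x ∈ Submodule.span ℚ_[p] (Set.range fun i : ℕ => ζ ^ i) := by
  have h1 : x ∈ (IntermediateField.adjoin ℚ_[p] {ζ}).toSubalgebra := hx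
  rw [IntermediateField.adjoin_simple_toSubalgebra_of_isAlgebraic
    (Algebra.IsAlgebraic.isAlgebraic ζ), Algebra.adjoin_singleton_eq_range_aeval] at h1
  obtain ⟨Q, rfl⟩ := h1
  show aeval ζ Q ∈ _
  rw [aeval_eq_sum_range]
  apply Submodule.sum_mem
  intro i _
  apply Submodule.smul_mem
  exact Submodule.subset_span ⟨i, rfl⟩

/-- The operator is invariant under automorphisms fixing the `p ^ m`-th roots of unity. -/
theorem avg_inv (hζ : IsPrimitiveRoot ζ (p ^ (n + m)))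
    (s : ℕ → (PadicAlgCl p ≃ₐ[ℚ_[p]] PadicAlgCl p)) (hs : ∀ j, s j ζ = ζ ^ (1 + p ^ m * j))
    (τ : PadicAlgCl p ≃ₐ[ℚ_[p]] PadicAlgCl p) (a : ℕ) (hτ : τ ζ = ζ ^ (1 + p ^ m * a))
    (x : PadicAlgCl p) (hx : x ∈ IntermediateField.adjoin ℚ_[p] {ζ}) :
    avg s (p ^ n) (τ x) = avg s (p ^ n) x := by
  have key : Set.EqOn ((avg s (p ^ n)).comp τ.toLinearMap) (avg s (p ^ n))
      (Set.range fun i : ℕ => ζ ^ i) := by
    rintro _ ⟨i, rfl⟩
    show avg s (p ^ n) (τ (ζ ^ i)) = avg s (p ^ n) (ζ ^ i)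
    have e1 : τ (ζ ^ i) = ζ ^ (i * (1 + p ^ m * a)) := by
      rw [map_pow, hτ, ← pow_mul, mul_comm]
    rw [e1, avg_zeta_pow n m ζ hζ s hs, avg_zeta_pow n m ζ hζ s hs]
    have e2 : ζ ^ (i * (1 + p ^ m * a)) = ζ ^ i * ((ζ ^ i) ^ (p ^ m)) ^ a := by
      rw [← pow_mul, ← pow_mul, ← pow_add]
      congr 1
      ring
    by_cases h : (ζ ^ i) ^ (p ^ m) = 1
    · rw [e2, h, one_pow, mul_one, if_pos h, if_pos rfl]
    · rw [if_neg h]
      rw [if_neg]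
      intro h2
      apply h
      -- τ (ζ^i)^(p^m) = 1 implies (ζ^i)^(p^m) = 1 by injectivity
      have h3 : τ ((ζ ^ i) ^ (p ^ m)) = 1 := by
        rw [map_pow, e1]; exact h2
      have h4 : τ ((ζ ^ i) ^ (p ^ m)) = τ 1 := by rw [h3, map_one]
      exact τ.injective h4
  have h1 := LinearMap.eqOn_span key
  exact h1 (mem_span_pow ζ x hx)

/-- The operator is the identity on `ℚ_p(ζ ^ (p ^ n))`. -/
theorem avg_fix (hζ : IsPrimitiveRoot ζ (p ^ (n + m)))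
    (s : ℕ → (PadicAlgCl p ≃ₐ[ℚ_[p]] PadicAlgCl p)) (hs : ∀ j, s j ζ = ζ ^ (1 + p ^ m * j))
    (x : PadicAlgCl p) (hx : x ∈ IntermediateField.adjoin ℚ_[p] {ζ ^ (p ^ n)}) :
    avg s (p ^ n) x = x := by
  have key : Set.EqOn (avg s (p ^ n)) (LinearMap.id : PadicAlgCl p →ₗ[ℚ_[p]] PadicAlgCl p)
      (Set.range fun i : ℕ => (ζ ^ (p ^ n)) ^ i) := by
    rintro _ ⟨i, rfl⟩
    show avg s (p ^ n) ((ζ ^ (p ^ n)) ^ i) = (ζ ^ (p ^ n)) ^ i
    rw [← pow_mul, avg_zeta_pow n m ζ hζ s hs]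
    rw [if_pos]
    rw [← pow_mul, show p ^ n * i * p ^ m = p ^ (n + m) * i by rw [pow_add]; ring, pow_mul,
      hζ.pow_eq_one, one_pow]
  have h1 := LinearMap.eqOn_span key
  have h2 : x ∈ Submodule.span ℚ_[p] (Set.range fun i : ℕ => (ζ ^ (p ^ n)) ^ i) := by
    have h1 : x ∈ (IntermediateField.adjoin ℚ_[p] {ζ ^ (p ^ n)}).toSubalgebra := hx
    rw [IntermediateField.adjoin_simple_toSubalgebra_of_isAlgebraic
      (Algebra.IsAlgebraic.isAlgebraic _), Algebra.adjoin_singleton_eq_range_aeval] at h1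
    obtain ⟨Q, rfl⟩ := h1
    show aeval (ζ ^ (p ^ n)) Q ∈ _
    rw [aeval_eq_sum_range]
    apply Submodule.sum_mem
    intro i _
    apply Submodule.smul_mem
    exact Submodule.subset_span ⟨i, rfl⟩
  exact h1 h2

end Pool.Agent.H356R3.FM
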